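import Pool.Agent.H46.RU.Siz

/-!
# [H46 RU SZ2] The level sets have at least two elements (20 min)

If `a` is injective, `diag(a) z = z im U` says that the rows of `z` are eigenvectors of `im U` with the distinct eigenvalues
`a i`: `vecMul (z i) (im U) = (z * im U) i = (diagonal a * z) i = a i • z i`, so `HasT z`, and `near_int` (H46/RG/Sth) gives
`IntForm g`, contradiction.  So `a i = a j` for some `i ≠ j`, the level set of `i` has at least two elements, and all level sets
have the same size (`level_card`; `Om_det_ne`, `Om_pos`).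
-/

set_option autoImplicit false

namespace Pool.Agent.H46.RU

open Matrix Pool.Agent.H89.CSD Pool.Agent.H46.RG

variable {d : ℕ}

theorem levels (hd : 3 ≤ d) {g : Matrix (Fin d) (Fin d) ℝ} (hg : g.det ≠ 0) {c : ℝ}
    (hc : 0 < c) (hp : Pos c g) (hn : ¬ IntForm g) {z : Matrix (Fin d) (Fin d) ℝ} (hz : z ∈ Om g)
    {a : Fin d → ℝ} (ha : diagonal a ∈ Aut z) :
    ∃ n : ℕ, 2 ≤ n ∧ ∀ i, (Finset.univ.filter fun j => a j = a i).card = n := by
  have hz0 := Om_det_ne hg hz
  have hpz := Om_pos hg hc hp hz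
  obtain ⟨n, h1⟩ := level_card hz0 hc hpz ha
  obtain ⟨U, hU⟩ := ha
  have hinj : ¬ Function.Injective a := by
    intro hinj
    apply hn
    refine near_int hd hg hc hp hz ⟨(U : Matrix (Fin d) (Fin d) ℤ), a, hinj, fun i => ?_⟩
    have h2 : (z * im (U : Matrix (Fin d) (Fin d) ℤ)) i =
        vecMul (z i) (im (U : Matrix (Fin d) (Fin d) ℤ)) := Matrix.mul_apply_eq_vecMul _ _ _
    rw [← h2, ← hU]
    funext j
    rw [Matrix.diagonal_mul, Pi.smul_apply, smul_eq_mul]
  refine ⟨n, ?_, h1⟩
  unfold Function.Injective at hinj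
  push Not at hinj
  obtain ⟨i, j, hij, hne⟩ := hinj
  have h2 : 1 < (Finset.univ.filter fun l => a l = a j).card := by
    rw [Finset.one_lt_card]
    exact ⟨i, by simp [hij], j, by simp, hne⟩
  rw [h1] at h2
  exact h2

end Pool.Agent.H46.RU
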