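import Pool.Agent.H46.RU.Mtc
import Pool.Agent.H46.RU.Sz2

/-!
# Theorem R: the structure of the minimal sets, and the dichotomy for all one-parameter groups
-/

set_option autoImplicit false

namespace Pool.Agent.H46.RU

open Matrix Filter Topology Pool.Agent.H89.CSD Pool.Agent.H46.RG Pool.Agent.H46.MM
  Pool.Agent.H81.GF

variable {d : ℕ}

/-- An element of the span of the logarithms of the automorphs is constant where all automorphs are. -/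
theorem span_const {z : Matrix (Fin d) (Fin d) ℝ} {i j : Fin d}
    (h : ∀ a ∈ A1 d, diagonal a ∈ Aut z → a i = a j) {w : Fin d → ℝ}
    (hw : w ∈ Submodule.span ℝ (LG z)) : w i = w j := by
  induction hw using Submodule.span_induction with
  | mem x hx =>
    obtain ⟨a, ha, haz, rfl⟩ := hx
    simp only [h a ha haz]
  | zero => simp
  | add x y _ _ hx hy => simp [hx, hy]
  | smul r x _ hx => simp [hx]

/-- One automorph of the lattice of `z` separates as much as possible. -/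
theorem sep_one (z : Matrix (Fin d) (Fin d) ℝ) :
    ∃ b ∈ A1 d, diagonal b ∈ Aut z ∧
      ∀ a ∈ A1 d, diagonal a ∈ Aut z → ∀ i j, b i = b j → a i = a j := by
  obtain ⟨b, ⟨hb1, hb2⟩, hb⟩ := max_sep {a : Fin d → ℝ | a ∈ A1 d ∧ diagonal a ∈ Aut z}
    (by
      refine ⟨⟨fun i => zero_lt_one, ?_⟩, ?_⟩
      · simp
      · have h1 : diagonal (1 : Fin d → ℝ) = 1 := Matrix.diagonal_one
        rw [h1]
        exact Aut_one z)
    (by
      rintro a ⟨⟨ha1, ha2⟩, ha3⟩ b ⟨⟨hb1, hb2⟩, hb3⟩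
      refine ⟨⟨fun i => mul_pos (ha1 i) (hb1 i), ?_⟩, ?_⟩
      · simp only [Pi.mul_apply, Finset.prod_mul_distrib, ha2, hb2, mul_one]
      · have h1 : diagonal (a * b) = diagonal a * diagonal b := by
          rw [Matrix.diagonal_mul_diagonal]
          rfl
        rw [h1]
        exact Aut_mul ha3 hb3)
    (by
      rintro a ⟨⟨ha1, -⟩, -⟩ i
      exact ha1 i)
  exact ⟨b, hb1, hb2, fun a ha haz => hb a ⟨ha, haz⟩⟩

theorem dichotomy_levels (hd : 3 ≤ d) {g : Matrix (Fin d) (Fin d) ℝ} (hg : g.det ≠ 0) {c : ℝ}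
    (hc : 0 < c) (hp : Pos c g) (hn : ¬ IntForm g) {w : Fin d → ℝ} (hw : ∑ i, w i = 0)
    {Z : Set (Matrix (Fin d) (Fin d) ℝ)} (hZ : Z ⊆ Om g) (hinv : IsInv (GFlow w) Z) :
    (∃ z ∈ Z, ∃ v : Matrix (Fin d) (Fin d) ℝ, v ≠ 0 ∧ Up w v ∧ (1 + v) * z ∈ Z) ∨
    ∃ z ∈ Z, w ∈ Submodule.span ℝ (LG z) ∧ ∃ b ∈ A1 d, diagonal b ∈ Aut z ∧
      (∀ i j, b i = b j → w i = w j) ∧
      ∃ n : ℕ, 2 ≤ n ∧ ∀ i, (Finset.univ.filter fun j => b j = b i).card = n := by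
  rcases dichotomy hg hc hp hw hZ hinv with h | ⟨z, hz, hwz⟩
  · exact Or.inl h
  · right
    obtain ⟨b, hb1, hb2, hb3⟩ := sep_one z
    exact ⟨z, hz, hwz, b, hb1, hb2,
      fun i j hij => span_const (fun a ha haz => hb3 a ha haz i j hij) hwz,
      levels hd hg hc hp hn (hZ hz) hb2⟩

theorem structure_thm (hd : 3 ≤ d) {g : Matrix (Fin d) (Fin d) ℝ} (hg : g.det ≠ 0) {c : ℝ}
    (hc : 0 < c) (hp : Pos c g) (hn : ¬ IntForm g) {Y : Set (Matrix (Fin d) (Fin d) ℝ)}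
    (hY : Y ⊆ Om g) (hinv : IsInv (A1 d) Y) :
    ∃ Y' ⊆ Y, IsInv (A1 d) Y' ∧ ∃ b ∈ A1 d, (∀ z ∈ Y', diagonal b ∈ Aut z) ∧
      (∃ n : ℕ, 2 ≤ n ∧ ∀ i, (Finset.univ.filter fun j => b j = b i).card = n) ∧
      (∀ k l, k ≠ l → ((∃ z ∈ Y', (1 + Matrix.single k l 1) * z ∈ Y') ↔ b k = b l)) ∧
      (∃ M : Finset (Fin d × Fin d), Dis M ∧ (∀ p ∈ M, b p.1 = b p.2) ∧
        (∀ i j, i ≠ j → b i = b j → i ∈ idx M ∨ j ∈ idx M) ∧
        ∃ z, ∀ Q ⊆ M, (1 + ∑ p ∈ Q, Matrix.single p.1 p.2 1) * z ∈ Y') ∧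
      ∀ w : Fin d → ℝ, ∑ i, w i = 0 → ∀ i j, b i = b j → w j < w i →
        ∀ Z : Set (Matrix (Fin d) (Fin d) ℝ), Z ⊆ Y' → IsInv (GFlow w) Z →
        ∃ z ∈ Z, ∃ v : Matrix (Fin d) (Fin d) ℝ, v ≠ 0 ∧ Up w v ∧ (1 + v) * z ∈ Z := by
  obtain ⟨Y', hY', hmin⟩ := exists_min hg hc hp hY hinv
  have hY'O : Y' ⊆ Om g := hY'.trans hY
  obtain ⟨b, hbY, hbs⟩ := exists_sep hg hY'O hmin
  obtain ⟨z0, hz0⟩ := hmin.1.nonempty
  refine ⟨Y', hY', hmin.1, b, hbY.1, hbY.2, levels hd hg hc hp hn (hY'O hz0) (hbY.2 z0 hz0), ?_,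
    matching hg hc hp hY'O hmin.1 hbY hbs, ?_⟩
  · intro k l hkl
    constructor
    · rintro ⟨z, hz, hz'⟩
      exact roots_only hg hc hp hY'O hbY hkl one_ne_zero hz hz'
    · intro hb
      exact all_roots hg hc hp hY'O hmin.1 hbY hbs hkl hb
  · intro w hw i j hij hwij Z hZ hZinv
    exact shear_in hg hc hp hY'O hbs hw hij hwij hZ hZinv

end Pool.Agent.H46.RU
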