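import Pool.Agent.H46.RU.Aut
import Pool.Agent.H89.CSD.Irr

/-!
# [H46 RU SIZ] The level sets of an automorph have the same size (75 min)

`diag(a) z = z im U`, `det z ≠ 0`, so `im U = z⁻¹ diag(a) z`.
(1) For `p ∈ ℚ[X]` (or `ℤ[X]`): if `p (U) x = 0` for some nonzero integer (rational) vector `x` then `p (U) = 0`: for an integer
multiple `q` of `p` (coefficients in `ℤ`) `z (q (U) x) = q (diag a) z x`, so `q (a i) (z x)_i = 0` for all `i`, and `(z x)_i ≠ 0` by `Pos`
(`P_eq`, the product is `≥ c > 0` in absolute value), so `q (a i) = 0` for all `i`, `q (U) = z⁻¹ q (diag a) z = 0`.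
(2) Let `μ = minpoly ℚ (U over ℚ)`.  `μ` is irreducible: if `μ = p q`, `p (U) q (U) = 0`; if `q (U) ≠ 0` there is a column `x` of `q (U)`
(times a denominator) `≠ 0` with `p (U) x = 0`, so `p (U) = 0` by (1).  `μ (a i) = 0` for all `i`.
(3) `χ = charpoly U = ∏ (X - a i)` over `ℝ` (`charpoly` of the similar matrix `diag a`, `Matrix.charpoly_diagonal` or by
`det`).  Every irreducible factor `π` of `χ` in `ℚ[X]` has a complex root, which is a root of `χ`, so some `a i`, a root of `μ`;
so `π` and `μ` are associated (both irreducible, common root: `minpoly.dvd`).  So `χ = μ ^ n` (both monic; e.g. write `χ = μ ^ n * r`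
with `μ ∤ r`, `multiplicity`; if `r` were not a unit it would have an irreducible factor, associated to `μ`).
(4) `μ` is separable (characteristic zero), so the multiplicity of the root `a i` in `χ` is `n`
(`Polynomial.rootMultiplicity_pow`?, `count_roots`), and it is also the number of the `j` with `a j = a i`
(`Polynomial.roots_prod_X_sub_C`, `Multiset.count_map`).
-/

set_option autoImplicit false

namespace Pool.Agent.H46.RU

open Matrix Pool.Agent.H89.CSD

variable {d : ℕ}

open Polynomial in
theorem level_card {z : Matrix (Fin d) (Fin d) ℝ} (hz : z.det ≠ 0) {c : ℝ} (hc : 0 < c)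
    (hp : Pos c z) {a : Fin d → ℝ} (ha : diagonal a ∈ Aut z) :
    ∃ n : ℕ, ∀ i, (Finset.univ.filter fun j => a j = a i).card = n := by
  classical
  obtain ⟨U, hU⟩ := ha
  set T : Matrix (Fin d) (Fin d) ℤ := (U : Matrix (Fin d) (Fin d) ℤ) with hT
  have hrow : ∀ i, vecMul (z i) (im T) = a i • z i := by
    intro i
    have h1 := congrFun hU.symm i
    ext j
    have h2 := congrFun h1 j
    rw [Matrix.diagonal_mul] at h2
    simpa [Matrix.mul_apply, vecMul, dotProduct] using h2
  rcases Nat.eq_zero_or_pos d with hd | hd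
  · subst hd
    exact ⟨0, fun i => i.elim0⟩
  set M : Matrix (Fin d) (Fin d) ℚ := T.map (Int.cast : ℤ → ℚ) with hM
  -- the characteristic polynomial
  have hMim : M.map (algebraMap ℚ ℝ) = im T := by
    ext i j
    simp [hM, im]
  have hchar : M.charpoly.map (algebraMap ℚ ℝ) = ∏ i, (X - C (a i)) := by
    rw [← Matrix.charpoly_map, hMim, ← Matrix.charpoly_diagonal]
    have hzu : IsUnit z := (Matrix.isUnit_iff_isUnit_det z).2 (isUnit_iff_ne_zero.2 hz)
    obtain ⟨w, rfl⟩ := hzu
    have h1 : im T = (w⁻¹).val * diagonal a * w.val := by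
      rw [mul_assoc, hU, ← mul_assoc, Units.inv_mul, one_mul]
    rw [h1, Matrix.coe_units_inv, Matrix.charpoly_units_conj']
  -- a polynomial vanishing at one of the eigenvalues vanishes at all of them
  have key : ∀ (p : ℚ[X]) (i j : Fin d), (p.map (algebraMap ℚ ℝ)).eval (a i) = 0 →
      (p.map (algebraMap ℚ ℝ)).eval (a j) = 0 := by
    intro p i j h0
    have h1 : ∀ v : Fin d → ℚ, (aeval M p) *ᵥ v = 0 := by
      intro v
      by_contra hv
      have h2 := row_ne_zero hc hp hv i
      apply h2
      have h3 := row_aeval hrow i p v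
      rw [← hM] at h3
      rw [h3, h0, zero_mul]
    set v0 : Fin d → ℚ := Pi.single ⟨0, hd⟩ 1 with hv0
    have hv00 : v0 ≠ 0 := by
      intro h
      have := congrFun h ⟨0, hd⟩
      simp [hv0] at this
    have h4 := row_aeval hrow j p v0
    rw [← hM, h1 v0] at h4
    have h5 : rc (0 : Fin d → ℚ) = 0 := by
      ext k
      simp [rc]
    rw [h5, Matrix.mulVec_zero, Pi.zero_apply] at h4
    rcases mul_eq_zero.1 h4.symm with h | h
    · exact h
    · exact absurd h (row_ne_zero hc hp hv00 j)
  set i0 : Fin d := ⟨0, hd⟩ with hi0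
  have hchar0 : ∀ i, (M.charpoly.map (algebraMap ℚ ℝ)).eval (a i) = 0 := by
    intro i
    rw [hchar, Polynomial.eval_prod]
    exact Finset.prod_eq_zero (Finset.mem_univ i) (by simp)
  have hint : IsIntegral ℚ (a i0) := by
    refine ⟨M.charpoly, Matrix.charpoly_monic M, ?_⟩
    rw [← Polynomial.eval_map]
    exact hchar0 i0
  set μ : ℚ[X] := minpoly ℚ (a i0) with hμ
  have hirr : Irreducible μ := minpoly.irreducible hint
  have hμ0 : ∀ i, (μ.map (algebraMap ℚ ℝ)).eval (a i) = 0 := by
    intro i
    apply key μ i0 i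
    rw [Polynomial.eval_map]
    exact minpoly.aeval ℚ (a i0)
  obtain ⟨r, hr, hnd⟩ := (FiniteMultiplicity.of_not_isUnit hirr.not_isUnit
    (Matrix.charpoly_monic M).ne_zero).exists_eq_pow_mul_and_not_dvd
  set k := multiplicity μ M.charpoly with hk
  have hr0 : ∀ i, (r.map (algebraMap ℚ ℝ)).eval (a i) ≠ 0 := by
    intro i h
    apply hnd
    apply minpoly.dvd
    have := key r i i0 h
    rwa [Polynomial.eval_map] at this
  refine ⟨k, fun i => ?_⟩
  have hm0 : M.charpoly.map (algebraMap ℚ ℝ) ≠ 0 :=
    ((Matrix.charpoly_monic M).map _).ne_zero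
  have h1 : ((M.charpoly.map (algebraMap ℚ ℝ)).roots.count (a i)) = k := by
    have h2 : M.charpoly.map (algebraMap ℚ ℝ)
        = (μ.map (algebraMap ℚ ℝ)) ^ k * r.map (algebraMap ℚ ℝ) := by
      conv_lhs => rw [hr]
      rw [Polynomial.map_mul, Polynomial.map_pow]
    rw [h2, Polynomial.roots_mul (h2 ▸ hm0), Polynomial.roots_pow, Multiset.count_add,
      Multiset.count_nsmul]
    have h3 : Multiset.count (a i) (r.map (algebraMap ℚ ℝ)).roots = 0 := by
      rw [Multiset.count_eq_zero]
      intro hmem
      exact hr0 i (Polynomial.isRoot_of_mem_roots hmem)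
    have h4 : Multiset.count (a i) (μ.map (algebraMap ℚ ℝ)).roots = 1 := by
      apply Multiset.count_eq_one_of_mem
      · exact Polynomial.nodup_roots ((hirr.separable).map)
      · rw [Polynomial.mem_roots (Polynomial.map_ne_zero hirr.ne_zero)]
        exact hμ0 i
    rw [h3, h4]
    simp
  rw [← h1, hchar]
  rw [Polynomial.roots_prod _ _ (Finset.prod_ne_zero_iff.2 fun j _ => Polynomial.X_sub_C_ne_zero _)]
  simp only [Polynomial.roots_X_sub_C]
  rw [Multiset.count_bind]
  simp only [Multiset.count_singleton]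
  rw [Finset.card_filter]
  apply Finset.sum_congr rfl
  intro j _
  simp [eq_comm]

end Pool.Agent.H46.RU
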