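import Pool.Agent.H46.RU.Defs
import Pool.Agent.H89.CSD.Irr

/-!
# [H46 RU ZCR] A one-parameter group without zeros is diagonal (60 min)

Suppose `X i j ≠ 0`, `i ≠ j`.  (1) There is `s > 0` with `q := (exp (s X)) i j ≠ 0`: otherwise the function
`s ↦ (exp (s X)) i j` vanishes for `s ≥ 0`, but its derivative at `0` is `X i j` (`hasDerivAt_exp_smul_const` or
`NormedSpace.exp_eq_tsum`; e.g. `(exp (s X) - 1) / s → X` as `s → 0+`).
(2) Put `p = (exp (s X)) i i` and choose `τ` with `p + τ q < 0`.  Let `u = z⁻¹ (e_i + τ e_j)`, so `(z u)_i = 1` and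
`(exp (s X) z u)_i = p + τ q < 0`.  The set of the real vectors `u` with `0 < (z u)_i` and `(exp (s X) z u)_i < 0` is open, so it
contains a rational vector (density of `ℚ` in `ℝ`, coordinatewise), and multiplying by a common denominator an
integer vector `x`; `x ≠ 0`.
(3) `f (r) = (exp (r X) z (ic x))_i` is continuous on `[0, s]`, `f 0 > 0`, `f s < 0`, so `f r = 0` for some `r ∈ [0, s]`
(`intermediate_value_Icc'`), and `P (exp (r X) z) (ic x) = ∏ … = 0`, contradiction (`P_eq`).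
-/

set_option autoImplicit false

namespace Pool.Agent.H46.RU

open Matrix Filter Topology Pool.Agent.H89.CSD

variable {d : ℕ}

section expo

open scoped Matrix.Norms.Operator

private theorem hasDerivAt_entry (X : Matrix (Fin d) (Fin d) ℝ) (t : ℝ) (i j : Fin d) :
    HasDerivAt (fun r : ℝ => (NormedSpace.exp (r • X)) i j)
      ((NormedSpace.exp (t • X) * X) i j) t := by
  have h1 := hasDerivAt_exp_smul_const (𝕂 := ℝ) X t
  have h2 := hasDerivAt_pi.1 (hasDerivAt_pi.1 h1 i) j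
  exact h2

end expo

private theorem cont_entry (X : Matrix (Fin d) (Fin d) ℝ) (i j : Fin d) :
    Continuous (fun r : ℝ => (NormedSpace.exp (r • X)) i j) :=
  continuous_iff_continuousAt.2 fun t => (hasDerivAt_entry X t i j).continuousAt

private theorem exists_entry {X : Matrix (Fin d) (Fin d) ℝ} {i j : Fin d} (hij : i ≠ j)
    (hX : X i j ≠ 0) : ∃ s : ℝ, 0 < s ∧ (NormedSpace.exp (s • X)) i j ≠ 0 := by
  by_contra hcon
  push Not at hcon
  apply hX
  have h1 := hasDerivAt_entry X 0 i j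
  rw [zero_smul, NormedSpace.exp_zero, one_mul] at h1
  have h2 : HasDerivWithinAt (fun r : ℝ => (NormedSpace.exp (r • X)) i j) (X i j)
      (Set.Ici 0) 0 := h1.hasDerivWithinAt
  have h3 : HasDerivWithinAt (fun r : ℝ => (NormedSpace.exp (r • X)) i j) 0
      (Set.Ici 0) 0 := by
    have h4 : HasDerivWithinAt (fun _ : ℝ => (0 : ℝ)) 0 (Set.Ici 0) 0 :=
      hasDerivWithinAt_const _ _ _
    have h5 : (NormedSpace.exp ((0 : ℝ) • X)) i j = 0 := by
      rw [zero_smul, NormedSpace.exp_zero, Matrix.one_apply_ne hij]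
    refine h4.congr ?_ h5
    intro r hr
    rcases eq_or_lt_of_le (Set.mem_Ici.1 hr) with h | h
    · rw [← h]
      exact h5
    · exact hcon r h
  exact (uniqueDiffOn_Ici (0 : ℝ) 0 Set.self_mem_Ici).eq_deriv _ h2 h3

private theorem exists_int_vec {O : Set (Fin d → ℝ)} (hO : IsOpen O) (hne : O.Nonempty) :
    ∃ (x : Fin d → ℤ) (N : ℤ) (v : Fin d → ℝ), N ≠ 0 ∧ v ∈ O ∧ ic x = (N : ℝ) • v := by
  have hd : DenseRange (fun v : Fin d → ℚ => fun j => ((v j : ℚ) : ℝ)) :=
    DenseRange.piMap fun _ => Rat.denseRange_cast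
  obtain ⟨v, hv⟩ := hd.exists_mem_open hO hne
  set N : ℤ := ∏ j, ((v j).den : ℤ) with hN
  have hN0 : N ≠ 0 := Finset.prod_ne_zero_iff.2 fun j _ => by exact_mod_cast (v j).den_nz
  set x : Fin d → ℤ := fun j => (∏ k ∈ Finset.univ.erase j, ((v k).den : ℤ)) * (v j).num with hx
  have hxv : ∀ j, (x j : ℚ) = N * v j := by
    intro j
    rw [hx, hN]
    push_cast
    rw [← Finset.mul_prod_erase Finset.univ (fun j => ((v j).den : ℚ)) (Finset.mem_univ j)]
    have h1 : ((v j).den : ℚ) * v j = (v j).num := by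
      rw [mul_comm]
      exact Rat.mul_den_eq_num _
    rw [mul_comm ((v j).den : ℚ), mul_assoc, h1]
  refine ⟨x, N, _, hN0, hv, ?_⟩
  ext j
  have := hxv j
  have h2 : ((x j : ℚ) : ℝ) = ((N * v j : ℚ) : ℝ) := by rw [this]
  push_cast at h2
  simpa [ic] using h2

theorem zcr {z X : Matrix (Fin d) (Fin d) ℝ} (hz : z.det ≠ 0)
    (h : ∀ s : ℝ, 0 ≤ s → ∀ x : Fin d → ℤ, x ≠ 0 →
      P (NormedSpace.exp (s • X) * z) (ic x) ≠ 0) {i j : Fin d} (hij : i ≠ j) : X i j = 0 := by
  by_contra hX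
  obtain ⟨s, hs, hq⟩ := exists_entry hij hX
  set E : Matrix (Fin d) (Fin d) ℝ := NormedSpace.exp (s • X) with hE
  set τ : ℝ := (-E i i - 1) / E i j with hτ
  set y : Fin d → ℝ := Pi.single i 1 + Pi.single j τ with hy
  have hy1 : y i = 1 := by
    rw [hy, Pi.add_apply, Pi.single_eq_same, Pi.single_eq_of_ne hij, add_zero]
  have hy2 : (E *ᵥ y) i = -1 := by
    rw [hy, Matrix.mulVec_add, Pi.add_apply, Matrix.mulVec_single, Matrix.mulVec_single]
    simp only [Pi.smul_apply, Matrix.col_apply, MulOpposite.smul_eq_mul_unop,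
      MulOpposite.unop_op]
    rw [hτ, mul_div_cancel₀ _ hq]
    ring
  set u : Fin d → ℝ := z⁻¹ *ᵥ y with hu
  have hzu : z *ᵥ u = y := by
    rw [hu, Matrix.mulVec_mulVec, Matrix.mul_nonsing_inv _ (isUnit_iff_ne_zero.2 hz),
      Matrix.one_mulVec]
  have hc1 : Continuous fun w : Fin d → ℝ => (z *ᵥ w) i :=
    (continuous_apply i).comp (Continuous.matrix_mulVec continuous_const continuous_id)
  have hc2 : Continuous fun w : Fin d → ℝ => (E *ᵥ (z *ᵥ w)) i :=
    (continuous_apply i).comp (Continuous.matrix_mulVec continuous_const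
      (Continuous.matrix_mulVec continuous_const continuous_id))
  have hO : IsOpen {w : Fin d → ℝ | 0 < (z *ᵥ w) i ∧ (E *ᵥ (z *ᵥ w)) i < 0} :=
    (isOpen_lt continuous_const hc1).inter (isOpen_lt hc2 continuous_const)
  obtain ⟨x, N, v, hN, hv, hxv⟩ := exists_int_vec hO ⟨u, by
    refine ⟨?_, ?_⟩
    · rw [hzu, hy1]
      norm_num
    · rw [hzu, hy2]
      norm_num⟩
  obtain ⟨hv1, hv2⟩ := hv
  have hf : Continuous fun r : ℝ => ((NormedSpace.exp (r • X)) *ᵥ (z *ᵥ v)) i := by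
    simp only [Matrix.mulVec, dotProduct]
    exact continuous_finsetSum _ fun k _ => (cont_entry X i k).mul continuous_const
  have h0 : ((NormedSpace.exp ((0 : ℝ) • X)) *ᵥ (z *ᵥ v)) i = (z *ᵥ v) i := by
    rw [zero_smul, NormedSpace.exp_zero, Matrix.one_mulVec]
  have hiv := intermediate_value_Icc' hs.le hf.continuousOn
  have hmem : (0 : ℝ) ∈ Set.Icc (((NormedSpace.exp (s • X)) *ᵥ (z *ᵥ v)) i)
      (((NormedSpace.exp ((0 : ℝ) • X)) *ᵥ (z *ᵥ v)) i) := by
    rw [h0]
    exact ⟨hv2.le, hv1.le⟩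
  obtain ⟨r, hr, hr0⟩ := hiv hmem
  have hx0 : x ≠ 0 := by
    intro hx
    have h1 : ic x = 0 := by
      rw [hx]
      ext k
      simp [ic]
    rw [h1] at hxv
    have h2 : v = 0 := by
      rcases smul_eq_zero.1 hxv.symm with h3 | h3
      · exact absurd (by exact_mod_cast h3) hN
      · exact h3
    rw [h2, Matrix.mulVec_zero] at hv1
    simp at hv1
  apply h r hr.1 x hx0
  rw [P_eq]
  apply Finset.prod_eq_zero (Finset.mem_univ i)
  rw [hxv, Matrix.mulVec_smul, Pi.smul_apply, ← Matrix.mulVec_mulVec]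
  simp only at hr0
  rw [hr0, smul_zero]

end Pool.Agent.H46.RU
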