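import Mathlib

/-!
# [H46 RU MXB] An element which separates as much as possible (35 min; Mathlib only)

Choose `b ∈ S` with the largest number of pairs `(i, j)` with `b i ≠ b j` (`Set.Finite`/`Nat.find`: the numbers are at most
`d ^ 2`; `exists_maximal` or strong induction on `d ^ 2 - number`).  Suppose `a ∈ S`, `b i0 = b j0`, `a i0 ≠ a j0`.  For `k ≥ 0`
`b ^ k * a ∈ S`.  For a pair with `b i ≠ b j` the equation `b i ^ k * a i = b j ^ k * a j` holds for at most one `k` (if for `k < l`:
divide, `b i ^ (l - k) = b j ^ (l - k)`, so `b i = b j` because both are positive, `pow_left_injective`).  So there is `k ≤ d ^ 2` for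
which `b ^ k * a` separates all pairs which `b` separates; it also separates `(i0, j0)`: contradiction.
-/

set_option autoImplicit false

namespace Pool.Agent.H46.RU

theorem max_sep {d : ℕ} (S : Set (Fin d → ℝ)) (h1 : (1 : Fin d → ℝ) ∈ S)
    (hmul : ∀ a ∈ S, ∀ b ∈ S, a * b ∈ S) (hpos : ∀ a ∈ S, ∀ i, 0 < a i) :
    ∃ b ∈ S, ∀ a ∈ S, ∀ i j, b i = b j → a i = a j := by
  classical
  let N : (Fin d → ℝ) → ℕ := fun b =>
    (Finset.univ.filter fun p : Fin d × Fin d => b p.1 ≠ b p.2).card
  have hbd : BddAbove (N '' S) := by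
    refine ⟨Fintype.card (Fin d × Fin d), ?_⟩
    rintro _ ⟨b, -, rfl⟩
    exact Finset.card_le_univ _
  have hne : (N '' S).Nonempty := ⟨N 1, 1, h1, rfl⟩
  obtain ⟨b, hb, hbN⟩ := Nat.sSup_mem hne hbd
  have hmax : ∀ a ∈ S, N a ≤ N b := by
    intro a ha
    rw [hbN]
    exact le_csSup hbd ⟨a, ha, rfl⟩
  have hpow : ∀ k : ℕ, b ^ k ∈ S := by
    intro k
    induction k with
    | zero => rw [pow_zero]; exact h1
    | succ k ih => rw [pow_succ]; exact hmul _ ih _ hb
  refine ⟨b, hb, fun a ha i₀ j₀ hij => ?_⟩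
  by_contra hne'
  have key : ∀ k : ℕ, ∃ p : Fin d × Fin d, b p.1 ≠ b p.2 ∧
      b p.1 ^ k * a p.1 = b p.2 ^ k * a p.2 := by
    intro k
    by_contra hno
    push Not at hno
    have h2 : N (b ^ k * a) ≤ N b := hmax _ (hmul _ (hpow k) _ ha)
    have h3 : N b < N (b ^ k * a) := by
      apply Finset.card_lt_card
      rw [Finset.ssubset_iff_of_subset]
      · refine ⟨(i₀, j₀), ?_, ?_⟩
        · rw [Finset.mem_filter]
          refine ⟨Finset.mem_univ _, ?_⟩
          show b i₀ ^ k * a i₀ ≠ b j₀ ^ k * a j₀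
          rw [hij]
          intro h
          exact hne' (mul_left_cancel₀ (pow_pos (hpos b hb j₀) k).ne' h)
        · rw [Finset.mem_filter]
          rintro ⟨-, h⟩
          exact h hij
      · intro p hp
        rw [Finset.mem_filter] at hp ⊢
        exact ⟨Finset.mem_univ _, hno p hp.2⟩
    omega
  choose p hp1 hp2 using key
  obtain ⟨k, l, hkl, hpe⟩ := Finite.exists_ne_map_eq_of_infinite p
  have main : ∀ k l : ℕ, k < l → p k = p l → False := by
    intro k l hlt he
    have e1 := hp2 k
    have e2 := hp2 l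
    rw [← he] at e2
    have hi := hpos b hb (p k).1
    have hj := hpos b hb (p k).2
    have ai := hpos a ha (p k).1
    have aj := hpos a ha (p k).2
    obtain ⟨m, rfl⟩ := Nat.exists_eq_add_of_lt hlt
    have e3 : b (p k).1 ^ (m + 1) = b (p k).2 ^ (m + 1) := by
      have h4 : b (p k).1 ^ (m + 1) * (b (p k).1 ^ k * a (p k).1) =
          b (p k).2 ^ (m + 1) * (b (p k).1 ^ k * a (p k).1) := by
        calc b (p k).1 ^ (m + 1) * (b (p k).1 ^ k * a (p k).1)
            = b (p k).1 ^ (k + m + 1) * a (p k).1 := by ring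
          _ = b (p k).2 ^ (k + m + 1) * a (p k).2 := e2
          _ = b (p k).2 ^ (m + 1) * (b (p k).2 ^ k * a (p k).2) := by ring
          _ = _ := by rw [e1]
      exact mul_right_cancel₀ (by positivity) h4
    exact hp1 k ((pow_left_inj₀ hi.le hj.le (Nat.succ_ne_zero m)).1 e3)
  rcases lt_or_gt_of_ne hkl with h | h
  · exact main k l h hpe
  · exact main l k h hpe.symm

end Pool.Agent.H46.RU
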