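import Pool.Agent.H46.RU.Dsc

/-!
# [H46 RU RST] Shears respect the level sets of the automorphs (35 min)

Let `D = diagonal b`.  `D z = z U` and `D (1 + v) z = (1 + v) z U'` (both lattices are in `Y`, `b ∈ DA Y`).  `D (1 + v) z =
(1 + D v D⁻¹) D z = (1 + D v D⁻¹) z U`.  So `(1 + v)⁻¹ (1 + D v D⁻¹) z = z U' U⁻¹`; `v` and `D v D⁻¹` have their rows in `I` and
their columns outside `I`, so all products of two of them vanish, `(1 + v)⁻¹ = 1 - v`, `(1 - v) (1 + D v D⁻¹) = 1 + w` with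
`w = D v D⁻¹ - v`, `Blk I w`.  `1 + w ∈ Aut z`, `no_unip`: `w = 0`.  Entry `(p, q)`: `(b p / b q - 1) v p q = 0`.
-/

set_option autoImplicit false

namespace Pool.Agent.H46.RU

open Matrix Filter Topology Pool.Agent.H89.CSD Pool.Agent.H46.RG

variable {d : ℕ}

theorem blk_mul {I : Finset (Fin d)} {v w : Matrix (Fin d) (Fin d) ℝ} (hv : Blk I v)
    (hw : Blk I w) : v * w = 0 := by
  ext i k
  rw [Matrix.mul_apply, Matrix.zero_apply]
  refine Finset.sum_eq_zero fun j _ => ?_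
  by_contra h
  exact (hv i j (left_ne_zero_of_mul h)).2 (hw j k (right_ne_zero_of_mul h)).1

theorem restrict {g : Matrix (Fin d) (Fin d) ℝ} (hg : g.det ≠ 0) {c : ℝ} (hc : 0 < c)
    (hp : Pos c g) {Y : Set (Matrix (Fin d) (Fin d) ℝ)} (hY : Y ⊆ Om g) {b : Fin d → ℝ}
    (hb : b ∈ DA Y) {z : Matrix (Fin d) (Fin d) ℝ} (hz : z ∈ Y) {I : Finset (Fin d)}
    {v : Matrix (Fin d) (Fin d) ℝ} (hv : Blk I v) (hvz : (1 + v) * z ∈ Y) {p q : Fin d}
    (hpq : v p q ≠ 0) : b p = b q := by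
  obtain ⟨U, hU⟩ := hb.2 z hz
  obtain ⟨U', hU'⟩ := hb.2 _ hvz
  have hb0 : ∀ i, b i ≠ 0 := fun i => (hb.1.1 i).ne'
  have hDD : diagonal (fun i => (b i)⁻¹) * diagonal b = (1 : Matrix (Fin d) (Fin d) ℝ) := by
    rw [Matrix.diagonal_mul_diagonal, ← Matrix.diagonal_one]
    congr 1
    ext i
    exact inv_mul_cancel₀ (hb0 i)
  have hDD' : diagonal b * diagonal (fun i => (b i)⁻¹) = (1 : Matrix (Fin d) (Fin d) ℝ) := by
    rw [Matrix.diagonal_mul_diagonal, ← Matrix.diagonal_one]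
    congr 1
    ext i
    exact mul_inv_cancel₀ (hb0 i)
  have hinv : diagonal (fun i => (b i)⁻¹) * z =
      z * im ((U⁻¹ : (Matrix (Fin d) (Fin d) ℤ)ˣ) : Matrix (Fin d) (Fin d) ℤ) := by
    calc diagonal (fun i => (b i)⁻¹) * z
        = diagonal (fun i => (b i)⁻¹) * (z * im (U : Matrix (Fin d) (Fin d) ℤ)) *
          im ((U⁻¹ : (Matrix (Fin d) (Fin d) ℤ)ˣ) : Matrix (Fin d) (Fin d) ℤ) := by
          rw [Matrix.mul_assoc, Matrix.mul_assoc z, im_mul_inv, Matrix.mul_one]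
      _ = z * im ((U⁻¹ : (Matrix (Fin d) (Fin d) ℤ)ˣ) : Matrix (Fin d) (Fin d) ℤ) := by
          rw [← hU, ← Matrix.mul_assoc (diagonal fun i => (b i)⁻¹), hDD, Matrix.one_mul]
  obtain ⟨v', hv'⟩ : ∃ v' : Matrix (Fin d) (Fin d) ℝ,
      v' = diagonal b * v * diagonal (fun i => (b i)⁻¹) := ⟨_, rfl⟩
  have hv'e : ∀ i j, v' i j = b i * v i j * (b j)⁻¹ := by
    intro i j
    rw [hv', Matrix.mul_diagonal, Matrix.diagonal_mul]
  have hblk' : Blk I v' := by
    intro i j hij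
    rw [hv'e] at hij
    exact hv i j (right_ne_zero_of_mul (left_ne_zero_of_mul hij))
  have hC : (1 + v') * z = (1 + v) * z * im (U' : Matrix (Fin d) (Fin d) ℤ) *
      im ((U⁻¹ : (Matrix (Fin d) (Fin d) ℤ)ˣ) : Matrix (Fin d) (Fin d) ℤ) := by
    have h1 : (1 : Matrix (Fin d) (Fin d) ℝ) + v' =
        diagonal b * (1 + v) * diagonal (fun i => (b i)⁻¹) := by
      rw [hv', Matrix.mul_add, Matrix.mul_one, Matrix.add_mul, hDD']
    rw [← hU', h1, Matrix.mul_assoc _ (diagonal fun i => (b i)⁻¹) z, hinv]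
    simp only [Matrix.mul_assoc]
  have hw : 1 + (v' - v) ∈ Aut z := by
    refine ⟨U' * U⁻¹, ?_⟩
    have h1 : (1 : Matrix (Fin d) (Fin d) ℝ) + (v' - v) = (1 - v) * (1 + v') := by
      rw [Matrix.sub_mul, Matrix.one_mul, Matrix.mul_add, Matrix.mul_one, blk_mul hv hblk',
        add_zero]
      abel
    have h2 : (1 - v) * (1 + v) = 1 := by
      rw [Matrix.sub_mul, Matrix.one_mul, Matrix.mul_add, Matrix.mul_one, blk_mul hv hv,
        add_zero]
      abel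
    rw [h1, Matrix.mul_assoc, hC, Units.val_mul, im_mul]
    calc (1 - v) * ((1 + v) * z * im (U' : Matrix (Fin d) (Fin d) ℤ) *
          im ((U⁻¹ : (Matrix (Fin d) (Fin d) ℤ)ˣ) : Matrix (Fin d) (Fin d) ℤ))
        = ((1 - v) * (1 + v)) * z * (im (U' : Matrix (Fin d) (Fin d) ℤ) *
          im ((U⁻¹ : (Matrix (Fin d) (Fin d) ℤ)ˣ) : Matrix (Fin d) (Fin d) ℤ)) := by
          simp only [Matrix.mul_assoc]
      _ = z * (im (U' : Matrix (Fin d) (Fin d) ℤ) *
          im ((U⁻¹ : (Matrix (Fin d) (Fin d) ℤ)ˣ) : Matrix (Fin d) (Fin d) ℤ)) := by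
          rw [h2, Matrix.one_mul]
  have h0 := no_unip hg hc hp (hY hz) (I := I) (w := v' - v) (by
    intro i j hij
    rw [Matrix.sub_apply] at hij
    by_cases h : v i j = 0
    · rw [h, sub_zero] at hij
      exact hblk' i j hij
    · exact hv i j h) hw
  have h3 := congrFun (congrFun h0 p) q
  rw [Matrix.sub_apply, Matrix.zero_apply, hv'e] at h3
  have h4 : (b p * (b q)⁻¹ - 1) * v p q = 0 := by
    rw [← h3]
    ring
  rcases mul_eq_zero.1 h4 with h5 | h5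
  · have h6 : b p * (b q)⁻¹ = 1 := by linarith
    calc b p = b p * (b q)⁻¹ * b q := by
          rw [mul_assoc, inv_mul_cancel₀ (hb0 q), mul_one]
      _ = b q := by rw [h6, one_mul]
  · exact absurd h5 hpq

end Pool.Agent.H46.RU
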