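import Pool.Agent.H46.RU.Defs

/-!
# [H46 RU CLO] Limits of automorphs (30 min)

`units_tendsto`: the entries of `U n` are convergent sequences of integers, so eventually constant (see
`H89/CSD/IntForm.lean`, line 143); so `U n = U N` for `n ≥ N` and `V = U N`.
`aut_closed`: `h n * z n = z n * im (U n)`, so `im (U n) = (z n)⁻¹ * h n * z n → z0⁻¹ * h0 * z0`
(`continuousAt_inv` in `H89/CSD/Return`; `det (z n) ≠ 0` for large `n`); `units_tendsto` gives `V` with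
`im V = z0⁻¹ * h0 * z0`, so `h0 * z0 = z0 * im V`.
-/

set_option autoImplicit false

namespace Pool.Agent.H46.RU

open Matrix Filter Topology Pool.Agent.H89.CSD Pool.Agent.H46.RG Pool.Agent.H81.GF

variable {d : ℕ}

theorem units_tendsto {U : ℕ → (Matrix (Fin d) (Fin d) ℤ)ˣ} {L : Matrix (Fin d) (Fin d) ℝ}
    (h : Tendsto (fun n => im (U n : Matrix (Fin d) (Fin d) ℤ)) atTop (𝓝 L)) :
    ∃ V : (Matrix (Fin d) (Fin d) ℤ)ˣ, im (V : Matrix (Fin d) (Fin d) ℤ) = L ∧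
      ∀ᶠ n in atTop, U n = V := by
  have h1 : ∀ i j, ∀ᶠ n in atTop, im (U n : Matrix (Fin d) (Fin d) ℤ) i j = L i j := by
    intro i j
    refine eventually_eq_of_int ?_ fun n => ⟨(U n : Matrix (Fin d) (Fin d) ℤ) i j, rfl⟩
    exact (tendsto_pi_nhds.1 (tendsto_pi_nhds.1 h i) j)
  have h2 : ∀ᶠ n in atTop, im (U n : Matrix (Fin d) (Fin d) ℤ) = L := by
    have h3 : ∀ᶠ n in atTop, ∀ i j, im (U n : Matrix (Fin d) (Fin d) ℤ) i j = L i j :=
      eventually_all.2 fun i => eventually_all.2 fun j => h1 i j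
    filter_upwards [h3] with n hn
    ext i j
    exact hn i j
  obtain ⟨N, hN⟩ := eventually_atTop.1 h2
  refine ⟨U N, hN N le_rfl, ?_⟩
  filter_upwards [h2] with n hn
  apply Units.ext
  ext i j
  have h4 := congrFun (congrFun (hn.trans (hN N le_rfl).symm) i) j
  have h5 : (((U n : Matrix (Fin d) (Fin d) ℤ) i j : ℤ) : ℝ) =
      (((U N : Matrix (Fin d) (Fin d) ℤ) i j : ℤ) : ℝ) := h4
  exact_mod_cast h5

theorem aut_closed {z h : ℕ → Matrix (Fin d) (Fin d) ℝ} {z0 h0 : Matrix (Fin d) (Fin d) ℝ}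
    (hz0 : z0.det ≠ 0) (hz : Tendsto z atTop (𝓝 z0)) (hh : Tendsto h atTop (𝓝 h0))
    (ha : ∀ n, h n ∈ Aut (z n)) : h0 ∈ Aut z0 := by
  choose U hU using ha
  have hdet : Tendsto (fun n => (z n).det) atTop (𝓝 z0.det) :=
    (continuous_det'.tendsto z0).comp hz
  have hne : ∀ᶠ n in atTop, (z n).det ≠ 0 := hdet.eventually_ne hz0
  have h1 : Tendsto (fun n => (z n)⁻¹ * (h n * z n)) atTop (𝓝 (z0⁻¹ * (h0 * z0))) :=
    Filter.Tendsto.mul ((continuousAt_inv hz0).tendsto.comp hz) (hh.mul hz)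
  have h2 : Tendsto (fun n => im (U n : Matrix (Fin d) (Fin d) ℤ)) atTop
      (𝓝 (z0⁻¹ * (h0 * z0))) := by
    refine h1.congr' ?_
    filter_upwards [hne] with n hn
    rw [hU n, ← Matrix.mul_assoc, Matrix.nonsing_inv_mul _ (isUnit_iff_ne_zero.2 hn),
      Matrix.one_mul]
  obtain ⟨V, hV, -⟩ := units_tendsto h2
  refine ⟨V, ?_⟩
  rw [hV, ← Matrix.mul_assoc, Matrix.mul_nonsing_inv _ (isUnit_iff_ne_zero.2 hz0),
    Matrix.one_mul]

end Pool.Agent.H46.RU
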