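import Pool.Agent.H46.RU.Aut
import Pool.Agent.H46.RU.Clo
import Pool.Agent.H46.RU.Mxb

/-!
# [H46 RU MXA] The automorphs of a minimal set (40 min)

`aut_all`: `Y' = {y ∈ Y | diagonal a ∈ Aut y}` contains `z`; it is closed (`aut_closed` with the constant sequence `h n = diagonal a`,
`isSeqClosed`/`IsSeqClosed.isClosed`, the space of matrices is first countable: instance in `H89/CSD/Magnify`), invariant under
`GL_d(ℤ)` (`Aut_im`, `exists_unit`) and under `diag(e)`, `e ∈ A1`: `Aut_diag` gives `diag(e) diag(a) diag(e)⁻¹ = diag(a)` in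
`Aut (diag(e) y)`.  So `Y' = Y` by minimality.
`exists_sep`: `max_sep` for `S = DA Y`: `1 ∈ DA Y` (`Aut_one`), products (`Aut_mul`, `diagonal_mul_diagonal`, `∏ a b = 1`), positive.
For `z ∈ Y`, `a ∈ A1`, `diagonal a ∈ Aut z`: `a ∈ DA Y` by `aut_all`.
-/

set_option autoImplicit false

namespace Pool.Agent.H46.RU

open Matrix Filter Topology Pool.Agent.H89.CSD Pool.Agent.H46.RG

variable {d : ℕ}

theorem aut_all {g : Matrix (Fin d) (Fin d) ℝ} (hg : g.det ≠ 0)
    {Y : Set (Matrix (Fin d) (Fin d) ℝ)} (hY : Y ⊆ Om g) (hmin : IsMin (A1 d) Y)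
    {z : Matrix (Fin d) (Fin d) ℝ} (hz : z ∈ Y) {a : Fin d → ℝ} (ha : a ∈ A1 d)
    (haz : diagonal a ∈ Aut z) : a ∈ DA Y := by
  have hinv : IsInv (A1 d) {y : Matrix (Fin d) (Fin d) ℝ | y ∈ Y ∧ diagonal a ∈ Aut y} := by
    refine ⟨⟨z, hz, haz⟩, ?_, ?_, ?_⟩
    · refine IsSeqClosed.isClosed fun x x0 hx hlim => ?_
      have h1 : x0 ∈ Y := hmin.1.closed.mem_of_tendsto hlim
        (Eventually.of_forall fun n => (hx n).1)
      exact ⟨h1, aut_closed (Om_det_ne hg (hY h1)) hlim (tendsto_const_nhds (x := diagonal a))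
        fun n => (hx n).2⟩
    · rintro h ⟨h1, h2⟩ γ hγ
      refine ⟨hmin.1.units h h1 γ hγ, ?_⟩
      obtain ⟨V, hV⟩ := exists_unit hγ
      have h3 := Aut_im h2 V
      rw [hV] at h3
      exact h3
    · rintro e he h ⟨h1, h2⟩
      refine ⟨hmin.1.diag e he h h1, ?_⟩
      have h3 := Aut_diag h2 (a := e) fun i => (he.1 i).ne'
      have h4 : diagonal e * diagonal a * diagonal (fun i => (e i)⁻¹) =
          (diagonal a : Matrix (Fin d) (Fin d) ℝ) := by
        rw [Matrix.diagonal_mul_diagonal, Matrix.diagonal_mul_diagonal]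
        congr 1
        ext i
        have h5 : e i ≠ 0 := (he.1 i).ne'
        field_simp
      rw [h4] at h3
      exact h3
  have heq := hmin.2 _ (fun y hy => hy.1) hinv
  refine ⟨ha, fun y hy => ?_⟩
  rw [← heq] at hy
  exact hy.2

theorem exists_sep {g : Matrix (Fin d) (Fin d) ℝ} (hg : g.det ≠ 0)
    {Y : Set (Matrix (Fin d) (Fin d) ℝ)} (hY : Y ⊆ Om g) (hmin : IsMin (A1 d) Y) :
    ∃ b ∈ DA Y, Sep Y b := by
  obtain ⟨b, hb, hsep⟩ := max_sep (DA Y)
    (by
      refine ⟨⟨fun i => zero_lt_one, by simp⟩, fun z _ => ?_⟩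
      have h1 : diagonal (1 : Fin d → ℝ) = 1 := Matrix.diagonal_one
      rw [h1]
      exact Aut_one z)
    (by
      rintro a ⟨⟨ha1, ha2⟩, ha3⟩ b ⟨⟨hb1, hb2⟩, hb3⟩
      refine ⟨⟨fun i => mul_pos (ha1 i) (hb1 i), ?_⟩, fun z hz => ?_⟩
      · simp only [Pi.mul_apply, Finset.prod_mul_distrib, ha2, hb2, mul_one]
      · have h1 : diagonal (a * b) = diagonal a * diagonal b := by
          rw [Matrix.diagonal_mul_diagonal]
          rfl
        rw [h1]
        exact Aut_mul (ha3 z hz) (hb3 z hz))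
    (by
      rintro a ⟨⟨ha1, -⟩, -⟩ i
      exact ha1 i)
  exact ⟨b, hb, fun z hz a ha haz => hsep a (aut_all hg hY hmin hz ha haz)⟩

end Pool.Agent.H46.RU
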