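import Pool.Agent.H46.RU.Lmg
import Pool.Agent.H46.RU.Mxa

/-!
# [H46 RU SHR] Shears inside a minimal set (30 min)

`shear_in`: `dichotomy`; in the second case `z ∈ Z ⊆ Y`, and all elements `l = log a` of `LG z` have `l i = l j` (`Sep Y b`:
`a i = a j`), so all elements of the span too (`Submodule.span_induction`), in particular `w i = w j`, contradiction.
`block_in`: `Flow I = GFlow w` for `w i = if i ∈ I then (d : ℝ) - |I| else - |I|` (`flow I t i = gflow w t i` by definition,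
`mul_comm` not needed), `∑ w = 0` (as in `flow_prod`), `w q < w p` for `p ∈ I`, `q ∉ I` (`d > 0`); `Up w v` gives `Blk I v`: if `v a b ≠ 0`
then `w b < w a`, so `a ∈ I` and `b ∉ I` (`w` has only two values).
-/

set_option autoImplicit false

namespace Pool.Agent.H46.RU

open Matrix Filter Topology Pool.Agent.H89.CSD Pool.Agent.H46.RG Pool.Agent.H81.GF

variable {d : ℕ}

theorem shear_in {g : Matrix (Fin d) (Fin d) ℝ} (hg : g.det ≠ 0) {c : ℝ} (hc : 0 < c)
    (hp : Pos c g) {Y : Set (Matrix (Fin d) (Fin d) ℝ)} (hY : Y ⊆ Om g) {b : Fin d → ℝ}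
    (hb : Sep Y b) {w : Fin d → ℝ} (hw : ∑ i, w i = 0) {i j : Fin d} (hij : b i = b j)
    (hwij : w j < w i) {Z : Set (Matrix (Fin d) (Fin d) ℝ)} (hZ : Z ⊆ Y)
    (hinv : IsInv (GFlow w) Z) :
    ∃ z ∈ Z, ∃ v : Matrix (Fin d) (Fin d) ℝ, v ≠ 0 ∧ Up w v ∧ (1 + v) * z ∈ Z := by
  rcases dichotomy hg hc hp hw (hZ.trans hY) hinv with h | ⟨z, hz, hwz⟩
  · exact h
  · exfalso
    have key : ∀ x ∈ Submodule.span ℝ (LG z), x i = x j := by
      intro x hx
      induction hx using Submodule.span_induction with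
      | mem x hx =>
        obtain ⟨a, ha, haz, rfl⟩ := hx
        simp only [hb z (hZ hz) a ha haz i j hij]
      | zero => simp
      | add x y _ _ hx hy => simp [hx, hy]
      | smul r x _ hx => simp [hx]
    exact hwij.ne' (key w hwz)

theorem block_in {g : Matrix (Fin d) (Fin d) ℝ} (hg : g.det ≠ 0) {c : ℝ} (hc : 0 < c)
    (hp : Pos c g) {Y : Set (Matrix (Fin d) (Fin d) ℝ)} (hY : Y ⊆ Om g) {b : Fin d → ℝ}
    (hb : Sep Y b) {I : Finset (Fin d)} {p q : Fin d} (hpI : p ∈ I) (hqI : q ∉ I)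
    (hpq : b p = b q) {Z : Set (Matrix (Fin d) (Fin d) ℝ)} (hZ : Z ⊆ Y)
    (hinv : IsInv (Flow I) Z) :
    ∃ z ∈ Z, ∃ v : Matrix (Fin d) (Fin d) ℝ, v ≠ 0 ∧ Blk I v ∧ (1 + v) * z ∈ Z := by
  classical
  obtain ⟨w, hw⟩ : ∃ w : Fin d → ℝ, w = fun i => if i ∈ I then (d : ℝ) - I.card else -(I.card : ℝ) :=
    ⟨_, rfl⟩
  have hd0 : (0 : ℝ) < d := by
    have h1 : 0 < d := lt_of_le_of_lt (Nat.zero_le _) p.isLt
    exact_mod_cast h1
  have hwI : ∀ i ∈ I, w i = (d : ℝ) - I.card := by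
    intro i hi
    simp only [hw, if_pos hi]
  have hwO : ∀ i, i ∉ I → w i = -(I.card : ℝ) := by
    intro i hi
    simp only [hw, if_neg hi]
  have hflow : GFlow w = Pool.Agent.H46.RG.Flow I := by
    have h1 : gflow w = flow I := by
      funext t i
      simp only [gflow, flow, hw]
    rw [GFlow, Pool.Agent.H46.RG.Flow, h1]
  have hsum : ∑ i, w i = 0 := by
    have h1 := flow_prod I 1
    have h2 : ∏ i, flow I 1 i = Real.exp (∑ i, w i) := by
      rw [Real.exp_sum]
      refine Finset.prod_congr rfl fun i _ => ?_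
      simp only [flow, hw, one_mul]
    rw [h2] at h1
    exact (Real.exp_eq_one_iff _).1 h1
  obtain ⟨z, hz, v, hv, hup, hvz⟩ := shear_in hg hc hp hY hb hsum hpq
    (by rw [hwI p hpI, hwO q hqI]; linarith) hZ (by rw [hflow]; exact hinv)
  refine ⟨z, hz, v, hv, ?_, hvz⟩
  intro i j hij
  have h1 := hup i j hij
  by_cases hi : i ∈ I
  · refine ⟨hi, fun hj => ?_⟩
    rw [hwI i hi, hwI j hj] at h1
    exact lt_irrefl _ h1
  · exfalso
    rw [hwO i hi] at h1
    by_cases hj : j ∈ I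
    · rw [hwI j hj] at h1
      linarith
    · rw [hwO j hj] at h1
      exact lt_irrefl _ h1

end Pool.Agent.H46.RU
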