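import Pool.Agent.H46.RU.Defs

/-!
# [H46 RU AUT] Elementary facts about automorphs (35 min)

* `Aut_mul`: `h h' z = h z U' = z U U'` (`im_mul`).  `Aut_inv`: `h z = z U`, `det z ≠ 0`, so `det h ≠ 0` and
  `h⁻¹ z = z U⁻¹` (multiply `h z = z U` by `h⁻¹` on the left and `im U⁻¹` on the right).
* `Aut_im`: `h (z V) = z U V = (z V) (V⁻¹ U V)`.  `Aut_diag`: `(D h D⁻¹) (D z) = D h z = (D z) U`.
* `Aut_det`: `det h · det z = det z · det U`, `|det U| = 1` (`abs_det_im_unit`).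
* `Om_inv`: `Om g` is closed (closure and a closed condition, `continuous_det'`), contains `g` (as `Orb Set.univ g ∋ g`,
  `a = 1`, `γ = 1`), and is invariant: `h ↦ h γ` and `h ↦ diag(a) h` are continuous and map `Orb Set.univ g` to itself;
  `|det|` is unchanged (`∏ a = 1`, `IsUnit γ.det` gives `|det γ| = 1`).
-/

set_option autoImplicit false

namespace Pool.Agent.H46.RU

open Matrix Filter Topology Pool.Agent.H89.CSD Pool.Agent.H46.RG Pool.Agent.H81.GF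

variable {d : ℕ}

theorem Aut_one (z : Matrix (Fin d) (Fin d) ℝ) : (1 : Matrix (Fin d) (Fin d) ℝ) ∈ Aut z :=
  ⟨1, by rw [Units.val_one, im_one, Matrix.one_mul, Matrix.mul_one]⟩

theorem Aut_mul {z h h' : Matrix (Fin d) (Fin d) ℝ} (h1 : h ∈ Aut z) (h2 : h' ∈ Aut z) :
    h * h' ∈ Aut z := by
  obtain ⟨U, hU⟩ := h1
  obtain ⟨V, hV⟩ := h2
  refine ⟨U * V, ?_⟩
  rw [Matrix.mul_assoc, hV, ← Matrix.mul_assoc, hU, Units.val_mul, im_mul, Matrix.mul_assoc]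

theorem im_inv_mul (U : (Matrix (Fin d) (Fin d) ℤ)ˣ) :
    im ((U⁻¹ : (Matrix (Fin d) (Fin d) ℤ)ˣ) : Matrix (Fin d) (Fin d) ℤ) *
      im (U : Matrix (Fin d) (Fin d) ℤ) = 1 := by
  rw [← im_mul, Units.inv_mul, im_one]

theorem im_mul_inv (U : (Matrix (Fin d) (Fin d) ℤ)ˣ) :
    im (U : Matrix (Fin d) (Fin d) ℤ) *
      im ((U⁻¹ : (Matrix (Fin d) (Fin d) ℤ)ˣ) : Matrix (Fin d) (Fin d) ℤ) = 1 := by
  rw [← im_mul, Units.mul_inv, im_one]

theorem Aut_det {z h : Matrix (Fin d) (Fin d) ℝ} (hz : z.det ≠ 0) (h1 : h ∈ Aut z) :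
    |h.det| = 1 := by
  obtain ⟨U, hU⟩ := h1
  have h2 := congrArg (fun M : Matrix (Fin d) (Fin d) ℝ => |M.det|) hU
  simp only [Matrix.det_mul, abs_mul, abs_det_im_unit, mul_one] at h2
  have h3 : |z.det| ≠ 0 := abs_ne_zero.2 hz
  exact mul_right_cancel₀ h3 (by rw [h2, one_mul])

theorem Aut_inv {z h : Matrix (Fin d) (Fin d) ℝ} (hz : z.det ≠ 0) (h1 : h ∈ Aut z) :
    h⁻¹ ∈ Aut z := by
  have hd : h.det ≠ 0 := by
    intro h0
    have h2 := Aut_det hz h1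
    rw [h0, abs_zero] at h2
    exact zero_ne_one h2
  obtain ⟨U, hU⟩ := h1
  refine ⟨U⁻¹, ?_⟩
  have hu : IsUnit h.det := isUnit_iff_ne_zero.2 hd
  have h3 : h⁻¹ * (h * z) = z := by
    rw [← Matrix.mul_assoc, Matrix.nonsing_inv_mul h hu, Matrix.one_mul]
  rw [hU] at h3
  calc h⁻¹ * z = h⁻¹ * (z * (im (U : Matrix (Fin d) (Fin d) ℤ) *
        im ((U⁻¹ : (Matrix (Fin d) (Fin d) ℤ)ˣ) : Matrix (Fin d) (Fin d) ℤ))) := by
        rw [im_mul_inv, Matrix.mul_one]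
    _ = h⁻¹ * (z * im (U : Matrix (Fin d) (Fin d) ℤ)) *
        im ((U⁻¹ : (Matrix (Fin d) (Fin d) ℤ)ˣ) : Matrix (Fin d) (Fin d) ℤ) := by
        simp only [Matrix.mul_assoc]
    _ = z * im ((U⁻¹ : (Matrix (Fin d) (Fin d) ℤ)ˣ) : Matrix (Fin d) (Fin d) ℤ) := by rw [h3]

theorem Aut_im {z h : Matrix (Fin d) (Fin d) ℝ} (h1 : h ∈ Aut z)
    (V : (Matrix (Fin d) (Fin d) ℤ)ˣ) : h ∈ Aut (z * im (V : Matrix (Fin d) (Fin d) ℤ)) := by
  obtain ⟨U, hU⟩ := h1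
  refine ⟨V⁻¹ * U * V, ?_⟩
  rw [Units.val_mul, Units.val_mul, im_mul, im_mul, ← Matrix.mul_assoc, hU]
  calc z * im (U : Matrix (Fin d) (Fin d) ℤ) * im (V : Matrix (Fin d) (Fin d) ℤ)
      = z * (im (V : Matrix (Fin d) (Fin d) ℤ) *
        im ((V⁻¹ : (Matrix (Fin d) (Fin d) ℤ)ˣ) : Matrix (Fin d) (Fin d) ℤ)) *
        im (U : Matrix (Fin d) (Fin d) ℤ) * im (V : Matrix (Fin d) (Fin d) ℤ) := by
        rw [im_mul_inv, Matrix.mul_one]
    _ = z * im (V : Matrix (Fin d) (Fin d) ℤ) *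
        (im ((V⁻¹ : (Matrix (Fin d) (Fin d) ℤ)ˣ) : Matrix (Fin d) (Fin d) ℤ) *
        im (U : Matrix (Fin d) (Fin d) ℤ) * im (V : Matrix (Fin d) (Fin d) ℤ)) := by
        simp only [Matrix.mul_assoc]

theorem Aut_diag {z h : Matrix (Fin d) (Fin d) ℝ} (h1 : h ∈ Aut z) {a : Fin d → ℝ}
    (ha : ∀ i, a i ≠ 0) :
    diagonal a * h * diagonal (fun i => (a i)⁻¹) ∈ Aut (diagonal a * z) := by
  obtain ⟨U, hU⟩ := h1
  refine ⟨U, ?_⟩
  have h2 : diagonal (fun i => (a i)⁻¹) * diagonal a = (1 : Matrix (Fin d) (Fin d) ℝ) := by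
    rw [Matrix.diagonal_mul_diagonal, ← Matrix.diagonal_one]
    congr 1
    ext i
    exact inv_mul_cancel₀ (ha i)
  calc diagonal a * h * diagonal (fun i => (a i)⁻¹) * (diagonal a * z)
      = diagonal a * h * (diagonal (fun i => (a i)⁻¹) * diagonal a) * z := by
        simp only [Matrix.mul_assoc]
    _ = diagonal a * (h * z) := by rw [h2, Matrix.mul_one, Matrix.mul_assoc]
    _ = diagonal a * z * im (U : Matrix (Fin d) (Fin d) ℤ) := by rw [hU, Matrix.mul_assoc]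

theorem Om_inv {g : Matrix (Fin d) (Fin d) ℝ} (hg : g.det ≠ 0) : IsInv (A1 d) (Om g) := by
  have _h := hg
  have hdet : IsClosed {M : Matrix (Fin d) (Fin d) ℝ | |M.det| = |g.det|} :=
    isClosed_eq continuous_det'.abs continuous_const
  refine ⟨?_, ?_, ?_, ?_⟩
  · obtain ⟨h1, h2⟩ := isInv_pos g
    obtain ⟨z, hz⟩ := h1.nonempty
    exact ⟨z, h2 hz⟩
  · have h1 : Om g = closure (Orb Set.univ g) ∩ {M | |M.det| = |g.det|} := rfl
    rw [h1]
    exact isClosed_closure.inter hdet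
  · rintro h ⟨hh, hd⟩ γ hγ
    refine ⟨?_, ?_⟩
    · have hc : Continuous fun M : Matrix (Fin d) (Fin d) ℝ => M * γ.map (Int.cast : ℤ → ℝ) :=
        continuous_id.matrix_mul continuous_const
      refine map_mem_closure (f := fun M : Matrix (Fin d) (Fin d) ℝ =>
        M * γ.map (Int.cast : ℤ → ℝ)) hc hh ?_
      rintro M ⟨a, ha, γ', hγ', rfl⟩
      refine ⟨a, ha, γ' * γ, ?_, ?_⟩
      · rw [Matrix.det_mul]
        exact hγ'.mul hγ
      · have h1 : (γ' * γ).map (Int.cast : ℤ → ℝ) = γ'.map (Int.cast : ℤ → ℝ) *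
            γ.map (Int.cast : ℤ → ℝ) := im_mul γ' γ
        rw [h1]
        exact Matrix.mul_assoc (diagonal a * g) _ _
    · have h1 : γ.map (Int.cast : ℤ → ℝ) = im γ := rfl
      obtain ⟨U, hU⟩ := exists_unit hγ
      rw [h1, Matrix.det_mul, abs_mul, ← hU, abs_det_im_unit, mul_one, hd]
  · rintro b hb h ⟨hh, hd⟩
    refine ⟨?_, ?_⟩
    · have hc : Continuous fun M : Matrix (Fin d) (Fin d) ℝ => diagonal b * M :=
        continuous_const.matrix_mul continuous_id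
      refine map_mem_closure hc hh ?_
      rintro M ⟨a, ha, γ', hγ', rfl⟩
      refine ⟨fun i => b i * a i, Set.mem_univ _, γ', hγ', ?_⟩
      rw [← Matrix.diagonal_mul_diagonal]
      simp only [Matrix.mul_assoc]
    · rw [Matrix.det_mul, Matrix.det_diagonal, hb.2, one_mul, hd]

end Pool.Agent.H46.RU
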