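import Pool.Agent.H46.RU.Shr
import Pool.Agent.H46.RU.Rst
import Pool.Agent.H46.MM.Gro

/-!
# A shear from a set of indices inside a level set of `b`

As `grow` (H46/MM/Gro): `block_in` gives a shear `v` with the rows in `I`, and its columns have the same value of `b` by
`restrict`; `grow_aux` cuts it down to one column or to the columns of one pair in `M`.
-/

set_option autoImplicit false

namespace Pool.Agent.H46.RU

open Matrix Filter Topology Pool.Agent.H89.CSD Pool.Agent.H46.RG Pool.Agent.H46.MM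

variable {d : ℕ}

theorem grow_in {g : Matrix (Fin d) (Fin d) ℝ} (hg : g.det ≠ 0) {c : ℝ} (hc : 0 < c)
    (hp : Pos c g) {Y : Set (Matrix (Fin d) (Fin d) ℝ)} (hY : Y ⊆ Om g) {b : Fin d → ℝ}
    (hbY : b ∈ DA Y) (hbs : Sep Y b) {r : ℝ} {M : Finset (Fin d × Fin d)} (hM : Dis M)
    (hMb : ∀ p ∈ M, b p.1 = b p.2) {I : Finset (Fin d)} (hIb : ∀ i ∈ I, b i = r)
    (hI : I.Nonempty) {l0 : Fin d} (hl0 : l0 ∉ I) (hl0b : b l0 = r) (hIM : Disjoint I (idx M))
    {Z : Set (Matrix (Fin d) (Fin d) ℝ)} (hZ : Z ⊆ Y) (hinv : IsInv (G M I) Z) :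
    (∃ k, b k = r ∧ k ∉ I ∧ k ∉ idx M ∧ ∃ w : Matrix (Fin d) (Fin d) ℝ, w ≠ 0 ∧
      (∀ i j, w i j ≠ 0 → i ∈ I ∧ j = k) ∧ (Zs Z [w]).Nonempty) ∨
    ∃ p ∈ M, b p.1 = r ∧ b p.2 = r ∧ ∃ w : Matrix (Fin d) (Fin d) ℝ, w ≠ 0 ∧
      (∀ i j, w i j ≠ 0 → i ∈ I ∧ (j = p.1 ∨ j = p.2)) ∧ (Zs Z [w]).Nonempty := by
  classical
  obtain ⟨p0, hp0⟩ := hI
  obtain ⟨z, hz, v, hv, hb, hvz⟩ := block_in hg hc hp hY hbs (I := I) (p := p0) (q := l0) hp0 hl0
    (by rw [hIb p0 hp0, hl0b]) hZ (hinv.mono (Flow_subset_G hIM))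
  obtain ⟨p, l, hpl⟩ : ∃ p l, v p l ≠ 0 := by
    by_contra hcon
    push Not at hcon
    apply hv
    ext i j
    rw [hcon i j, Matrix.zero_apply]
  have hl : l ∉ I := (hb p l hpl).2
  have hlr : b l = r := by
    rw [← restrict hg hc hp hY hbY (hZ hz) hb (hZ hvz) hpl]
    exact hIb p (hb p l hpl).1
  have hZO : Z ⊆ Om g := hZ.trans hY
  by_cases hlM : l ∈ idx M
  · right
    obtain ⟨q, hq, hlq⟩ : ∃ q ∈ M, l = q.1 ∨ l = q.2 := by
      rcases Finset.mem_union.mp hlM with h | h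
      · obtain ⟨q, hq, hq1⟩ := Finset.mem_image.mp h
        exact ⟨q, hq, Or.inl hq1.symm⟩
      · obtain ⟨q, hq, hq1⟩ := Finset.mem_image.mp h
        exact ⟨q, hq, Or.inr hq1.symm⟩
    have hq12 : b q.1 = r ∧ b q.2 = r := by
      rcases hlq with h | h
      · exact ⟨by rw [← h, hlr], by rw [← hMb q hq, ← h, hlr]⟩
      · exact ⟨by rw [hMb q hq, ← h, hlr], by rw [← h, hlr]⟩
    obtain ⟨w, hw0, hw, hne⟩ := grow_aux hg hc hp hZO hinv hz hb hvz hpl {q.1, q.2}
      (by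
        rw [Finset.mem_insert, Finset.mem_singleton]
        exact hlq)
      (by
        intro r hr
        have h1 : r.1 ∉ I := fun h => Finset.disjoint_left.mp hIM h (mem_idx_left hr)
        have h2 : r.2 ∉ I := fun h => Finset.disjoint_left.mp hIM h (mem_idx_right hr)
        by_cases hrq : r = q
        · subst hrq
          simp
        · obtain ⟨ha, hb', hc', hd'⟩ := hM.2 r hr q hq hrq
          simp [h1, h2, ha, hb', hc', hd'])
    refine ⟨q, hq, hq12.1, hq12.2, w, hw0, ?_, hne⟩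
    intro i j hij
    obtain ⟨h1, h2⟩ := hw i j hij
    rw [Finset.mem_insert, Finset.mem_singleton] at h2
    exact ⟨h1, h2⟩
  · left
    obtain ⟨w, hw0, hw, hne⟩ := grow_aux hg hc hp hZO hinv hz hb hvz hpl {l}
      (Finset.mem_singleton_self l)
      (by
        intro r hr
        have h1 : r.1 ∉ I := fun h => Finset.disjoint_left.mp hIM h (mem_idx_left hr)
        have h2 : r.2 ∉ I := fun h => Finset.disjoint_left.mp hIM h (mem_idx_right hr)
        have h3 : r.1 ≠ l := fun h => hlM (h ▸ mem_idx_left hr)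
        have h4 : r.2 ≠ l := fun h => hlM (h ▸ mem_idx_right hr)
        simp [h1, h2, h3, h4])
    refine ⟨l, hlr, hl, hlM, w, hw0, ?_, hne⟩
    intro i j hij
    obtain ⟨h1, h2⟩ := hw i j hij
    exact ⟨h1, Finset.mem_singleton.mp h2⟩

end Pool.Agent.H46.RU
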