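import Pool.Agent.H46.MM.Chl
import Pool.Agent.H46.RU.Grw

/-!
# Chains inside a level set of `b`

As `chain_ind` (H46/MM/Chn), with `grow_in`.  The set `J` contains `I`, the indices of the pairs in `P` and all indices
outside the level set `b = r`; an index of the level set is in `J` only if it is in `I` or in a pair of `P`.
-/

set_option autoImplicit false

namespace Pool.Agent.H46.RU

open Matrix Filter Topology Pool.Agent.H89.CSD Pool.Agent.H46.RG Pool.Agent.H46.MM

variable {d : ℕ}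

private theorem cn_rows {J : Finset (Fin d)} {P : Finset (Fin d × Fin d)} {X : Fin d → Prop}
    {u : Matrix (Fin d) (Fin d) ℝ} {ws : List (Matrix (Fin d) (Fin d) ℝ)}
    (h : Chn J P X (u :: ws)) : u ≠ 0 ∧ ∀ i j, u i j ≠ 0 → X i := by
  cases ws with
  | nil =>
    rw [Chn] at h
    obtain ⟨h0, c, _, h1⟩ := h
    exact ⟨h0, fun i j hij => (h1 i j hij).1⟩
  | cons w ws =>
    rw [Chn] at h
    obtain ⟨h0, _, p, _, h1, _⟩ := h
    exact ⟨h0, fun i j hij => (h1 i j hij).1⟩

private theorem cn_part {α : Fin d → ℝ} {w : Matrix (Fin d) (Fin d) ℝ}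
    (h : ∀ i j, w i j ≠ 0 → α i = α j) : part α w = w := by
  ext i j
  unfold part
  rw [Matrix.of_apply]
  by_cases hij : w i j = 0
  · rw [hij, ite_self]
  · rw [if_pos (h i j hij)]

private theorem cn_mul {v w : Matrix (Fin d) (Fin d) ℝ} {S : Fin d → Prop}
    (hv : ∀ i j, v i j ≠ 0 → S j) (hw : ∀ i j, w i j ≠ 0 → ¬ S i) : v * w = 0 := by
  ext i k
  rw [Matrix.mul_apply, Matrix.zero_apply]
  refine Finset.sum_eq_zero fun j _ => ?_
  by_cases h1 : v i j = 0
  · rw [h1, zero_mul]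
  · by_cases h2 : w j k = 0
    · rw [h2, mul_zero]
    · exact absurd (hv i j h1) (hw j k h2)

private theorem cn_mul_ne {v w : Matrix (Fin d) (Fin d) ℝ} {i k : Fin d} (h : (v * w) i k ≠ 0) :
    ∃ j, v i j ≠ 0 ∧ w j k ≠ 0 := by
  by_contra hc
  push Not at hc
  apply h
  rw [Matrix.mul_apply]
  refine Finset.sum_eq_zero fun j _ => ?_
  by_cases h1 : v i j = 0
  · rw [h1, zero_mul]
  · rw [hc j h1, mul_zero]

theorem chain_ind {g : Matrix (Fin d) (Fin d) ℝ} (hg : g.det ≠ 0) {c : ℝ}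
    (hc : 0 < c) (hp : Pos c g) {Y : Set (Matrix (Fin d) (Fin d) ℝ)} (hY : Y ⊆ Om g)
    {b : Fin d → ℝ} (hbY : b ∈ DA Y) (hbs : Sep Y b) {r : ℝ} {J : Finset (Fin d)} {c0 : Fin d}
    (hc0 : c0 ∉ J) (hc0b : b c0 = r) (n : ℕ) :
    ∀ (P : Finset (Fin d × Fin d)) (I : Finset (Fin d)), P.card = n → Dis P →
      (∀ p ∈ P, b p.1 = b p.2) → I ⊆ J → idx P ⊆ J →
      (∀ i ∈ J, b i = r → i ∈ I ∨ i ∈ idx P) → (∀ i, i ∉ J → b i = r) →
      Disjoint I (idx P) → I.Nonempty → (∀ i ∈ I, b i = r) →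
      ∀ Z : Set (Matrix (Fin d) (Fin d) ℝ), Z ⊆ Y →
      IsInv (G P I) Z → ∃ ws, Chn J P (fun i => i ∈ I) ws ∧ (Zs Z ws).Nonempty := by
  classical
  induction n using Nat.strong_induction_on with
  | _ n ih =>
  intro P I hPn hD hPb hIsub hPsub hIJ hJb hdis hIne hIb Z hZ hinv
  have hc0I : c0 ∉ I := fun h => hc0 (hIsub h)
  have hZO : Z ⊆ Om g := hZ.trans hY
  rcases grow_in hg hc hp hY hbY hbs hD hPb hIb hIne hc0I hc0b hdis hZ hinv with
    ⟨k, hkb, hkI, hkP, w, hw0, hw, hne⟩ | ⟨p, hpP, hp1b, hp2b, v, hv0, hv, hne⟩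
  · refine ⟨[w], ?_, hne⟩
    rw [Chn]
    refine ⟨hw0, k, ?_, hw⟩
    intro hkJ
    rcases hIJ k hkJ hkb with h | h
    · exact hkI h
    · exact hkP h
  -- the pair `p`
  have hp12 : p.1 ≠ p.2 := hD.1 p hpP
  have hp1 : p.1 ∈ idx P := mem_idx.2 ⟨p, hpP, Or.inl rfl⟩
  have hp2 : p.2 ∈ idx P := mem_idx.2 ⟨p, hpP, Or.inr rfl⟩
  have hp1I : p.1 ∉ I := fun h => (Finset.disjoint_left.1 hdis) h hp1
  have hp2I : p.2 ∉ I := fun h => (Finset.disjoint_left.1 hdis) h hp2
  obtain ⟨I', hI'⟩ : ∃ I', I' = insert p.1 (insert p.2 I) := ⟨_, rfl⟩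
  obtain ⟨P', hP'⟩ : ∃ P', P' = P.erase p := ⟨_, rfl⟩
  have hmI : ∀ i, i ∈ I' ↔ i = p.1 ∨ i = p.2 ∨ i ∈ I := by
    intro i
    rw [hI', Finset.mem_insert, Finset.mem_insert]
  have hmP : ∀ q, q ∈ P' ↔ q ≠ p ∧ q ∈ P := by
    intro q
    rw [hP', Finset.mem_erase]
  have hP'sub : P' ⊆ P := by rw [hP']; exact Finset.erase_subset _ _
  have hD' : Dis P' :=
    ⟨fun q hq => hD.1 q (hP'sub hq), fun q hq r hr hqr => hD.2 q (hP'sub hq) r (hP'sub hr) hqr⟩
  have hdis' : Disjoint I' (idx P') := by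
    rw [Finset.disjoint_left]
    intro i hi hi2
    obtain ⟨q, hq, hq2⟩ := mem_idx.1 hi2
    obtain ⟨hqp, hqP⟩ := (hmP q).1 hq
    obtain ⟨k1, k2, k3, k4⟩ := hD.2 q hqP p hpP hqp
    rcases (hmI i).1 hi with h1 | h1 | h1
    · rcases hq2 with h2 | h2
      · exact k1 (h2 ▸ h1)
      · exact k3 (h2 ▸ h1)
    · rcases hq2 with h2 | h2
      · exact k2 (h2 ▸ h1)
      · exact k4 (h2 ▸ h1)
    · exact (Finset.disjoint_left.1 hdis) h1 (mem_idx.2 ⟨q, hqP, hq2⟩)
  have hI'J : I' ⊆ J := by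
    intro i hi
    rcases (hmI i).1 hi with h | h | h
    · rw [h]; exact hPsub hp1
    · rw [h]; exact hPsub hp2
    · exact hIsub h
  have hP'J : idx P' ⊆ J := by
    intro i hi
    obtain ⟨q, hq, h⟩ := mem_idx.1 hi
    exact hPsub (mem_idx.2 ⟨q, hP'sub hq, h⟩)
  have hIJ' : ∀ i ∈ J, b i = r → i ∈ I' ∨ i ∈ idx P' := by
    intro i hiJ hib
    rcases hIJ i hiJ hib with h | h
    · exact Or.inl ((hmI i).2 (Or.inr (Or.inr h)))
    · obtain ⟨q, hq, h⟩ := mem_idx.1 h
      by_cases hqp : q = p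
      · subst hqp
        rcases h with h | h
        · exact Or.inl ((hmI i).2 (Or.inl h))
        · exact Or.inl ((hmI i).2 (Or.inr (Or.inl h)))
      · exact Or.inr (mem_idx.2 ⟨q, (hmP q).2 ⟨hqp, hq⟩, h⟩)
  have hI'b : ∀ i ∈ I', b i = r := by
    intro i hi
    rcases (hmI i).1 hi with h | h | h
    · rw [h, hp1b]
    · rw [h, hp2b]
    · exact hIb i h
  have hI'ne : I'.Nonempty := ⟨p.1, (hmI p.1).2 (Or.inl rfl)⟩
  have hGsub : G P' I' ⊆ G P I := by
    rintro a ⟨ha, ha1, ha2⟩
    refine ⟨ha, fun q hq => ?_, fun i hi j hj => ha2 i ((hmI i).2 (Or.inr (Or.inr hi))) j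
      ((hmI j).2 (Or.inr (Or.inr hj)))⟩
    by_cases hqp : q = p
    · rw [hqp]
      exact ha2 _ ((hmI _).2 (Or.inl rfl)) _ ((hmI _).2 (Or.inr (Or.inl rfl)))
    · exact ha1 q ((hmP q).2 ⟨hqp, hq⟩)
  have hinv' : IsInv (G P' I') (Zs Z [v]) := by
    refine Zs_inv hinv hGsub ?_ hne
    intro w hw i j hij a ha
    rw [List.mem_singleton] at hw
    subst hw
    obtain ⟨h1, h2⟩ := hv i j hij
    refine ha.2.2 i ((hmI i).2 (Or.inr (Or.inr h1))) j ((hmI j).2 ?_)
    rcases h2 with h2 | h2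
    · exact Or.inl h2
    · exact Or.inr (Or.inl h2)
  obtain ⟨ws', hch, hne'⟩ := ih P'.card (by
    rw [hP', Finset.card_erase_of_mem hpP, hPn]
    have : 0 < P.card := Finset.card_pos.2 ⟨p, hpP⟩
    omega) P' I' rfl hD' (fun q hq => hPb q (hP'sub hq)) hI'J hP'J hIJ' hJb hdis' hI'ne hI'b
      (Zs Z [v]) (Zs_subset.trans hZ) hinv'
  cases ws' with
  | nil => rw [Chn] at hch; exact hch.elim
  | cons u ws =>
  rw [Zs_cons] at hne'
  obtain ⟨hu0, hurow⟩ := cn_rows hch
  have hcol : ∀ w ∈ u :: ws, ∀ i j, w i j ≠ 0 → j ∉ I' := by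
    intro w hw i j hij hj
    rcases Chn_cols hch hw hij with h | h
    · exact (Finset.disjoint_left.1 hdis') hj h
    · exact h (hI'J hj)
  have hrow : ∀ w ∈ ws, ∀ i j, w i j ≠ 0 → i ∉ I' := by
    intro w hw i j hij hi
    exact (Finset.disjoint_left.1 hdis') hi (Chn_rows hch hw hij)
  have hucol : ∀ i j, u i j ≠ 0 → j ∉ I' := hcol u List.mem_cons_self
  obtain ⟨α, hα⟩ : ∃ α : Fin d → ℝ, α = fun i => if i = p.1 ∨ i = p.2 then (-1 : ℝ) else 0 :=
    ⟨_, rfl⟩
  have hα1 : ∀ i, (i = p.1 ∨ i = p.2) → α i = -1 := by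
    intro i hi; rw [hα]; exact if_pos hi
  have hα0 : ∀ i, ¬ (i = p.1 ∨ i = p.2) → α i = 0 := by
    intro i hi; rw [hα]; exact if_neg hi
  have hαI : ∀ i ∈ I, α i = 0 := by
    intro i hi
    apply hα0
    rintro (h | h)
    · exact hp1I (h ▸ hi)
    · exact hp2I (h ▸ hi)
  have hαI' : ∀ i, i ∉ I' → α i = 0 := by
    intro i hi
    apply hα0
    rintro (h | h)
    · exact hi ((hmI i).2 (Or.inl h))
    · exact hi ((hmI i).2 (Or.inr (Or.inl h)))
  have hαle : ∀ i, α i ≤ 0 := by
    intro i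
    by_cases h : i = p.1 ∨ i = p.2
    · rw [hα1 i h]; norm_num
    · rw [hα0 i h]
  have hS : ∀ n : ℕ, (fun i => Real.exp (n * (α i - (∑ k, α k) / d))) ∈ G P I := by
    intro n
    apply exp_mem_G
    · intro q hq
      by_cases hqp : q = p
      · rw [hqp, hα1 _ (Or.inl rfl), hα1 _ (Or.inr rfl)]
      · obtain ⟨k1, k2, k3, k4⟩ := hD.2 q hq p hpP hqp
        rw [hα0 q.1 (by rintro (h | h); exacts [k1 h, k2 h]),
          hα0 q.2 (by rintro (h | h); exacts [k3 h, k4 h])]
    · intro i hi j hj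
      rw [hαI i hi, hαI j hj]
  have hws : ws.map (part α) = ws := by
    conv_rhs => rw [← List.map_id ws]
    refine List.map_congr_left fun w hw => ?_
    rw [id]
    refine cn_part fun i j hij => ?_
    rw [hαI' i (hrow w hw i j hij), hαI' j (hcol w (List.mem_cons_of_mem _ hw) i j hij)]
  by_cases hA : ∃ i ∈ I, ∃ j, u i j ≠ 0
  · -- case A
    obtain ⟨i0, hi0, j0, hij0⟩ := hA
    have h1 : (Zs Z (u :: ws)).Nonempty :=
      hne'.mono (Zs_drop (List.sublist_cons_self _ _))
    have h2 := degen hg hc hp hZO hinv α hS (u :: ws) (by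
      intro w hw i j hij
      rw [hαI' j (hcol w hw i j hij)]
      exact hαle i) h1
    rw [List.map_cons, hws] at h2
    refine ⟨part α u :: ws, Chn_mono hP'sub (fun i hi => hi) (Chn_head hch ?_ ?_ ?_), h2⟩
    · intro h0
      have h3 := congrFun (congrFun h0 i0) j0
      unfold part at h3
      rw [Matrix.of_apply, if_pos (by rw [hαI i0 hi0, hαI' j0 (hucol i0 j0 hij0)]),
        Matrix.zero_apply] at h3
      exact hij0 h3
    · intro i j hij
      unfold part at hij
      rw [Matrix.of_apply] at hij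
      by_cases h3 : α i = α j
      · rw [if_pos h3] at hij
        refine ⟨?_, i, hij⟩
        rw [hαI' j (hucol i j hij)] at h3
        have h4 : ¬ (i = p.1 ∨ i = p.2) := by
          intro h5
          rw [hα1 i h5] at h3
          norm_num at h3
        rcases (hmI i).1 (hurow i j hij) with h5 | h5 | h5
        · exact absurd (Or.inl h5) h4
        · exact absurd (Or.inr h5) h4
        · exact h5
      · rw [if_neg h3] at hij
        exact absurd rfl hij
    · intro w hw
      ext i k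
      rw [Matrix.mul_apply, Matrix.zero_apply]
      by_cases h3 : i = p.1 ∨ i = p.2
      · refine Finset.sum_eq_zero fun j _ => ?_
        unfold part
        rw [Matrix.of_apply]
        by_cases h4 : u i j = 0
        · rw [h4, ite_self, zero_mul]
        · rw [if_neg, zero_mul]
          rw [hα1 i h3, hαI' j (hucol i j h4)]
          norm_num
      · have h5 := congrFun (congrFun hw i) k
        rw [Matrix.mul_apply, Matrix.zero_apply] at h5
        rw [← h5]
        refine Finset.sum_congr rfl fun j _ => ?_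
        unfold part
        rw [Matrix.of_apply]
        by_cases h4 : u i j = 0
        · rw [h4, ite_self]
        · rw [if_pos]
          rw [hα0 i h3, hαI' j (hucol i j h4)]
  push Not at hA
  have hup : ∀ i j, u i j ≠ 0 → i = p.1 ∨ i = p.2 := by
    intro i j hij
    rcases (hmI i).1 (hurow i j hij) with h5 | h5 | h5
    · exact Or.inl h5
    · exact Or.inr h5
    · exact absurd (hA i h5 j) hij
  by_cases hvu : v * u = 0
  · -- case B
    refine ⟨v :: u :: ws, ?_, hne'⟩
    rw [Chn]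
    refine ⟨hv0, hvu, p, hpP, hv, ?_⟩
    rw [← hP']
    exact Chn_head hch hu0 (fun i j hij => ⟨hup i j hij, i, hij⟩) (fun w hw => hw)
  · -- case C
    have hwv : ∀ w ∈ u :: ws, w * v = 0 := by
      intro w hw
      refine cn_mul (S := fun j => j ∉ I') (fun i j hij => hcol w hw i j hij)
        (fun i j hij h => h ((hmI i).2 (Or.inr (Or.inr (hv i j hij).1))))
    have h1 := base_change hwv hne'
    have h2 : ws.map (fun w => w + v * w) = ws := by
      conv_rhs => rw [← List.map_id ws]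
      refine List.map_congr_left fun w hw => ?_
      have h3 : v * w = 0 := by
        refine cn_mul (S := fun j => j ∈ I') (fun i j hij => ?_) (hrow w hw)
        rcases (hv i j hij).2 with h4 | h4
        · exact (hmI j).2 (Or.inl h4)
        · exact (hmI j).2 (Or.inr (Or.inl h4))
      rw [h3, add_zero, id]
    rw [List.map_cons, h2] at h1
    have hcolu : ∀ i j, (u + v * u) i j ≠ 0 → j ∉ I' := by
      intro i j hij
      rw [Matrix.add_apply] at hij
      by_cases h3 : u i j = 0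
      · rw [h3, zero_add] at hij
        obtain ⟨k, _, hk⟩ := cn_mul_ne hij
        exact hucol k j hk
      · exact hucol i j h3
    have h3 := degen hg hc hp hZO hinv α hS ((u + v * u) :: ws) (by
      intro w hw i j hij
      have h4 : j ∉ I' := by
        rcases List.mem_cons.1 hw with h5 | h5
        · rw [h5] at hij
          exact hcolu i j hij
        · exact hcol w (List.mem_cons_of_mem _ h5) i j hij
      rw [hαI' j h4]
      exact hαle i) h1
    have h4 : part α (u + v * u) = v * u := by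
      ext i j
      unfold part
      rw [Matrix.of_apply, Matrix.add_apply]
      have hj : j ∈ I' → (v * u) i j = 0 := by
        intro hj
        by_contra h5
        obtain ⟨k, _, hk⟩ := cn_mul_ne h5
        exact hucol k j hk hj
      by_cases h5 : i = p.1 ∨ i = p.2
      · have h6 : (v * u) i j = 0 := by
          by_contra h7
          obtain ⟨k, hk, _⟩ := cn_mul_ne h7
          have h8 := (hv i k hk).1
          rcases h5 with h5 | h5
          · exact hp1I (h5 ▸ h8)
          · exact hp2I (h5 ▸ h8)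
        rw [h6, add_zero]
        by_cases h7 : u i j = 0
        · rw [h7, ite_self]
        · rw [if_neg]
          rw [hα1 i h5, hαI' j (hucol i j h7)]
          norm_num
      · have h6 : u i j = 0 := by
          by_contra h7
          exact h5 (hup i j h7)
        rw [h6, zero_add]
        by_cases h7 : (v * u) i j = 0
        · rw [h7, ite_self]
        · rw [if_pos]
          rw [hα0 i h5, hαI' j (fun h8 => h7 (hj h8))]
    rw [List.map_cons, hws, h4] at h3
    refine ⟨(v * u) :: ws, Chn_mono hP'sub (fun i hi => hi) (Chn_head hch hvu ?_ ?_), h3⟩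
    · intro i j hij
      obtain ⟨k, hk1, hk2⟩ := cn_mul_ne hij
      exact ⟨(hv i k hk1).1, k, hk2⟩
    · intro w hw
      rw [Matrix.mul_assoc, hw, Matrix.mul_zero]

end Pool.Agent.H46.RU
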