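import Pool.Agent.H46.RU.Zcr

/-!
# [H46 RU VSP] The space of the one-parameter groups which preserve `M` (40 min)

`VV_diag`: `zcr` for some `z ∈ M` (`Om_det_ne`, `Om_pos`: `0 < c ≤ |P (exp (s X) z) (ic x)|`, because `exp (s X) z ∈ M ⊆ Om g`).
`VV_add`: `X, Y` are diagonal, so they commute, `exp (s (X + Y)) = exp (s X) exp (s Y)` (`Matrix.exp_add_of_commute`).
`VV_smul`: `s • (c • X) = (s c) • X`.  `VV_closed`: `X ↦ exp (s X) z` is continuous (`NormedSpace.exp_continuous`, with the
norm `open scoped Matrix.Norms.Operator`; or the continuity statement for matrices), `M` closed; intersection of the closed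
sets over `s` and `z ∈ M`.
-/

set_option autoImplicit false

namespace Pool.Agent.H46.RU

open Matrix Filter Topology Pool.Agent.H89.CSD Pool.Agent.H46.RG

variable {d : ℕ}

set_option backward.isDefEq.respectTransparency false in
open scoped Matrix.Norms.Operator in
private lemma vsp_cont : Continuous (NormedSpace.exp : Matrix (Fin d) (Fin d) ℝ → Matrix (Fin d) (Fin d) ℝ) :=
  NormedSpace.exp_continuous

theorem VV_diag {g : Matrix (Fin d) (Fin d) ℝ} (hg : g.det ≠ 0) {c : ℝ} (hc : 0 < c)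
    (hp : Pos c g) {M : Set (Matrix (Fin d) (Fin d) ℝ)} (hM : M ⊆ Om g) (hne : M.Nonempty)
    {X : Matrix (Fin d) (Fin d) ℝ} (hX : X ∈ VV M) {i j : Fin d} (hij : i ≠ j) : X i j = 0 := by
  obtain ⟨z, hz⟩ := hne
  refine zcr (z := z) (Om_det_ne hg (hM hz)) (fun s _ x hx h0 => ?_) hij
  have h1 := Om_pos hg hc hp (hM (hX s z hz)) x hx
  rw [h0, abs_zero] at h1
  linarith

theorem VV_zero (M : Set (Matrix (Fin d) (Fin d) ℝ)) : (0 : Matrix (Fin d) (Fin d) ℝ) ∈ VV M := by
  intro s z hz
  rw [smul_zero, NormedSpace.exp_zero, Matrix.one_mul]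
  exact hz

theorem VV_add {g : Matrix (Fin d) (Fin d) ℝ} (hg : g.det ≠ 0) {c : ℝ} (hc : 0 < c)
    (hp : Pos c g) {M : Set (Matrix (Fin d) (Fin d) ℝ)} (hM : M ⊆ Om g) (hne : M.Nonempty)
    {X Y : Matrix (Fin d) (Fin d) ℝ} (hX : X ∈ VV M) (hY : Y ∈ VV M) : X + Y ∈ VV M := by
  have hXd : X = diagonal (fun i => X i i) := by
    ext i j
    by_cases h : i = j
    · subst h
      rw [diagonal_apply_eq]
    · rw [diagonal_apply_ne _ h]
      exact VV_diag hg hc hp hM hne hX h
  have hYd : Y = diagonal (fun i => Y i i) := by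
    ext i j
    by_cases h : i = j
    · subst h
      rw [diagonal_apply_eq]
    · rw [diagonal_apply_ne _ h]
      exact VV_diag hg hc hp hM hne hY h
  have hcom : Commute X Y := by
    rw [hXd, hYd]
    unfold Commute SemiconjBy
    rw [diagonal_mul_diagonal, diagonal_mul_diagonal]
    congr 1
    ext i
    ring
  intro s z hz
  have h1 : Commute (s • X) (s • Y) := (hcom.smul_left s).smul_right s
  rw [smul_add, Matrix.exp_add_of_commute _ _ h1, Matrix.mul_assoc]
  exact hX s _ (hY s z hz)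

theorem VV_smul {M : Set (Matrix (Fin d) (Fin d) ℝ)} {X : Matrix (Fin d) (Fin d) ℝ}
    (hX : X ∈ VV M) (r : ℝ) : r • X ∈ VV M := by
  intro s z hz
  rw [smul_smul]
  exact hX (s * r) z hz

theorem VV_closed {M : Set (Matrix (Fin d) (Fin d) ℝ)} (hcl : IsClosed M) : IsClosed (VV M) := by
  have h1 : VV M = ⋂ s : ℝ, ⋂ z ∈ M, {X | NormedSpace.exp (s • X) * z ∈ M} := by
    ext X
    simp only [Set.mem_iInter]
    rfl
  rw [h1]
  refine isClosed_iInter fun s => isClosed_iInter fun z => isClosed_iInter fun _ => ?_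
  have hc : Continuous fun X : Matrix (Fin d) (Fin d) ℝ => NormedSpace.exp (s • X) * z :=
    (vsp_cont.comp (continuous_const_smul s)).matrix_mul continuous_const
  exact hcl.preimage hc

end Pool.Agent.H46.RU
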