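import Pool.Agent.H46.RU.Opl
import Pool.Agent.H46.RU.Vsp

/-!
# [H46 RU CST] Small matrices which preserve `M` are diagonal (90 min)

By contradiction: for infinitely many `n` the matrix `R n` is not diagonal; pass to a subsequence
(`Filter.extraction_of_frequently_atTop`): all `R n` are not diagonal (`∃ i j, i ≠ j ∧ R n i j ≠ 0`).

(1) `K = VV M ∩ {Y | mx Y ≤ 1}` is compact (`VV_closed`, bounded entries) and contains `0`.  Let `Y n ∈ K` minimise
`f_n (Y) = mx (R n * exp (-Y) - 1)` on `K` (`IsCompact.exists_isMinOn`; `exp` is continuous).  `f_n (Y n) ≤ f_n (0) = mx (R n - 1) → 0`,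
so `Q n := R n * exp (-Y n) → 1`, and `exp (-Y n) = (R n)⁻¹ Q n → 1` (`continuousAt_inv`); `Y n` is diagonal (`VV_diag`), so
`exp (-Y n)` is the diagonal matrix of the `exp (-(Y n) i i)` (`Matrix.exp_diagonal`) and `Y n → 0`.  So `mx (Y n) < 1 / 2` for large `n`;
drop the other `n`.
(2) `Q n ≠ 1`, otherwise `R n = exp (Y n)` would be diagonal.  `Q n z ∈ M` and `(Q n)⁻¹ z ∈ M` for `z ∈ M` (`h1`, `h2`, `Y n ∈ VV M` with
`s = -1` and `s = 1`; `(Q n)⁻¹ = exp (Y n) (R n)⁻¹`), so `Q n ^ k z ∈ M` and `(Q n ^ k)⁻¹ z ∈ M` for all `k : ℕ`.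
(3) `opl` for `Q`: `φ, X`, `mx X = 1`.  For `s ≥ 0` `exp (s X) z = lim Q (φ n) ^ (k n) z ∈ M` (`M` closed), and
`exp (-s X) z = (exp (s X))⁻¹ z = lim (Q (φ n) ^ (k n))⁻¹ z ∈ M` (`Matrix.exp_neg`, `continuousAt_inv`, `exp (s X)` is invertible).  So
`X ∈ VV M`, in particular `X` is diagonal.
(4) Let `r n = mx (Q (φ n) - 1) → 0+`.  `Y (φ n) + r n • X ∈ K` for large `n` (`VV_add`, `VV_smul`, `mx ≤ 1 / 2 + r n`), so
`r n = f (Y (φ n)) ≤ f (Y (φ n) + r n • X) = mx (Q (φ n) * exp (- r n • X) - 1)` (`Y (φ n)` and `X` are diagonal and commute).  But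
`(r n)⁻¹ • (Q (φ n) * exp (- r n • X) - 1) = ((r n)⁻¹ • (Q (φ n) - 1)) * exp (- r n • X) + (r n)⁻¹ • (exp (- r n • X) - 1) → X - X = 0`
(`X` is diagonal: `(exp (- r x) - 1) / r → - x` entrywise), so `mx` of it tends to `0` and is `≥ 1`: contradiction.
-/

set_option autoImplicit false

namespace Pool.Agent.H46.RU

open Matrix Filter Topology Pool.Agent.H89.CSD Pool.Agent.H46.RG

variable {d : ℕ}

private theorem cst_expc : Continuous (fun X : Matrix (Fin d) (Fin d) ℝ => NormedSpace.exp X) := by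
  open scoped Matrix.Norms.Operator in
  exact NormedSpace.exp_continuous

private theorem cst_cont (A : Matrix (Fin d) (Fin d) ℝ) :
    Continuous (fun Y : Matrix (Fin d) (Fin d) ℝ => mx (A * NormedSpace.exp (-Y) - 1)) := by
  have h1 : Continuous (fun Y : Matrix (Fin d) (Fin d) ℝ => NormedSpace.exp (-Y)) :=
    cst_expc.comp continuous_neg
  have h2 : Continuous (fun Y : Matrix (Fin d) (Fin d) ℝ => A * NormedSpace.exp (-Y)) :=
    continuous_const.mul h1
  have h3 : Continuous (fun Y : Matrix (Fin d) (Fin d) ℝ => A * NormedSpace.exp (-Y) - 1) :=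
    h2.sub continuous_const
  exact mx_continuous.comp h3

private theorem cst_diag {X : Matrix (Fin d) (Fin d) ℝ} (hX : ∀ i j, i ≠ j → X i j = 0) :
    NormedSpace.exp X = diagonal (fun i => Real.exp (X i i)) := by
  have h1 : X = diagonal (fun i => X i i) := by
    ext i j
    by_cases hij : i = j
    · rw [hij, diagonal_apply_eq]
    · rw [diagonal_apply_ne _ hij, hX i j hij]
  conv_lhs => rw [h1]
  rw [Matrix.exp_diagonal]
  congr 1
  funext i
  rw [Pi.coe_exp, Real.exp_eq_exp_ℝ]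

private theorem cst_inv {ι : Type} {l : Filter ι} {A : ι → Matrix (Fin d) (Fin d) ℝ}
    {E : Matrix (Fin d) (Fin d) ℝ} (h : Tendsto A l (𝓝 E)) (hE : E.det ≠ 0) :
    Tendsto (fun n => (A n)⁻¹) l (𝓝 E⁻¹) := by
  have h1 : Tendsto (fun n => (A n).det) l (𝓝 E.det) :=
    (Continuous.matrix_det continuous_id).continuousAt.tendsto.comp h
  have h2 : Tendsto (fun n => (A n).adjugate) l (𝓝 E.adjugate) :=
    (Continuous.matrix_adjugate continuous_id).continuousAt.tendsto.comp h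
  simp only [Matrix.inv_def, Ring.inverse_eq_inv']
  exact (h1.inv₀ hE).smul h2

private theorem cst_ent {A : Matrix (Fin d) (Fin d) ℝ} (i j : Fin d) : |A i j| ≤ mx A := by
  unfold mx
  have h1 : |A i j| ≤ ∑ j, |A i j| :=
    Finset.single_le_sum (f := fun j => |A i j|) (fun _ _ => abs_nonneg _) (Finset.mem_univ j)
  exact h1.trans (Finset.single_le_sum (f := fun i => ∑ j, |A i j|)
    (fun _ _ => Finset.sum_nonneg fun _ _ => abs_nonneg _) (Finset.mem_univ i))

private theorem cst_to {ι : Type} {l : Filter ι} {A : ι → Matrix (Fin d) (Fin d) ℝ}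
    {E : Matrix (Fin d) (Fin d) ℝ} (h : Tendsto (fun n => mx (A n - E)) l (𝓝 0)) :
    Tendsto A l (𝓝 E) := by
  refine tendsto_pi_nhds.2 fun i => tendsto_pi_nhds.2 fun j => ?_
  rw [tendsto_iff_dist_tendsto_zero]
  refine squeeze_zero (fun n => dist_nonneg) (fun n => ?_) h
  rw [Real.dist_eq]
  exact cst_ent (A := A n - E) i j

private theorem cst_mulc {ι : Type} {l : Filter ι} {A : ι → Matrix (Fin d) (Fin d) ℝ}
    {E : Matrix (Fin d) (Fin d) ℝ} (h : Tendsto A l (𝓝 E)) (z : Matrix (Fin d) (Fin d) ℝ) :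
    Tendsto (fun n => A n * z) l (𝓝 (E * z)) := by
  have h1 : Continuous (fun Y : Matrix (Fin d) (Fin d) ℝ => Y * z) :=
    continuous_id.mul continuous_const
  exact (h1.tendsto E).comp h

private theorem cst_mem {M : Set (Matrix (Fin d) (Fin d) ℝ)} (hcl : IsClosed M)
    {A : ℕ → Matrix (Fin d) (Fin d) ℝ} {E : Matrix (Fin d) (Fin d) ℝ}
    (h : Tendsto A atTop (𝓝 E)) (z : Matrix (Fin d) (Fin d) ℝ) (hz : ∀ n, A n * z ∈ M) :
    E * z ∈ M :=
  hcl.mem_of_tendsto (cst_mulc h z) (Eventually.of_forall hz)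

private theorem cst_mulm {ι : Type} {l : Filter ι} {A B : ι → Matrix (Fin d) (Fin d) ℝ}
    {E F : Matrix (Fin d) (Fin d) ℝ} (h : Tendsto A l (𝓝 E)) (h' : Tendsto B l (𝓝 F)) :
    Tendsto (fun n => A n * B n) l (𝓝 (E * F)) := by
  have h1 : Continuous (fun Y : Matrix (Fin d) (Fin d) ℝ × Matrix (Fin d) (Fin d) ℝ => Y.1 * Y.2) :=
    continuous_fst.mul continuous_snd
  exact (h1.tendsto (E, F)).comp (h.prodMk_nhds h')

private theorem cst_det (Y : Matrix (Fin d) (Fin d) ℝ) : (NormedSpace.exp Y).det ≠ 0 := by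
  have h : IsUnit (NormedSpace.exp Y) := Matrix.isUnit_exp Y
  exact ((Matrix.isUnit_iff_isUnit_det _).1 h).ne_zero

private theorem cst_main {g : Matrix (Fin d) (Fin d) ℝ} (hg : g.det ≠ 0) {c : ℝ} (hc : 0 < c)
    (hp : Pos c g) {M : Set (Matrix (Fin d) (Fin d) ℝ)} (hM : M ⊆ Om g) (hne : M.Nonempty)
    (hcl : IsClosed M) {R : ℕ → Matrix (Fin d) (Fin d) ℝ} (hR : Tendsto R atTop (𝓝 1))
    (h1 : ∀ n, ∀ z ∈ M, R n * z ∈ M) (h2 : ∀ n, ∀ z ∈ M, (R n)⁻¹ * z ∈ M)
    (hnd : ∀ n, ∃ i j, i ≠ j ∧ R n i j ≠ 0) : False := by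
  -- the compact set `K`
  obtain ⟨K, hKd⟩ : ∃ K, K = VV M ∩ {Y | mx Y ≤ 1} := ⟨_, rfl⟩
  have hK : IsCompact K := by
    refine IsCompact.of_isClosed_subset (s := Set.pi Set.univ
      (fun _ : Fin d => Set.pi Set.univ (fun _ : Fin d => Set.Icc (-1 : ℝ) 1)))
      (isCompact_univ_pi fun _ => isCompact_univ_pi fun _ => isCompact_Icc) ?_ ?_
    · rw [hKd]
      exact (VV_closed hcl).inter (isClosed_le mx_continuous continuous_const)
    · intro Y hY
      rw [hKd] at hY
      intro i _ j _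
      exact abs_le.1 ((cst_ent i j).trans hY.2)
  have h0K : (0 : Matrix (Fin d) (Fin d) ℝ) ∈ K := by
    rw [hKd]
    exact ⟨VV_zero M, by
      show mx 0 ≤ 1
      rw [mx_eq_zero.2 rfl]
      exact zero_le_one⟩
  have hmin : ∀ n, ∃ Y ∈ K, ∀ Y' ∈ K, mx (R n * NormedSpace.exp (-Y) - 1) ≤
      mx (R n * NormedSpace.exp (-Y') - 1) := by
    intro n
    obtain ⟨Y, hY, hmY⟩ := hK.exists_isMinOn ⟨0, h0K⟩ (cst_cont (R n)).continuousOn
    exact ⟨Y, hY, fun Y' hY' => hmY hY'⟩
  choose Y hYK hYmin using hmin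
  have hYV : ∀ n, Y n ∈ VV M := fun n => by
    have := hYK n
    rw [hKd] at this
    exact this.1
  have hYd : ∀ n i j, i ≠ j → Y n i j = 0 := fun n i j hij =>
    VV_diag hg hc hp hM hne (hYV n) hij
  have hexpY : ∀ n, NormedSpace.exp (-(Y n)) = diagonal (fun i => Real.exp (-(Y n i i))) := by
    intro n
    rw [cst_diag (X := -(Y n)) (fun i j hij => by rw [Matrix.neg_apply, hYd n i j hij, neg_zero])]
    rfl
  obtain ⟨Q, hQd⟩ : ∃ Q : ℕ → Matrix (Fin d) (Fin d) ℝ,
      Q = fun n => R n * NormedSpace.exp (-(Y n)) := ⟨_, rfl⟩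
  have hmR : Tendsto (fun n => mx (R n - 1)) atTop (𝓝 0) := by
    have := (mx_continuous.tendsto ((1 : Matrix (Fin d) (Fin d) ℝ) - 1)).comp
      (hR.sub_const (1 : Matrix (Fin d) (Fin d) ℝ))
    rwa [sub_self, mx_eq_zero.2 rfl] at this
  have hmQ : Tendsto (fun n => mx (Q n - 1)) atTop (𝓝 0) := by
    refine squeeze_zero (fun n => mx_nonneg _) (fun n => ?_) hmR
    have h3 := hYmin n 0 h0K
    rw [neg_zero, NormedSpace.exp_zero, mul_one] at h3
    rw [hQd]
    exact h3
  have hQ1 : Tendsto Q atTop (𝓝 1) := cst_to hmQ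
  have hQij : ∀ n i j, Q n i j = R n i j * Real.exp (-(Y n j j)) := by
    intro n i j
    rw [hQd]
    show (R n * NormedSpace.exp (-(Y n))) i j = _
    rw [hexpY, Matrix.mul_diagonal]
  have hY0 : Tendsto Y atTop (𝓝 0) := by
    refine tendsto_pi_nhds.2 fun i => tendsto_pi_nhds.2 fun j => ?_
    by_cases hij : i = j
    · subst hij
      have h3 : Tendsto (fun n => Q n i i) atTop (𝓝 1) := by
        have := (tendsto_pi_nhds.1 (tendsto_pi_nhds.1 hQ1 i)) i
        rwa [Matrix.one_apply_eq] at this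
      have h4 : Tendsto (fun n => R n i i) atTop (𝓝 1) := by
        have := (tendsto_pi_nhds.1 (tendsto_pi_nhds.1 hR i)) i
        rwa [Matrix.one_apply_eq] at this
      have h5 : Tendsto (fun n => -Real.log (Q n i i / R n i i)) atTop (𝓝 0) := by
        have h6 := (Real.continuousAt_log (x := 1) one_ne_zero).tendsto
        rw [Real.log_one] at h6
        have h7 : Tendsto (fun n => Q n i i / R n i i) atTop (𝓝 1) := by
          have := h3.div h4 one_ne_zero
          rwa [div_one] at this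
        have h8 := (h6.comp h7).neg
        rwa [neg_zero] at h8
      refine Tendsto.congr' ?_ h5
      filter_upwards [h4.eventually_ne one_ne_zero] with n hn
      rw [hQij, mul_div_cancel_left₀ _ hn, Real.log_exp, neg_neg]
    · have h3 : (fun n => Y n i j) = fun _ => (0 : ℝ) := funext fun n => hYd n i j hij
      show Tendsto (fun n => Y n i j) atTop (𝓝 0)
      rw [h3]
      exact tendsto_const_nhds
  have hmY : Tendsto (fun n => mx (Y n)) atTop (𝓝 0) := by
    have := (mx_continuous.tendsto (0 : Matrix (Fin d) (Fin d) ℝ)).comp hY0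
    rwa [mx_eq_zero.2 rfl] at this
  have hQne : ∀ n, Q n ≠ 1 := by
    intro n hn
    obtain ⟨i, j, hij, hRij⟩ := hnd n
    have h3 := hQij n i j
    rw [hn, Matrix.one_apply_ne hij] at h3
    exact hRij ((mul_eq_zero.1 h3.symm).resolve_right (Real.exp_ne_zero _))
  have hQM : ∀ n, ∀ z ∈ M, Q n * z ∈ M := by
    intro n z hz
    rw [hQd]
    show R n * NormedSpace.exp (-(Y n)) * z ∈ M
    rw [Matrix.mul_assoc]
    refine h1 n _ ?_
    have := hYV n (-1) z hz
    rwa [neg_smul, one_smul] at this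
  have hQM' : ∀ n, ∀ z ∈ M, (Q n)⁻¹ * z ∈ M := by
    intro n z hz
    rw [hQd]
    show (R n * NormedSpace.exp (-(Y n)))⁻¹ * z ∈ M
    rw [Matrix.mul_inv_rev, ← Matrix.exp_neg, neg_neg, Matrix.mul_assoc]
    have := hYV n 1 _ (h2 n z hz)
    rwa [one_smul] at this
  have hQk : ∀ n (k : ℕ), ∀ z ∈ M, Q n ^ k * z ∈ M := by
    intro n k
    induction k with
    | zero => intro z hz; rwa [pow_zero, Matrix.one_mul]
    | succ k ih => intro z hz; rw [pow_succ, Matrix.mul_assoc]; exact ih _ (hQM n z hz)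
  have hQk' : ∀ n (k : ℕ), ∀ z ∈ M, (Q n ^ k)⁻¹ * z ∈ M := by
    intro n k
    rw [← Matrix.inv_pow']
    induction k with
    | zero => intro z hz; rwa [pow_zero, Matrix.one_mul]
    | succ k ih => intro z hz; rw [pow_succ, Matrix.mul_assoc]; exact ih _ (hQM' n z hz)
  -- the limit
  obtain ⟨φ, X, hφ, hX1, hXl, hXs⟩ := opl hQ1 hQne
  have hXV : X ∈ VV M := by
    intro s z hz
    rcases le_or_gt 0 s with hs | hs
    · obtain ⟨k, hk⟩ := hXs s hs
      exact cst_mem hcl hk z fun n => hQk (φ n) (k n) z hz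
    · obtain ⟨k, hk⟩ := hXs (-s) (by linarith)
      have h3 : (NormedSpace.exp ((-s) • X)).det ≠ 0 := cst_det _
      have h4 := cst_mem hcl (cst_inv hk h3) z fun n => hQk' (φ n) (k n) z hz
      have h5 : (NormedSpace.exp ((-s) • X))⁻¹ = NormedSpace.exp (s • X) := by
        rw [← Matrix.exp_neg, neg_smul, neg_neg]
      rwa [h5] at h4
  have hXd : ∀ i j, i ≠ j → X i j = 0 := fun i j hij => VV_diag hg hc hp hM hne hXV hij
  obtain ⟨r, hr⟩ : ∃ r : ℕ → ℝ, r = fun n => mx (Q (φ n) - 1) := ⟨_, rfl⟩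
  have hr0 : ∀ n, 0 < r n := by
    intro n
    rw [hr]
    refine lt_of_le_of_ne (mx_nonneg _) fun h => hQne (φ n) ?_
    exact sub_eq_zero.1 (mx_eq_zero.1 h.symm)
  have hrl : Tendsto r atTop (𝓝 0) := by
    rw [hr]
    exact hmQ.comp hφ.tendsto_atTop
  obtain ⟨D, hD⟩ : ∃ D : ℕ → Matrix (Fin d) (Fin d) ℝ,
      D = fun n => diagonal (fun i => Real.exp (-(r n * X i i))) := ⟨_, rfl⟩
  have hmin2 : ∀ᶠ n in atTop, r n ≤ mx (Q (φ n) * D n - 1) := by
    filter_upwards [hrl.eventually_lt_const (show (0 : ℝ) < 1 / 2 by norm_num),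
      (hmY.comp hφ.tendsto_atTop).eventually_lt_const (show (0 : ℝ) < 1 / 2 by norm_num)]
      with n hn1 hn2
    have hin : Y (φ n) + r n • X ∈ K := by
      rw [hKd]
      refine ⟨VV_add hg hc hp hM hne (hYV _) (VV_smul hXV _), ?_⟩
      show mx (Y (φ n) + r n • X) ≤ 1
      refine (mx_add_le _ _).trans ?_
      rw [mx_smul, hX1, mul_one, abs_of_pos (hr0 n)]
      have h3 : mx (Y (φ n)) < 1 / 2 := hn2
      linarith
    have h3 := hYmin (φ n) _ hin
    have h4 : R (φ n) * NormedSpace.exp (-(Y (φ n) + r n • X)) = Q (φ n) * D n := by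
      rw [cst_diag (X := -(Y (φ n) + r n • X)) (fun i j hij => by
        rw [Matrix.neg_apply, Matrix.add_apply, Matrix.smul_apply, hYd _ i j hij, hXd i j hij,
          smul_zero, add_zero, neg_zero]), hQd, hD]
      show _ = R (φ n) * NormedSpace.exp (-(Y (φ n))) * _
      rw [hexpY, Matrix.mul_assoc, Matrix.diagonal_mul_diagonal]
      congr 2
      funext i
      rw [← Real.exp_add]
      congr 1
      simp only [Matrix.neg_apply, Matrix.add_apply, Matrix.smul_apply, smul_eq_mul]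
      ring
    rw [h4] at h3
    rw [hr]
    refine le_trans (le_of_eq ?_) h3
    rw [hQd]
  have hDl : Tendsto D atTop (𝓝 1) := by
    rw [hD]
    refine tendsto_pi_nhds.2 fun i => tendsto_pi_nhds.2 fun j => ?_
    by_cases hij : i = j
    · subst hij
      simp only [diagonal_apply_eq, Matrix.one_apply_eq]
      have h3 : Tendsto (fun n => -(r n * X i i)) atTop (𝓝 0) := by
        have := (hrl.mul_const (X i i)).neg
        rwa [zero_mul, neg_zero] at this
      have h4 := (Real.continuous_exp.tendsto 0).comp h3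
      rwa [Real.exp_zero] at h4
    · simp only [diagonal_apply_ne _ hij, Matrix.one_apply_ne hij]
      exact tendsto_const_nhds
  have hDr : Tendsto (fun n => (r n)⁻¹ • (D n - 1)) atTop (𝓝 (-X)) := by
    rw [hD]
    refine tendsto_pi_nhds.2 fun i => tendsto_pi_nhds.2 fun j => ?_
    by_cases hij : i = j
    · subst hij
      simp only [Matrix.smul_apply, Matrix.sub_apply, diagonal_apply_eq, Matrix.one_apply_eq,
        Matrix.neg_apply]
      have h3 : HasDerivAt (fun t : ℝ => Real.exp (-(t * X i i))) (-(X i i)) 0 := by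
        have h4 : HasDerivAt (fun t : ℝ => -(t * X i i)) (-(X i i)) 0 := by
          have := ((hasDerivAt_id (0 : ℝ)).mul_const (X i i)).neg
          rw [one_mul] at this
          exact this
        have h5 := h4.exp
        simpa using h5
      rw [hasDerivAt_iff_tendsto_slope_zero] at h3
      have h6 : Tendsto r atTop (𝓝[≠] 0) :=
        tendsto_nhdsWithin_iff.2 ⟨hrl, Eventually.of_forall fun n => (hr0 n).ne'⟩
      have h7 := h3.comp h6
      refine h7.congr fun n => ?_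
      simp only [Function.comp_apply, zero_add, zero_mul, neg_zero, Real.exp_zero]
    · simp only [Matrix.smul_apply, Matrix.sub_apply, diagonal_apply_ne _ hij,
        Matrix.one_apply_ne hij, Matrix.neg_apply, sub_zero, smul_zero, hXd i j hij, neg_zero]
      exact tendsto_const_nhds
  have hlim : Tendsto (fun n => (r n)⁻¹ • (Q (φ n) * D n - 1)) atTop (𝓝 0) := by
    have h3 : Tendsto (fun n => ((r n)⁻¹ • (Q (φ n) - 1)) * D n + (r n)⁻¹ • (D n - 1)) atTop
        (𝓝 (X * 1 + -X)) := by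
      refine Tendsto.add (cst_mulm ?_ hDl) hDr
      rw [hr]
      exact hXl
    rw [Matrix.mul_one, add_neg_cancel] at h3
    refine h3.congr fun n => ?_
    rw [Matrix.smul_mul, ← smul_add, Matrix.sub_mul, Matrix.one_mul]
    congr 1
    abel
  have hml : Tendsto (fun n => mx ((r n)⁻¹ • (Q (φ n) * D n - 1))) atTop (𝓝 0) := by
    have := (mx_continuous.tendsto (0 : Matrix (Fin d) (Fin d) ℝ)).comp hlim
    rwa [mx_eq_zero.2 rfl] at this
  obtain ⟨n, hn1, hn2⟩ := (hmin2.and (hml.eventually_lt_const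
    (show (0 : ℝ) < 1 by norm_num))).exists
  rw [mx_smul, abs_of_pos (inv_pos.2 (hr0 n)), inv_mul_lt_iff₀ (hr0 n), mul_one] at hn2
  linarith

theorem cst {g : Matrix (Fin d) (Fin d) ℝ} (hg : g.det ≠ 0) {c : ℝ} (hc : 0 < c)
    (hp : Pos c g) {M : Set (Matrix (Fin d) (Fin d) ℝ)} (hM : M ⊆ Om g) (hne : M.Nonempty)
    (hcl : IsClosed M) {R : ℕ → Matrix (Fin d) (Fin d) ℝ} (hR : Tendsto R atTop (𝓝 1))
    (h1 : ∀ n, ∀ z ∈ M, R n * z ∈ M) (h2 : ∀ n, ∀ z ∈ M, (R n)⁻¹ * z ∈ M) :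
    ∀ᶠ n in atTop, ∀ i j, i ≠ j → R n i j = 0 := by
  by_contra hcon
  have h3 : ∃ᶠ n in atTop, ∃ i j, i ≠ j ∧ R n i j ≠ 0 := by
    intro h4
    apply hcon
    filter_upwards [h4] with n hn i j hij
    by_contra h5
    exact hn ⟨i, j, hij, h5⟩
  obtain ⟨φ, hφ, hnd⟩ := extraction_of_frequently_atTop h3
  exact cst_main hg hc hp hM hne hcl (hR.comp hφ.tendsto_atTop) (fun n => h1 (φ n))
    (fun n => h2 (φ n)) hnd

end Pool.Agent.H46.RU
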