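import Pool.Agent.H46.RG.Zorn
import Pool.Agent.H46.RG.Sth
import Pool.Agent.H81.GF.Gmag

/-!
# Theorem R (MP_edeaa2_an): shears or automorphs; classes of rows in every dimension

Notation as in `H46/RG`: `Om g` the closed orbit (matrices, `z` stands for the lattice `z ℤ^d`), `A1 d` the positive
diagonal matrices of determinant one, `GFlow w` the one-parameter group `diag (exp (t w))`, `Up w v`: `v` has its
nonzero entries at the places expanded by it.

* `Aut z`: the real matrices `h` which map the lattice of `z` to itself.
* LEMMA G (`dichotomy`, module LMG): `ν (g) > 0`, `Z ⊆ Om g` closed, invariant under `GFlow w`: there is a shear pair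
  `z, (1 + v) z ∈ Z`, `v ≠ 0`, `Up w v`; or for some `z ∈ Z` the vector `w` is a real combination of the logarithms of the
  diagonal automorphs `a ∈ A1` of `z`.
* Classes: in an `A1`-minimal set `Y` all lattices have the same diagonal automorphs `DA Y`; one of them, `b`, separates
  as much as possible; its level sets have the same size `n ≥ 2` if `g` is not integral; shears inside `Y` respect
  the level sets (`restrict`).
* THEOREM R (`structure_thm`, module FIN): root shears exist exactly inside the level sets of `b`.
-/

set_option autoImplicit false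

namespace Pool.Agent.H46.RU

open Matrix Filter Topology Pool.Agent.H89.CSD Pool.Agent.H46.RG Pool.Agent.H81.GF

variable {d : ℕ}

/-- The matrices which map the lattice of `z` to itself. -/
def Aut (z : Matrix (Fin d) (Fin d) ℝ) : Set (Matrix (Fin d) (Fin d) ℝ) :=
  {h | ∃ U : (Matrix (Fin d) (Fin d) ℤ)ˣ, h * z = z * im (U : Matrix (Fin d) (Fin d) ℤ)}

/-- The common diagonal automorphs (positive, determinant one) of the lattices in `Z`. -/
def DA (Z : Set (Matrix (Fin d) (Fin d) ℝ)) : Set (Fin d → ℝ) :=
  {a | a ∈ A1 d ∧ ∀ z ∈ Z, diagonal a ∈ Aut z}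

/-- The logarithms of the diagonal automorphs (positive, determinant one) of the lattice of `z`. -/
def LG (z : Matrix (Fin d) (Fin d) ℝ) : Set (Fin d → ℝ) :=
  {l | ∃ a ∈ A1 d, diagonal a ∈ Aut z ∧ l = fun i => Real.log (a i)}

/-- The diagonal automorphs of the lattices in `Y` separate no more indices than `b` does. -/
def Sep (Y : Set (Matrix (Fin d) (Fin d) ℝ)) (b : Fin d → ℝ) : Prop :=
  ∀ z ∈ Y, ∀ a ∈ A1 d, diagonal a ∈ Aut z → ∀ i j, b i = b j → a i = a j

/-- A norm of matrices. -/
def mx (A : Matrix (Fin d) (Fin d) ℝ) : ℝ := ∑ i, ∑ j, |A i j|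

/-- The matrices `X` whose one-parameter group maps `M` to itself. -/
def VV (M : Set (Matrix (Fin d) (Fin d) ℝ)) : Set (Matrix (Fin d) (Fin d) ℝ) :=
  {X | ∀ s : ℝ, ∀ z ∈ M, NormedSpace.exp (s • X) * z ∈ M}

end Pool.Agent.H46.RU
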