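import Pool.Agent.H46.RU.Aut
import Pool.Agent.H46.RU.Clo

/-!
# [H46 RU DSC] Automorphs of bounded lattices are uniformly discrete (40 min)

`aut_discrete` by contradiction: `δ = 1 / (n + 1)` gives `z n ∈ Om g`, `h n ∈ Aut (z n)`, `h n ≠ 1`, `h n → 1`
(entrywise, `tendsto_pi_nhds`).  `subseq` with `Z = Om g` (`Om_inv`): `y n = z (φ n) * im (V n) → w ∈ Om g`.
`h (φ n) ∈ Aut (y n)` (`Aut_im`): `h (φ n) * y n = y n * im (W n)`, so `im (W n) = (y n)⁻¹ h (φ n) y n → w⁻¹ w = 1`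
(`continuousAt_inv`), `units_tendsto`: eventually `W n = V` with `im V = 1`, so `h (φ n) * y n = y n`, `h (φ n) = 1`
(`det (y n) ≠ 0`), contradiction.

`no_unip`: `a = flow I (-n)`: `diag(a) (1 + w) diag(a)⁻¹ = 1 + exp (- d n) w` (rows in `I`, columns outside `I`: the factor is
`exp (-n (d - |I|)) exp (-n |I|)`; `Aut_diag`, `flow_mem_A1`, `Om_inv`), for large `n` closer to `1` than `δ`
(`d > 0`; for `d = 0` everything is trivial), so `exp (- d n) w = 0`, `w = 0`.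
-/

set_option autoImplicit false

namespace Pool.Agent.H46.RU

open Matrix Filter Topology Pool.Agent.H89.CSD Pool.Agent.H46.RG Pool.Agent.H81.GF

variable {d : ℕ}

theorem aut_discrete {g : Matrix (Fin d) (Fin d) ℝ} (hg : g.det ≠ 0) {c : ℝ} (hc : 0 < c)
    (hp : Pos c g) : ∃ δ : ℝ, 0 < δ ∧ ∀ z ∈ Om g, ∀ h ∈ Aut z,
      (∀ i j, |h i j - (1 : Matrix (Fin d) (Fin d) ℝ) i j| < δ) → h = 1 := by
  by_contra hcon
  push Not at hcon
  have h1 : ∀ n : ℕ, ∃ z ∈ Om g, ∃ h ∈ Aut z,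
      (∀ i j, |h i j - (1 : Matrix (Fin d) (Fin d) ℝ) i j| < 1 / ((n : ℝ) + 1)) ∧ h ≠ 1 :=
    fun n => hcon _ (by positivity)
  choose z hz h hh hlt hne using h1
  obtain ⟨w, hw, φ, V, hφ, hlim⟩ := subseq hg hc hp (Set.Subset.refl _) (Om_inv hg) z hz
  have hwd : w.det ≠ 0 := Om_det_ne hg hw
  have hyO : ∀ n, z (φ n) * im (V n : Matrix (Fin d) (Fin d) ℤ) ∈ Om g :=
    fun n => (Om_inv hg).im (hz (φ n)) (V n)
  have hyd : ∀ n, (z (φ n) * im (V n : Matrix (Fin d) (Fin d) ℤ)).det ≠ 0 :=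
    fun n => Om_det_ne hg (hyO n)
  have hh1 : Tendsto h atTop (𝓝 1) := by
    refine tendsto_pi_nhds.2 fun i => tendsto_pi_nhds.2 fun j => ?_
    rw [tendsto_iff_norm_sub_tendsto_zero]
    refine squeeze_zero (fun n => norm_nonneg _) (fun n => ?_) tendsto_one_div_add_atTop_nhds_zero_nat
    rw [Real.norm_eq_abs]
    exact (hlt n i j).le
  choose W hW using fun n => Aut_im (hh (φ n)) (V n)
  have h2 : Tendsto (fun n => (z (φ n) * im (V n : Matrix (Fin d) (Fin d) ℤ))⁻¹ *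
      (h (φ n) * (z (φ n) * im (V n : Matrix (Fin d) (Fin d) ℤ)))) atTop
      (𝓝 (w⁻¹ * (1 * w))) :=
    Filter.Tendsto.mul ((continuousAt_inv hwd).tendsto.comp hlim)
      (Filter.Tendsto.mul (hh1.comp hφ.tendsto_atTop) hlim)
  have h3 : Tendsto (fun n => im (W n : Matrix (Fin d) (Fin d) ℤ)) atTop (𝓝 (w⁻¹ * (1 * w))) := by
    refine h2.congr fun n => ?_
    rw [hW n, ← Matrix.mul_assoc, Matrix.nonsing_inv_mul _ (isUnit_iff_ne_zero.2 (hyd n)),
      Matrix.one_mul]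
  obtain ⟨V', hV', hev⟩ := units_tendsto h3
  rw [Matrix.one_mul, Matrix.nonsing_inv_mul _ (isUnit_iff_ne_zero.2 hwd)] at hV'
  obtain ⟨n, hn⟩ := hev.exists
  apply hne (φ n)
  have h4 := hW n
  rw [hn, hV', Matrix.mul_one] at h4
  have h5 := congrArg (fun M => M * (z (φ n) * im (V n : Matrix (Fin d) (Fin d) ℤ))⁻¹) h4
  rw [Matrix.mul_assoc, Matrix.mul_nonsing_inv _ (isUnit_iff_ne_zero.2 (hyd n)),
    Matrix.mul_one] at h5
  exact h5

theorem conj_flow {I : Finset (Fin d)} {w : Matrix (Fin d) (Fin d) ℝ} (hw : Blk I w) (t : ℝ) :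
    diagonal (flow I (-t)) * (1 + w) * diagonal (fun i => (flow I (-t) i)⁻¹) =
      1 + Real.exp (-(t * d)) • w := by
  ext i j
  rw [Matrix.mul_diagonal, Matrix.diagonal_mul, Matrix.add_apply, Matrix.add_apply,
    Matrix.smul_apply, smul_eq_mul]
  by_cases h : w i j = 0
  · rw [h, add_zero, mul_zero, add_zero]
    by_cases hij : i = j
    · subst hij
      rw [Matrix.one_apply_eq, mul_one, mul_inv_cancel₀ (flow_pos I (-t) i).ne']
    · rw [Matrix.one_apply_ne hij, mul_zero, zero_mul]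
  · obtain ⟨hi, hj⟩ := hw i j h
    have hij : i ≠ j := fun h' => hj (h' ▸ hi)
    rw [Matrix.one_apply_ne hij, zero_add, zero_add]
    have h1 : flow I (-t) i * (flow I (-t) j)⁻¹ = Real.exp (-(t * d)) := by
      rw [flow, flow, if_pos hi, if_neg hj, ← Real.exp_neg, ← Real.exp_add]
      congr 1
      ring
    calc flow I (-t) i * w i j * (flow I (-t) j)⁻¹
        = flow I (-t) i * (flow I (-t) j)⁻¹ * w i j := by ring
      _ = Real.exp (-(t * d)) * w i j := by rw [h1]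

theorem no_unip {g : Matrix (Fin d) (Fin d) ℝ} (hg : g.det ≠ 0) {c : ℝ} (hc : 0 < c)
    (hp : Pos c g) {z : Matrix (Fin d) (Fin d) ℝ} (hz : z ∈ Om g) {I : Finset (Fin d)}
    {w : Matrix (Fin d) (Fin d) ℝ} (hw : Blk I w) (h : 1 + w ∈ Aut z) : w = 0 := by
  obtain ⟨δ, hδ, hd⟩ := aut_discrete hg hc hp
  ext i0 j0
  rw [Matrix.zero_apply]
  have hd0 : (0 : ℝ) < d := by
    have h1 : 0 < d := lt_of_le_of_lt (Nat.zero_le _) i0.isLt
    exact_mod_cast h1
  have hlim : ∀ i j, Tendsto (fun n : ℕ => |Real.exp (-((n : ℝ) * d)) * w i j|) atTop (𝓝 0) := by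
    intro i j
    have h1 : Tendsto (fun n : ℕ => Real.exp (-((n : ℝ) * d))) atTop (𝓝 0) := by
      refine Real.tendsto_exp_neg_atTop_nhds_zero.comp ?_
      exact tendsto_natCast_atTop_atTop.atTop_mul_const hd0
    have h2 := (h1.mul_const (w i j)).abs
    rwa [zero_mul, abs_zero] at h2
  have hev : ∀ᶠ n : ℕ in atTop, ∀ i j, |Real.exp (-((n : ℝ) * d)) * w i j| < δ :=
    eventually_all.2 fun i => eventually_all.2 fun j => (hlim i j).eventually (gt_mem_nhds hδ)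
  obtain ⟨n, hn⟩ := hev.exists
  have h1 := Aut_diag h (a := flow I (-(n : ℝ))) fun i => (flow_pos I _ i).ne'
  rw [conj_flow hw] at h1
  have h2 := hd _ ((Om_inv hg).diag _ (flow_mem_A1 I (-(n : ℝ))) z hz) _ h1 (by
    intro i j
    rw [Matrix.add_apply, Matrix.smul_apply, smul_eq_mul, add_sub_cancel_left]
    exact hn i j)
  have h3 := congrFun (congrFun h2 i0) j0
  rw [Matrix.add_apply, Matrix.smul_apply, smul_eq_mul] at h3
  have h4 : Real.exp (-((n : ℝ) * d)) * w i0 j0 = 0 := by linarith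
  rcases mul_eq_zero.1 h4 with h5 | h5
  · exact absurd h5 (Real.exp_pos _).ne'
  · exact h5

end Pool.Agent.H46.RU
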