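import Pool.Agent.H46.RU.Rtn
import Pool.Agent.H46.RU.Cst
import Pool.Agent.H46.RU.Aut

/-!
# [H46 RU LMG] Lemma G: shears or automorphs (60 min)

`dichotomy_log`.  `exists_min` (H46/RG/Zorn): `M ⊆ Z`, `IsMin (GFlow w) M`.  `rtn`: `t, R`.
`R n` is invertible for large `n` (`R n → 1`; drop the other `n` first).  `h1` of `cst`: `R n * z = φ_(t n) z U ∈ M`.
`h2`: for `z ∈ M` let `z' = φ_(-t n) z ∈ M`; `φ_(t n) z' U = R n z'`, that is `z U = R n z'`, so `(R n)⁻¹ z = z' U⁻¹ ∈ M`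
(`M` is invariant under right multiplication by the unit matrices).
`cst`: `R n` is diagonal for large `n`, its diagonal entries `r i` tend to `1`, so `r i > 0`.  Put `a i = exp (t n * w i) / r i`.
`diag(a) z = z U⁻¹` for `z ∈ M` (multiply `φ_(t n) z U = R n z` by `diag (1 / r)` on the left and `U⁻¹` on the right; diagonal
matrices commute).  `∏ a i = 1`: `|det| = 1` by `Aut_det` (for one `z ∈ M`, `Om_det_ne`) and `a i > 0`.
`log (a i) - t n * w i = - log (r i) → 0` as `n → ∞`.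

`dichotomy`: suppose there is no shear in `Z`; `dichotomy_log` gives `M`, choose `z ∈ M`.  For every `n` there are `t > n + 1` and `a`
with `|log (a i) - t * w i| < 1`, so the vector `t⁻¹ • log a`, an element of the span `V`, differs from `w` by less than
`1 / (n + 1)` in every coordinate.  So `w` is in the closure of `V`, and `V` is closed (`Submodule.closed_of_finiteDimensional`).
-/

set_option autoImplicit false

namespace Pool.Agent.H46.RU

open Matrix Filter Topology Pool.Agent.H89.CSD Pool.Agent.H46.RG Pool.Agent.H81.GF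

variable {d : ℕ}

theorem dichotomy_log {g : Matrix (Fin d) (Fin d) ℝ} (hg : g.det ≠ 0) {c : ℝ} (hc : 0 < c)
    (hp : Pos c g) {w : Fin d → ℝ} (hw : ∑ i, w i = 0) {Z : Set (Matrix (Fin d) (Fin d) ℝ)}
    (hZ : Z ⊆ Om g) (hinv : IsInv (GFlow w) Z)
    (hno : ∀ z ∈ Z, ∀ v : Matrix (Fin d) (Fin d) ℝ, v ≠ 0 → Up w v → (1 + v) * z ∉ Z) :
    ∃ M, M ⊆ Z ∧ IsMin (GFlow w) M ∧ ∀ ε : ℝ, 0 < ε → ∀ T : ℝ, ∃ t : ℝ, T < t ∧ ∃ a ∈ A1 d,
      (∀ z ∈ M, diagonal a ∈ Aut z) ∧ ∀ i, |Real.log (a i) - t * w i| < ε := by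
  obtain ⟨M, hMZ, hM⟩ := exists_min hg hc hp hZ hinv
  obtain ⟨t, R, ht, hR, -, hRM⟩ := rtn hg hc hp hw hZ hinv hno hMZ hM
  have hMO : M ⊆ Om g := hMZ.trans hZ
  have hdet : Tendsto (fun n => (R n).det) atTop (𝓝 1) := by
    have h1 := (continuous_det'.tendsto (1 : Matrix (Fin d) (Fin d) ℝ)).comp hR
    rwa [Matrix.det_one] at h1
  obtain ⟨N, hN⟩ := eventually_atTop.1 (hdet.eventually_ne one_ne_zero)
  have hmem : ∀ s : ℝ, ∀ z ∈ M, diagonal (gflow w s) * z ∈ M :=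
    fun s z hz => hM.1.diag _ ⟨s, rfl⟩ z hz
  have h1 : ∀ n, ∀ z ∈ M, R n * z ∈ M := by
    intro n z hz
    obtain ⟨U, hU⟩ := hRM n z hz
    rw [← hU]
    exact hM.1.im (hmem (t n) z hz) U
  have h2 : ∀ n, N ≤ n → ∀ z ∈ M, (R n)⁻¹ * z ∈ M := by
    intro n hn z hz
    have hz' := hmem (-(t n)) z hz
    obtain ⟨U, hU⟩ := hRM n _ hz'
    have h3 : diagonal (gflow w (t n)) * (diagonal (gflow w (-(t n))) * z) = z := by
      rw [← Matrix.mul_assoc, Matrix.diagonal_mul_diagonal]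
      have h4 : (fun i => gflow w (t n) i * gflow w (-(t n)) i) = fun _ => (1 : ℝ) := by
        funext i
        rw [gflow, gflow, ← Real.exp_add, ← add_mul, add_neg_cancel, zero_mul, Real.exp_zero]
      rw [h4, Matrix.diagonal_one, Matrix.one_mul]
    rw [h3] at hU
    have h5 : (R n)⁻¹ * z = diagonal (gflow w (-(t n))) * z *
        im ((U⁻¹ : (Matrix (Fin d) (Fin d) ℤ)ˣ) : Matrix (Fin d) (Fin d) ℤ) := by
      calc (R n)⁻¹ * z = (R n)⁻¹ * (z * im (U : Matrix (Fin d) (Fin d) ℤ)) *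
            im ((U⁻¹ : (Matrix (Fin d) (Fin d) ℤ)ˣ) : Matrix (Fin d) (Fin d) ℤ) := by
            rw [Matrix.mul_assoc, Matrix.mul_assoc z, im_mul_inv, Matrix.mul_one]
        _ = _ := by
            rw [hU, ← Matrix.mul_assoc (R n)⁻¹,
              Matrix.nonsing_inv_mul _ (isUnit_iff_ne_zero.2 (hN n hn)), Matrix.one_mul]
    rw [h5]
    exact hM.1.im hz' U⁻¹
  have hshift : Tendsto (fun n : ℕ => n + N) atTop atTop := tendsto_add_atTop_nat N
  have hR' : Tendsto (fun n => R (n + N)) atTop (𝓝 1) := hR.comp hshift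
  have hoff := cst hg hc hp hMO hM.1.nonempty hM.1.closed hR' (fun n z hz => h1 (n + N) z hz)
    (fun n z hz => h2 (n + N) (by omega) z hz)
  refine ⟨M, hMZ, hM, fun ε hε T => ?_⟩
  have hlog : ∀ i, ∀ᶠ n in atTop, 0 < R (n + N) i i ∧ |Real.log (R (n + N) i i)| < ε := by
    intro i
    have h3 : Tendsto (fun n => R (n + N) i i) atTop (𝓝 1) := by
      have h4 := tendsto_pi_nhds.1 (tendsto_pi_nhds.1 hR' i) i
      rwa [Matrix.one_apply_eq] at h4
    have h5 : Tendsto (fun n => |Real.log (R (n + N) i i)|) atTop (𝓝 0) := by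
      have h6 := ((Real.continuousAt_log one_ne_zero).tendsto.comp h3).abs
      rwa [Real.log_one, abs_zero] at h6
    exact (h3.eventually (lt_mem_nhds one_pos)).and (h5.eventually (gt_mem_nhds hε))
  obtain ⟨n, ⟨hn1, hn2⟩, hn3⟩ :=
    ((hoff.and (eventually_all.2 hlog)).and ((ht.comp hshift).eventually_gt_atTop T)).exists
  obtain ⟨r, hr⟩ : ∃ r : Fin d → ℝ, r = fun i => R (n + N) i i := ⟨_, rfl⟩
  have hr0 : ∀ i, 0 < r i := fun i => by rw [hr]; exact (hn2 i).1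
  have hRr : R (n + N) = diagonal r := by
    ext i j
    by_cases hij : i = j
    · subst hij
      rw [Matrix.diagonal_apply_eq, hr]
    · rw [Matrix.diagonal_apply_ne _ hij]
      exact hn1 i j hij
  obtain ⟨a, ha⟩ : ∃ a : Fin d → ℝ, a = fun i => (r i)⁻¹ * gflow w (t (n + N)) i := ⟨_, rfl⟩
  have ha0 : ∀ i, 0 < a i := fun i => by
    rw [ha]
    exact mul_pos (inv_pos.2 (hr0 i)) (gflow_pos w _ i)
  have hauto : ∀ z ∈ M, diagonal a ∈ Aut z := by
    intro z hz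
    obtain ⟨U, hU⟩ := hRM (n + N) z hz
    refine ⟨U⁻¹, ?_⟩
    have h3 : diagonal a = diagonal (fun i => (r i)⁻¹) * diagonal (gflow w (t (n + N))) := by
      rw [Matrix.diagonal_mul_diagonal, ha]
    have h4 : diagonal (fun i => (r i)⁻¹) * diagonal r = (1 : Matrix (Fin d) (Fin d) ℝ) := by
      rw [Matrix.diagonal_mul_diagonal, ← Matrix.diagonal_one]
      congr 1
      ext i
      exact inv_mul_cancel₀ (hr0 i).ne'
    have h5 : diagonal a * z * im (U : Matrix (Fin d) (Fin d) ℤ) = z := by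
      rw [h3, Matrix.mul_assoc, Matrix.mul_assoc, ← Matrix.mul_assoc (diagonal (gflow w _)), hU,
        hRr, ← Matrix.mul_assoc, h4, Matrix.one_mul]
    calc diagonal a * z = diagonal a * z * im (U : Matrix (Fin d) (Fin d) ℤ) *
          im ((U⁻¹ : (Matrix (Fin d) (Fin d) ℤ)ˣ) : Matrix (Fin d) (Fin d) ℤ) := by
          rw [Matrix.mul_assoc _ (im _), im_mul_inv, Matrix.mul_one]
      _ = _ := by rw [h5]
  obtain ⟨z0, hz0⟩ := hM.1.nonempty
  refine ⟨t (n + N), hn3, a, ⟨ha0, ?_⟩, hauto, ?_⟩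
  · have h3 := Aut_det (Om_det_ne hg (hMO hz0)) (hauto z0 hz0)
    rw [Matrix.det_diagonal, abs_of_pos (Finset.prod_pos fun i _ => ha0 i)] at h3
    exact h3
  · intro i
    have h3 : Real.log (a i) - t (n + N) * w i = -Real.log (r i) := by
      rw [ha]
      simp only [gflow]
      rw [Real.log_mul (inv_pos.2 (hr0 i)).ne' (Real.exp_pos _).ne', Real.log_inv, Real.log_exp]
      ring
    rw [h3, abs_neg, hr]
    exact (hn2 i).2

theorem dichotomy {g : Matrix (Fin d) (Fin d) ℝ} (hg : g.det ≠ 0) {c : ℝ} (hc : 0 < c)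
    (hp : Pos c g) {w : Fin d → ℝ} (hw : ∑ i, w i = 0) {Z : Set (Matrix (Fin d) (Fin d) ℝ)}
    (hZ : Z ⊆ Om g) (hinv : IsInv (GFlow w) Z) :
    (∃ z ∈ Z, ∃ v : Matrix (Fin d) (Fin d) ℝ, v ≠ 0 ∧ Up w v ∧ (1 + v) * z ∈ Z) ∨
    ∃ z ∈ Z, w ∈ Submodule.span ℝ (LG z) := by
  by_cases hno : ∃ z ∈ Z, ∃ v : Matrix (Fin d) (Fin d) ℝ, v ≠ 0 ∧ Up w v ∧ (1 + v) * z ∈ Z
  · exact Or.inl hno
  right
  push Not at hno
  obtain ⟨M, hMZ, hM, hlog⟩ := dichotomy_log hg hc hp hw hZ hinv hno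
  obtain ⟨z, hz⟩ := hM.1.nonempty
  refine ⟨z, hMZ hz, ?_⟩
  choose t ht a haA haM ha using fun n : ℕ => hlog 1 one_pos ((n : ℝ) + 1)
  have hcl : IsClosed (Submodule.span ℝ (LG z) : Set (Fin d → ℝ)) :=
    Submodule.closed_of_finiteDimensional _
  have hlim : Tendsto (fun n => (t n)⁻¹ • fun i => Real.log (a n i)) atTop (𝓝 w) := by
    refine tendsto_pi_nhds.2 fun i => ?_
    rw [tendsto_iff_norm_sub_tendsto_zero]
    refine squeeze_zero (fun n => norm_nonneg _) (fun n => ?_) tendsto_one_div_add_atTop_nhds_zero_nat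
    have hn1 : (0 : ℝ) < (n : ℝ) + 1 := by positivity
    have ht0 : 0 < t n := hn1.trans (ht n)
    have h1 : (t n)⁻¹ * Real.log (a n i) - w i = (t n)⁻¹ * (Real.log (a n i) - t n * w i) := by
      rw [mul_sub, inv_mul_cancel_left₀ ht0.ne']
    rw [Pi.smul_apply, smul_eq_mul, h1, Real.norm_eq_abs, abs_mul, abs_of_pos (inv_pos.2 ht0),
      one_div]
    calc (t n)⁻¹ * |Real.log (a n i) - t n * w i| ≤ (t n)⁻¹ * 1 :=
          mul_le_mul_of_nonneg_left (ha n i).le (inv_pos.2 ht0).le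
      _ ≤ ((n : ℝ) + 1)⁻¹ := by
          rw [mul_one]
          exact inv_anti₀ hn1 (ht n).le
  refine hcl.mem_of_tendsto hlim (Eventually.of_forall fun n => ?_)
  exact Submodule.smul_mem _ _ (Submodule.subset_span ⟨a n, haA n, haM n z hz, rfl⟩)

end Pool.Agent.H46.RU
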