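import Mathlib
import Pool.Agent.H46.AB.Fin
import Pool.Agent.H46.RG.Unc
import Pool.Agent.H46.RG.Perf
import Pool.Agent.H46.RU.Fin
import Pool.Agent.H66.RL.LogP
import Pool.Agent.H81.LW.Log

/-!
# Products of linear forms: rigidity of the forms which would contradict Q1

Let `d ≥ 3` and let `F` be the product of the linear forms given by the rows of an invertible real
matrix `g`.  Suppose that `F` is not proportional to an integral form and that `|F| ≥ c |det g|` at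
the nonzero integer vectors (a counterexample to Q1).  Then
* the values of `F` in `[-R |det g|, R |det g|]` contain `κ (log (1 / ε)) ^ m` points with distances
  at least `ε |det g|`, where `m = d - d / p`, `p` the least prime factor of `d` (`m = d - 1` for
  prime `d`), and `R` and `κ` depend only on `d` and `c`; and the closure of the set of values
  contains a nonempty perfect subset of `[-C |det g|, C |det g|]` for every `C > d! / d ^ d`;
* for every one-parameter group `exp (t w)` of diagonal matrices of determinant one every nonempty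
  closed set of lattices in the closed orbit which is invariant under the group contains a lattice
  `z` and `(1 + v) z`, `v ≠ 0`, with the nonzero entries of `v` at places expanded by the group, or a
  lattice `z` for which `w` is a real combination of the logarithms of the diagonal automorphs of
  `z`; then `w` is constant on the level sets of one diagonal automorph, which all have the same
  size `n > 1`;
* every nonempty closed `A`-invariant subset of the closed orbit contains a nonempty closed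
  `A`-invariant subset `Y'` and there is a common diagonal automorph `b` of the lattices in `Y'`, all
  level sets of `b` have the same size `n > 1` (so `n` divides `d`, and `n = d` for prime `d`), `Y'`
  contains some `z` and `(1 + E_kl) z` if and only if `k` and `l` are in the same level set; there are
  disjoint pairs of indices inside the level sets, which leave at most one index of each level set,
  and some `z` such that `Y'` contains `(1 + ∑ E_kl) z` for all sets of these pairs; and if `w` is not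
  constant on a level set then every nonempty closed subset of `Y'` which is invariant under
  `exp (t w)` contains `z` and `(1 + v) z` as above;
* for every `m` and every nonempty closed `A`-invariant subset of the closed orbit the minimal
  sets of the one-parameter group of `{m}` in it are uncountably many;
* no lattice in the closed orbit has a block of rows with the span of the vectors `σ (w)`,
  `σ ∈ T`, `w ∈ K ^ d`, `K` a number field of degree at most `d`, `T` not a union of classes of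
  embeddings with the same restriction to a proper totally real subfield.

The first clause holds for the limit points of the sequence `q ‖q α_1‖ ⋯ ‖q α_{d - 1}‖`, if it is at
least `c` for all large `q` (a counterexample to Littlewood's conjecture for `d - 1` numbers).
-/

set_option autoImplicit false

namespace Pool.Agent.H46.RU.Main

open Pool.Agent.H46.RG

/-- The product of the linear forms given by the rows of `g`. -/
def F {d : ℕ} (g : Matrix (Fin d) (Fin d) ℝ) (x : Fin d → ℤ) : ℝ :=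
  ∏ i : Fin d, ∑ j : Fin d, g i j * (x j : ℝ)

/-- A nonzero real multiple of the product has integer coefficients. -/
def Integral {d : ℕ} (g : Matrix (Fin d) (Fin d) ℝ) : Prop :=
  ∃ s : ℝ, s ≠ 0 ∧ ∀ m : Fin d →₀ ℕ, ∃ z : ℤ,
    MvPolynomial.coeff m (s • (∏ i : Fin d, ∑ j : Fin d,
      MvPolynomial.C (g i j) * MvPolynomial.X j : MvPolynomial (Fin d) ℝ)) = (z : ℝ)

/-- The diagonal automorphs (positive, of determinant one) of the lattice `z ℤ ^ d`. -/
def Auto {d : ℕ} (z : Matrix (Fin d) (Fin d) ℝ) : Set (Fin d → ℝ) :=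
  {a | a ∈ A1 d ∧ ∃ U : Matrix (Fin d) (Fin d) ℤ, IsUnit U.det ∧
    Matrix.diagonal a * z = z * U.map (Int.cast : ℤ → ℝ)}

/-- All level sets of `b` have the same size, which is at least two. -/
def EqualLevels {d : ℕ} (b : Fin d → ℝ) : Prop :=
  ∃ n : ℕ, 2 ≤ n ∧ ∀ i, (Finset.univ.filter fun j => b j = b i).card = n

/-- `Z` contains a lattice `z` and `(1 + v) z`, `v ≠ 0`, the nonzero entries of `v` at places which are
expanded by `exp (t w)`. -/
def HasShear {d : ℕ} (w : Fin d → ℝ) (Z : Set (Matrix (Fin d) (Fin d) ℝ)) : Prop :=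
  ∃ z ∈ Z, ∃ v : Matrix (Fin d) (Fin d) ℝ, v ≠ 0 ∧ (∀ a b, v a b ≠ 0 → w b < w a) ∧ (1 + v) * z ∈ Z

/-- The sequence `q ‖q α_1‖ ⋯ ‖q α_m‖`. -/
noncomputable def L {m : ℕ} (α : Fin m → ℝ) (q : ℕ) : ℝ :=
  q * ∏ i, |(q : ℝ) * α i - round ((q : ℝ) * α i)|

/-- The two descriptions of the automorphs agree. -/
theorem mem_Auto {d : ℕ} {z : Matrix (Fin d) (Fin d) ℝ} {a : Fin d → ℝ} :
    a ∈ Auto z ↔ a ∈ A1 d ∧ Matrix.diagonal a ∈ Pool.Agent.H46.RU.Aut z := by
  constructor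
  · rintro ⟨ha, U, hU, h⟩
    obtain ⟨V, hV⟩ := exists_unit hU
    refine ⟨ha, V, ?_⟩
    rw [hV]
    exact h
  · rintro ⟨ha, V, h⟩
    exact ⟨ha, V, isUnit_det_unit V, h⟩

theorem image_Auto {d : ℕ} (z : Matrix (Fin d) (Fin d) ℝ) :
    (fun (a : Fin d → ℝ) (i : Fin d) => Real.log (a i)) '' Auto z = Pool.Agent.H46.RU.LG z := by
  ext l
  constructor
  · rintro ⟨a, ha, rfl⟩
    rw [mem_Auto] at ha
    exact ⟨a, ha.1, ha.2, rfl⟩
  · rintro ⟨a, ha, haz, rfl⟩
    exact ⟨a, mem_Auto.2 ⟨ha, haz⟩, rfl⟩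

theorem dich {d : ℕ} (hd : 3 ≤ d) {g : Matrix (Fin d) (Fin d) ℝ} (hg : g.det ≠ 0) {c : ℝ}
    (hc : 0 < c) (hp : Pool.Agent.H89.CSD.Pos c g) (hn : ¬ Pool.Agent.H89.CSD.IntForm g)
    {w : Fin d → ℝ} (hw : ∑ i, w i = 0) {Z : Set (Matrix (Fin d) (Fin d) ℝ)} (hZ : Z ⊆ Om g)
    (hinv : IsInv (Set.range fun (t : ℝ) (i : Fin d) => Real.exp (t * w i)) Z) :
    HasShear w Z ∨ ∃ z ∈ Z,
      w ∈ Submodule.span ℝ ((fun (a : Fin d → ℝ) (i : Fin d) => Real.log (a i)) '' Auto z) ∧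
      ∃ b ∈ Auto z, EqualLevels b ∧ ∀ i j, b i = b j → w i = w j := by
  rcases Pool.Agent.H46.RU.dichotomy_levels hd hg hc hp hn hw hZ hinv with
    h | ⟨z, hz, hwz, b, hb1, hb2, hb3, hb4⟩
  · exact Or.inl h
  · refine Or.inr ⟨z, hz, ?_, b, mem_Auto.2 ⟨hb1, hb2⟩, hb4, hb3⟩
    rw [image_Auto]
    exact hwz

theorem struc {d : ℕ} (hd : 3 ≤ d) {g : Matrix (Fin d) (Fin d) ℝ} (hg : g.det ≠ 0) {c : ℝ}
    (hc : 0 < c) (hp : Pool.Agent.H89.CSD.Pos c g) (hn : ¬ Pool.Agent.H89.CSD.IntForm g)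
    {Y : Set (Matrix (Fin d) (Fin d) ℝ)} (hY : Y ⊆ Om g) (hinv : IsInv (A1 d) Y) :
    ∃ Y' : Set (Matrix (Fin d) (Fin d) ℝ), Y' ⊆ Y ∧ IsInv (A1 d) Y' ∧
      ∃ b : Fin d → ℝ, (∀ z ∈ Y', b ∈ Auto z) ∧ EqualLevels b ∧
        (∀ k l : Fin d, k ≠ l →
          ((∃ z ∈ Y', (1 + Matrix.single k l (1 : ℝ)) * z ∈ Y') ↔ b k = b l)) ∧
        (∃ M : Finset (Fin d × Fin d), (∀ p ∈ M, p.1 ≠ p.2 ∧ b p.1 = b p.2) ∧
          (∀ p ∈ M, ∀ q ∈ M, p ≠ q → p.1 ≠ q.1 ∧ p.1 ≠ q.2 ∧ p.2 ≠ q.1 ∧ p.2 ≠ q.2) ∧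
          (∀ i j : Fin d, i ≠ j → b i = b j → ∃ p ∈ M, i = p.1 ∨ i = p.2 ∨ j = p.1 ∨ j = p.2) ∧
          ∃ z, ∀ Q ⊆ M, (1 + ∑ p ∈ Q, Matrix.single p.1 p.2 (1 : ℝ)) * z ∈ Y') ∧
        ∀ w : Fin d → ℝ, ∑ i, w i = 0 → (∃ i j, b i = b j ∧ w i ≠ w j) →
          ∀ Z : Set (Matrix (Fin d) (Fin d) ℝ), Z ⊆ Y' →
          IsInv (Set.range fun (t : ℝ) (i : Fin d) => Real.exp (t * w i)) Z → HasShear w Z := by
  obtain ⟨Y', hY', hinv', b, hb1, hb2, hb3, hb4, ⟨M, hM1, hM2, hM3, z, hz⟩, hb6⟩ :=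
    Pool.Agent.H46.RU.structure_thm hd hg hc hp hn hY hinv
  refine ⟨Y', hY', hinv', b, fun z hz => mem_Auto.2 ⟨hb1, hb2 z hz⟩, hb3, hb4,
    ⟨M, fun p hp => ⟨hM1.1 p hp, hM2 p hp⟩, hM1.2, ?_, z, hz⟩, ?_⟩
  · intro i j hij hbij
    rcases hM3 i j hij hbij with h | h
    · obtain ⟨p, hp, h'⟩ := Pool.Agent.H46.MM.mem_idx.1 h
      rcases h' with h' | h'
      · exact ⟨p, hp, Or.inl h'⟩
      · exact ⟨p, hp, Or.inr (Or.inl h')⟩
    · obtain ⟨p, hp, h'⟩ := Pool.Agent.H46.MM.mem_idx.1 h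
      rcases h' with h' | h'
      · exact ⟨p, hp, Or.inr (Or.inr (Or.inl h'))⟩
      · exact ⟨p, hp, Or.inr (Or.inr (Or.inr h'))⟩
  · rintro w hw ⟨i, j, hij, hwij⟩ Z hZ hZinv
    rcases lt_or_gt_of_ne hwij with h | h
    · exact hb6 w hw j i hij.symm h Z hZ hZinv
    · exact hb6 w hw i j hij h Z hZ hZinv

theorem result' (d : ℕ) (hd : 3 ≤ d) (c : ℝ) (hc : 0 < c) :
    ∃ R κ : ℝ, 1 ≤ R ∧ 0 < κ ∧ (∀ g : Matrix (Fin d) (Fin d) ℝ, g.det ≠ 0 →
      (∀ x : Fin d → ℤ, x ≠ 0 → c * |g.det| ≤ |F g x|) → ¬ Integral g →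
      -- at least `κ (log (1 / ε)) ^ (d - d / p)` separated values, `p` the least prime factor of `d`
      (∀ ε : ℝ, 0 < ε → ε < 1 → ∃ T : Finset (Fin d → ℤ),
        κ * Real.log (1 / ε) ^ (d - d / d.minFac) ≤ T.card ∧ (∀ x ∈ T, x ≠ 0 ∧ |F g x| ≤ R * |g.det|) ∧
        ∀ x ∈ T, ∀ y ∈ T, x ≠ y → ε * |g.det| ≤ |F g x - F g y|) ∧
      -- a perfect set of limits of values
      (∀ C : ℝ, (d.factorial : ℝ) / (d : ℝ) ^ d < C →
        ∃ K : Set ℝ, Perfect K ∧ K.Nonempty ∧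
          K ⊆ closure {v | ∃ x : Fin d → ℤ, x ≠ 0 ∧ v = F g x} ∧
          K ⊆ Set.Icc (-(C * |g.det|)) (C * |g.det|)) ∧
      -- the one-parameter groups of diagonal matrices: shear pairs or automorphs
      (∀ w : Fin d → ℝ, ∑ i, w i = 0 → ∀ Z : Set (Matrix (Fin d) (Fin d) ℝ), Z ⊆ Om g →
        IsInv (Set.range fun (t : ℝ) (i : Fin d) => Real.exp (t * w i)) Z →
        HasShear w Z ∨ ∃ z ∈ Z,
          w ∈ Submodule.span ℝ ((fun (a : Fin d → ℝ) (i : Fin d) => Real.log (a i)) '' Auto z) ∧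
          ∃ b ∈ Auto z, EqualLevels b ∧ ∀ i j, b i = b j → w i = w j) ∧
      (∀ Y : Set (Matrix (Fin d) (Fin d) ℝ), Y ⊆ Om g → IsInv (A1 d) Y →
        -- a smaller invariant set `Y'` with a common automorph `b`
        (∃ Y' : Set (Matrix (Fin d) (Fin d) ℝ), Y' ⊆ Y ∧ IsInv (A1 d) Y' ∧
          ∃ b : Fin d → ℝ, (∀ z ∈ Y', b ∈ Auto z) ∧ EqualLevels b ∧
            -- the root directions
            (∀ k l : Fin d, k ≠ l →
              ((∃ z ∈ Y', (1 + Matrix.single k l (1 : ℝ)) * z ∈ Y') ↔ b k = b l)) ∧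
            -- disjoint pairs of indices, all products of their shears
            (∃ M : Finset (Fin d × Fin d), (∀ p ∈ M, p.1 ≠ p.2 ∧ b p.1 = b p.2) ∧
              (∀ p ∈ M, ∀ q ∈ M, p ≠ q → p.1 ≠ q.1 ∧ p.1 ≠ q.2 ∧ p.2 ≠ q.1 ∧ p.2 ≠ q.2) ∧
              (∀ i j : Fin d, i ≠ j → b i = b j → ∃ p ∈ M, i = p.1 ∨ i = p.2 ∨ j = p.1 ∨ j = p.2) ∧
              ∃ z, ∀ Q ⊆ M, (1 + ∑ p ∈ Q, Matrix.single p.1 p.2 (1 : ℝ)) * z ∈ Y') ∧
            -- the one-parameter groups which are not constant on the level sets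
            ∀ w : Fin d → ℝ, ∑ i, w i = 0 → (∃ i j, b i = b j ∧ w i ≠ w j) →
              ∀ Z : Set (Matrix (Fin d) (Fin d) ℝ), Z ⊆ Y' →
              IsInv (Set.range fun (t : ℝ) (i : Fin d) => Real.exp (t * w i)) Z → HasShear w Z) ∧
        -- uncountably many minimal sets
        ∀ m : Fin d, ¬ {N : Set (Matrix (Fin d) (Fin d) ℝ) |
          N ⊆ Y ∧ IsMin (Flow (Finset.univ.erase m)) N}.Countable) ∧
      -- no algebraic block in the closed orbit
      (∀ g' ∈ Om g, ∀ (K : Type) [Field K] [NumberField K], Module.finrank ℚ K ≤ d →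
        ∀ (w : Fin d → K) (T : Set (K →+* ℂ)),
        (∀ L : Subfield K, NumberField.IsTotallyReal L →
          (∀ σ τ : K →+* ℂ, (∀ x ∈ L, σ x = τ x) → σ ∈ T → τ ∈ T) → L = ⊤) →
        ∀ I : Set (Fin d), I.Nonempty →
          Submodule.span ℂ ((fun i j => (g' i j : ℂ)) '' I) ≠
            Submodule.span ℂ ((fun (σ : K →+* ℂ) j => σ (w j)) '' T))) ∧
    -- the products of the distances of the multiples of `d - 1` numbers to the nearest integers
    ∀ m : ℕ, d = m + 1 → ∀ α : Fin m → ℝ, (∃ N : ℕ, ∀ q : ℕ, N ≤ q → 0 < q → c ≤ L α q) →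
      (∀ ε : ℝ, 0 < ε → ε < 1 → ∃ T : Finset ℝ,
        κ * Real.log (1 / ε) ^ (d - d / d.minFac) ≤ T.card ∧
        (∀ v ∈ T, 0 < v ∧ v ≤ R ∧ MapClusterPt v Filter.atTop (L α)) ∧
        ∀ v ∈ T, ∀ v' ∈ T, v ≠ v' → ε ≤ |v - v'|) ∧
      ∀ C : ℝ, (d.factorial : ℝ) / (d : ℝ) ^ d < C →
        ∃ K : Set ℝ, Perfect K ∧ K.Nonempty ∧ K ⊆ Set.Ioc 0 C ∧
          ∀ v ∈ K, MapClusterPt v Filter.atTop (L α) := by
  obtain ⟨R₁, κ₁, hR₁, hκ₁, h1⟩ := Pool.Agent.H66.RL.log_pow (d := d) hd hc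
  obtain ⟨m, rfl⟩ : ∃ m, d = m + 1 := ⟨d - 1, by omega⟩
  obtain ⟨R₂, κ₂, hκ₂, h2⟩ := Pool.Agent.H81.LW.log_limit_points (m := m) (by omega) hc
  have hmono : ∀ ε κ' : ℝ, 0 < ε → ε < 1 → min κ₁ κ₂ ≤ κ' →
      min κ₁ κ₂ * Real.log (1 / ε) ^ (m + 1 - (m + 1) / (m + 1).minFac) ≤
        κ' * Real.log (1 / ε) ^ (m + 1 - (m + 1) / (m + 1).minFac) := by
    intro ε κ' h0 h1' h
    apply mul_le_mul_of_nonneg_right h
    apply pow_nonneg
    apply Real.log_nonneg
    rw [le_div_iff₀ h0]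
    linarith
  refine ⟨max R₁ R₂, min κ₁ κ₂, le_max_of_le_left hR₁, lt_min hκ₁ hκ₂, ?_, ?_⟩
  · intro g hg hlow hint
    have hdet : 0 < |g.det| := abs_pos.2 hg
    have hcg : 0 < c * |g.det| := mul_pos hc hdet
    refine ⟨?_, fun C hC => values_perfect hd hg hcg hlow hint C
        (fun h hh => Pool.Agent.H81.LW.mink_l1 (by omega) hC h hh),
      fun w hw Z hZ hinv => dich hd hg hcg hlow hint hw hZ hinv,
      fun Y hY hinv => ⟨struc hd hg hcg hlow hint hY hinv,
        fun m => uncountable_min hd hg hcg hlow hint hY hinv m⟩, ?_⟩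
    · intro ε h0 h1'
      obtain ⟨T, hT1, hT2, hT3⟩ := h1 g hg hlow hint ε h0 h1'
      refine ⟨T, (hmono ε κ₁ h0 h1' (min_le_left _ _)).trans hT1, fun x hx => ⟨(hT2 x hx).1,
        (hT2 x hx).2.trans (mul_le_mul_of_nonneg_right (le_max_left _ _) hdet.le)⟩, hT3⟩
    · intro g' hg' K _ _ hK w T hT I hI hblock
      have hg'd : g'.det ≠ 0 := Om_det_ne hg hg'
      apply hint
      refine H46.AB.main (m + 1) hd g g' hg hg'd ?_ K w hK T hT I hI hblock (c * |g.det|) hcg hlow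
      have h2 := hg'.1
      refine closure_mono ?_ h2
      rintro h ⟨a, -, γ, hγ, rfl⟩
      exact ⟨a, γ, hγ, rfl⟩
  · intro m' hm' α hN
    obtain rfl : m = m' := by omega
    refine ⟨?_, ?_⟩
    · intro ε h0 h1'
      obtain ⟨T, hT1, hT2, hT3⟩ := h2 α hN ε h0 h1'
      exact ⟨T, (hmono ε κ₂ h0 h1' (min_le_right _ _)).trans hT1, fun v hv => ⟨(hT2 v hv).1,
        (hT2 v hv).2.1.trans (le_max_right _ _), (hT2 v hv).2.2⟩, hT3⟩
    · intro C hC
      rcases Pool.Agent.H81.LW.perfect_limit_points (m := m) (by omega) α C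
        (fun h hh => Pool.Agent.H81.LW.mink_l1 (by omega) hC h hh) with h3 | h3
      · exfalso
        obtain ⟨N, hN⟩ := hN
        obtain ⟨q, hq1, hq2, hq3⟩ := h3 c hc N
        exact absurd hq3 (not_lt.2 (hN q hq1 hq2))
      · exact h3

end Pool.Agent.H46.RU.Main
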