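import Pool.Agent.H46.RU.Cha
import Pool.Agent.H46.RU.Roo
import Pool.Agent.H46.MM.Mat

/-!
# A matching which leaves at most one index of each level set of `b`

A set `M` of disjoint pairs with `(Zm Y M s).Nonempty`, `s p ≠ 0`, of the largest cardinality.  Its pairs are inside level
sets (`roots_only`).  If `i ≠ j`, `b i = b j`, are not in `idx M`: `chain_ind` with `I = {i}`, `J` the set of `i`, of the
indices of `M` and of the indices outside the level set (so `j ∉ J`), and `path` give a larger one.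
-/

set_option autoImplicit false

namespace Pool.Agent.H46.RU

open Matrix Filter Topology Pool.Agent.H89.CSD Pool.Agent.H46.RG Pool.Agent.H46.MM

variable {d : ℕ}

theorem pairs_in {g : Matrix (Fin d) (Fin d) ℝ} (hg : g.det ≠ 0)
    {c : ℝ} (hc : 0 < c) (hp : Pos c g) {Y : Set (Matrix (Fin d) (Fin d) ℝ)}
    (hY : Y ⊆ Om g) {b : Fin d → ℝ} (hbY : b ∈ DA Y) {M : Finset (Fin d × Fin d)} (hM : Dis M)
    {s : Fin d × Fin d → ℝ} (hs : ∀ p ∈ M, s p ≠ 0) (hne : (Zm Y M s).Nonempty) :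
    ∀ p ∈ M, b p.1 = b p.2 := by
  intro p hpM
  obtain ⟨z, hz⟩ := hne
  have h1 := hz {p} (Finset.singleton_subset_iff.2 hpM)
  rw [sh, Finset.sum_singleton] at h1
  exact roots_only hg hc hp hY hbY (hM.1 p hpM) (hs p hpM) (Zm_subset hz) h1

theorem enlarge {g : Matrix (Fin d) (Fin d) ℝ} (hg : g.det ≠ 0)
    {c : ℝ} (hc : 0 < c) (hp : Pos c g) {Y : Set (Matrix (Fin d) (Fin d) ℝ)}
    (hY : Y ⊆ Om g) (hinv : IsInv (A1 d) Y) {b : Fin d → ℝ} (hbY : b ∈ DA Y) (hbs : Sep Y b)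
    {M : Finset (Fin d × Fin d)} (hM : Dis M) {s : Fin d × Fin d → ℝ} (hs : ∀ p ∈ M, s p ≠ 0)
    (hne : (Zm Y M s).Nonempty) {x y : Fin d} (hxy : x ≠ y) (hb : b x = b y) (hx : x ∉ idx M)
    (hy : y ∉ idx M) :
    ∃ (M' : Finset (Fin d × Fin d)) (s' : Fin d × Fin d → ℝ), M'.card = M.card + 1 ∧ Dis M' ∧
        (∀ p ∈ M', s' p ≠ 0) ∧ (Zm Y M' s').Nonempty := by
  classical
  obtain ⟨J, hJ⟩ : ∃ J : Finset (Fin d), ∀ i, i ∈ J ↔ i = x ∨ i ∈ idx M ∨ b i ≠ b x :=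
    ⟨Finset.univ.filter fun i => i = x ∨ i ∈ idx M ∨ b i ≠ b x, by simp⟩
  have hyJ : y ∉ J := by
    rw [hJ]
    rintro (h | h | h)
    · exact hxy h.symm
    · exact hy h
    · exact h hb.symm
  have hxJ : x ∈ J := (hJ x).2 (Or.inl rfl)
  have hMJ : idx M ⊆ J := fun i hi => (hJ i).2 (Or.inr (Or.inl hi))
  have hinv' : IsInv (G M {x}) (Zm Y M s) := by
    refine (Zm_inv hinv hne).mono fun a ha => ⟨ha.1, ha.2.1, fun i hi => ?_⟩
    simp at hi
  obtain ⟨ws, hws, hne'⟩ := chain_ind hg hc hp hY hbY hbs (r := b x) (J := J) (c0 := y) hyJ hb.symm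
    M.card M {x} rfl hM (pairs_in hg hc hp hY hbY hM hs hne)
    (by
      intro i hi
      rw [Finset.mem_singleton.1 hi]
      exact hxJ) hMJ
    (by
      intro i hi hib
      rcases (hJ i).1 hi with h | h | h
      · exact Or.inl (Finset.mem_singleton.2 h)
      · exact Or.inr h
      · exact absurd hib h)
    (by
      intro i hi
      by_contra h
      exact hi ((hJ i).2 (Or.inr (Or.inr h))))
    (Finset.disjoint_singleton_left.mpr hx) (Finset.singleton_nonempty x)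
    (by
      intro i hi
      rw [Finset.mem_singleton.1 hi]) (Zm Y M s) Zm_subset hinv'
  exact path hg hc hp hY hinv ws M M s x (Finset.Subset.refl _) hM hx hxJ hMJ hs
    (Chn_mono (Finset.Subset.refl _) (fun i hi => Finset.mem_singleton.mp hi) hws) hne'

theorem matching {g : Matrix (Fin d) (Fin d) ℝ} (hg : g.det ≠ 0)
    {c : ℝ} (hc : 0 < c) (hp : Pos c g) {Y : Set (Matrix (Fin d) (Fin d) ℝ)}
    (hY : Y ⊆ Om g) (hinv : IsInv (A1 d) Y) {b : Fin d → ℝ} (hbY : b ∈ DA Y) (hbs : Sep Y b) :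
    ∃ M : Finset (Fin d × Fin d), Dis M ∧ (∀ p ∈ M, b p.1 = b p.2) ∧
      (∀ i j, i ≠ j → b i = b j → i ∈ idx M ∨ j ∈ idx M) ∧
      ∃ z, ∀ Q ⊆ M, (1 + ∑ p ∈ Q, Matrix.single p.1 p.2 1) * z ∈ Y := by
  classical
  have key : ∀ n : ℕ, ∀ (M : Finset (Fin d × Fin d)) (s : Fin d × Fin d → ℝ),
      d - M.card = n → Dis M → (∀ p ∈ M, s p ≠ 0) → (Zm Y M s).Nonempty →
      ∃ (M : Finset (Fin d × Fin d)) (s : Fin d × Fin d → ℝ), Dis M ∧
        (∀ p ∈ M, s p ≠ 0) ∧ (Zm Y M s).Nonempty ∧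
        ∀ i j, i ≠ j → b i = b j → i ∈ idx M ∨ j ∈ idx M := by
    intro n
    induction n using Nat.strong_induction_on with
    | _ n ih =>
    intro M s hn hM hs hne
    by_cases h : ∀ i j, i ≠ j → b i = b j → i ∈ idx M ∨ j ∈ idx M
    · exact ⟨M, s, hM, hs, hne, h⟩
    · push Not at h
      obtain ⟨x, y, hxy, hb, hx, hy⟩ := h
      obtain ⟨M', s', hc', hM', hs', hne'⟩ := enlarge hg hc hp hY hinv hbY hbs hM hs hne hxy hb hx hy
      have h1 := card_idx hM'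
      have h2 : (idx M').card ≤ d := by
        have h3 := Finset.card_le_univ (idx M')
        rwa [Fintype.card_fin] at h3
      exact ih (d - M'.card) (by omega) M' s' rfl hM' hs' hne'
  obtain ⟨z, hz⟩ := hinv.nonempty
  obtain ⟨M, s, hM, hs, hne, hmax⟩ := key (d - (∅ : Finset (Fin d × Fin d)).card) ∅ (fun _ => 1)
    rfl ⟨by simp, by simp⟩ (by simp) ⟨z, by
      intro Q hQ
      rw [Finset.subset_empty.mp hQ]
      simpa [sh] using hz⟩
  obtain ⟨y, hy⟩ := normalise hinv hM hs hne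
  exact ⟨M, hM, pairs_in hg hc hp hY hbY hM hs hne, hmax, y, fun Q hQ => hy Q hQ⟩

end Pool.Agent.H46.RU
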