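import Pool.Agent.H46.RU.Defs

/-!
# [H46 RU OPL] One-parameter limits (75 min; only Mathlib is used)

`mx` is a norm: `mx (A + B) ≤ mx A + mx B`, `mx (c • A) = |c| mx A`, `mx A = 0 ↔ A = 0`, `mx (A * B) ≤ mx A * mx B`, continuous.

`opl`.  Let `E n = R n - 1 → 0`, `r n = mx (E n) > 0`, `X n = (r n)⁻¹ • E n`, `mx (X n) = 1`.  All `X n` are in the compact set
`{A | ∀ i j, |A i j| ≤ 1}`, so a subsequence converges, `X (φ n) → X`, `mx X = 1`.
Let `s ≥ 0` and `k n = ⌊s / r (φ n)⌋₊`, so `k n * r (φ n) → s`.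
With `a = R (φ n)`, `b = exp (E (φ n))` (`NormedSpace.exp`): `‖a - b‖ ≤ ‖E‖² exp ‖E‖` and `‖a ^ k - b ^ k‖ ≤ k (exp ‖E‖)^(k - 1) ‖a - b‖`
(telescoping, `‖a‖ ≤ 1 + ‖E‖ ≤ exp ‖E‖`, `‖b‖ ≤ exp ‖E‖`), so `‖a ^ k - b ^ k‖ ≤ k exp (k ‖E‖) ‖E‖² → 0` because `k ‖E‖` is
bounded and `‖E‖ → 0`.  `b ^ k = exp (k • E) → exp (s • X)` because `k n • E (φ n) = (k n * r (φ n)) • X (φ n) → s • X` and `exp` is
continuous (`NormedSpace.exp_continuous`, `Matrix.exp_nsmul` / `Matrix.exp_sum_of_commute`, see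
`Mathlib/Analysis/Normed/Algebra/MatrixExponential.lean`, which works with `open scoped Matrix.Norms.Operator`).
Any submultiplicative norm of matrices may be used.  If you prefer: prove the statement for a sequence in a
complete normed algebra first.
-/

set_option autoImplicit false

namespace Pool.Agent.H46.RU

open Matrix Filter Topology

variable {d : ℕ}

theorem mx_add_le (A B : Matrix (Fin d) (Fin d) ℝ) : mx (A + B) ≤ mx A + mx B := by
  unfold mx
  rw [← Finset.sum_add_distrib]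
  refine Finset.sum_le_sum fun i _ => ?_
  rw [← Finset.sum_add_distrib]
  exact Finset.sum_le_sum fun j _ => abs_add_le _ _

theorem mx_smul (c : ℝ) (A : Matrix (Fin d) (Fin d) ℝ) : mx (c • A) = |c| * mx A := by
  unfold mx
  rw [Finset.mul_sum]
  refine Finset.sum_congr rfl fun i _ => ?_
  rw [Finset.mul_sum]
  refine Finset.sum_congr rfl fun j _ => ?_
  rw [Matrix.smul_apply, smul_eq_mul, abs_mul]

theorem mx_eq_zero {A : Matrix (Fin d) (Fin d) ℝ} : mx A = 0 ↔ A = 0 := by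
  unfold mx
  constructor
  · intro h
    rw [Finset.sum_eq_zero_iff_of_nonneg fun i _ => Finset.sum_nonneg fun j _ => abs_nonneg _] at h
    ext i j
    have h1 := h i (Finset.mem_univ i)
    rw [Finset.sum_eq_zero_iff_of_nonneg fun j _ => abs_nonneg _] at h1
    exact abs_eq_zero.1 (h1 j (Finset.mem_univ j))
  · rintro rfl
    simp

theorem mx_nonneg (A : Matrix (Fin d) (Fin d) ℝ) : 0 ≤ mx A := by
  unfold mx
  exact Finset.sum_nonneg fun i _ => Finset.sum_nonneg fun j _ => abs_nonneg _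

theorem mx_mul_le (A B : Matrix (Fin d) (Fin d) ℝ) : mx (A * B) ≤ mx A * mx B := by
  unfold mx
  have h1 : ∀ i, ∑ j, |(A * B) i j| ≤ ∑ k, |A i k| * ∑ k', ∑ j, |B k' j| := by
    intro i
    calc ∑ j, |(A * B) i j| ≤ ∑ j, ∑ k, |A i k| * |B k j| := by
          refine Finset.sum_le_sum fun j _ => ?_
          rw [Matrix.mul_apply]
          refine (Finset.abs_sum_le_sum_abs _ _).trans (le_of_eq ?_)
          exact Finset.sum_congr rfl fun k _ => abs_mul _ _
      _ = ∑ k, |A i k| * ∑ j, |B k j| := by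
          rw [Finset.sum_comm]
          exact Finset.sum_congr rfl fun k _ => by rw [Finset.mul_sum]
      _ ≤ _ := by
          refine Finset.sum_le_sum fun k _ => ?_
          apply mul_le_mul_of_nonneg_left _ (abs_nonneg _)
          exact Finset.single_le_sum (f := fun k' => ∑ j, |B k' j|)
            (fun k' _ => Finset.sum_nonneg fun j _ => abs_nonneg _) (Finset.mem_univ k)
  refine (Finset.sum_le_sum fun i _ => h1 i).trans (le_of_eq ?_)
  rw [Finset.sum_mul]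
  exact Finset.sum_congr rfl fun i _ => by rw [Finset.sum_mul]

theorem mx_continuous : Continuous (mx : Matrix (Fin d) (Fin d) ℝ → ℝ) := by
  unfold mx
  refine continuous_finsetSum _ fun i _ => continuous_finsetSum _ fun j _ => ?_
  exact (continuous_apply_apply i j).abs

section alg

variable {𝔸 : Type*} [NormedRing 𝔸] [NormedAlgebra ℝ 𝔸] [NormedAlgebra ℚ 𝔸] [CompleteSpace 𝔸]
  [NormOneClass 𝔸]

private lemma opl_norm_exp (x : 𝔸) : ‖NormedSpace.exp x‖ ≤ Real.exp ‖x‖ := by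
  have h1 := NormedSpace.exp_series_hasSum_exp' (𝕂 := ℝ) x
  have h2 : HasSum (fun n => ((n.factorial : ℝ))⁻¹ * ‖x‖ ^ n) (Real.exp ‖x‖) := by
    have h3 := NormedSpace.exp_series_hasSum_exp' (𝕂 := ℝ) (𝔸 := ℝ) ‖x‖
    rw [← Real.exp_eq_exp_ℝ] at h3
    simpa only [smul_eq_mul] using h3
  rw [← h1.tsum_eq, ← h2.tsum_eq]
  refine tsum_of_norm_bounded h2.summable.hasSum fun n => ?_
  rw [norm_smul, norm_inv, Real.norm_natCast]
  gcongr
  exact norm_pow_le x n

private lemma opl_pow_sub (a b : 𝔸) (hab : Commute a b) (M : ℝ) (ha : ‖a‖ ≤ M) (hb : ‖b‖ ≤ M) (hM : 1 ≤ M)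
    (k : ℕ) : ‖a ^ k - b ^ k‖ ≤ k * M ^ k * ‖a - b‖ := by
  rw [← hab.geom_sum₂_mul]
  refine (norm_mul_le _ _).trans ?_
  gcongr
  refine (norm_sum_le _ _).trans ?_
  have h1 : ∀ i ∈ Finset.range k, ‖a ^ i * b ^ (k - 1 - i)‖ ≤ M ^ k := by
    intro i hi
    rw [Finset.mem_range] at hi
    calc ‖a ^ i * b ^ (k - 1 - i)‖ ≤ ‖a‖ ^ i * ‖b‖ ^ (k - 1 - i) :=
          (norm_mul_le _ _).trans (mul_le_mul (norm_pow_le _ _) (norm_pow_le _ _) (norm_nonneg _) (by positivity))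
      _ ≤ M ^ i * M ^ (k - 1 - i) := by gcongr
      _ = M ^ (i + (k - 1 - i)) := by rw [pow_add]
      _ ≤ M ^ k := pow_le_pow_right₀ hM (by omega)
  refine (Finset.sum_le_sum h1).trans (le_of_eq ?_)
  rw [Finset.sum_const, Finset.card_range, nsmul_eq_mul]

private lemma opl_alg (E : ℕ → 𝔸) (k : ℕ → ℕ) (S : 𝔸) (hE : Tendsto E atTop (𝓝 0))
    (hk : Tendsto (fun n => (k n : ℝ) • E n) atTop (𝓝 S)) :
    Tendsto (fun n => (1 + E n) ^ k n) atTop (𝓝 (NormedSpace.exp S)) := by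
  have h1 : Tendsto (fun n => NormedSpace.exp (E n) ^ k n) atTop (𝓝 (NormedSpace.exp S)) := by
    have h2 := hk.exp
    refine h2.congr fun n => ?_
    rw [Nat.cast_smul_eq_nsmul, NormedSpace.exp_nsmul]
  have hbd : ∀ᶠ n in atTop, (k n : ℝ) * ‖E n‖ ≤ ‖S‖ + 1 := by
    have h2 := hk.norm
    have h3 := h2.eventually (Iio_mem_nhds (lt_add_one ‖S‖))
    filter_upwards [h3] with n hn
    have h4 : ‖(k n : ℝ) • E n‖ < ‖S‖ + 1 := hn
    rw [norm_smul, Real.norm_natCast] at h4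
    exact h4.le
  have hder := (hasFDerivAt_exp_zero (𝕂 := ℝ) (𝔸 := 𝔸)).isLittleO
  have hdiff : Tendsto (fun n => (1 + E n) ^ k n - NormedSpace.exp (E n) ^ k n) atTop (𝓝 0) := by
    rw [Metric.tendsto_atTop']
    intro ε hε
    have hC : 0 < ‖S‖ + 1 := by positivity
    have hexp : 0 < Real.exp (‖S‖ + 1) := Real.exp_pos _
    have hη : 0 < ε / 2 / (Real.exp (‖S‖ + 1) * (‖S‖ + 1)) := by positivity
    have h2 := hE.eventually (hder.def hη)
    obtain ⟨N, hN⟩ := eventually_atTop.1 (h2.and hbd)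
    refine ⟨N, fun n hn => ?_⟩
    obtain ⟨h3, h4⟩ := hN n hn.le
    rw [dist_zero_right]
    simp only [NormedSpace.exp_zero, sub_zero] at h3
    have h5 : ‖NormedSpace.exp (E n) - 1 - E n‖ ≤ ε / 2 / (Real.exp (‖S‖ + 1) * (‖S‖ + 1)) * ‖E n‖ := h3
    have hcom : Commute (1 + E n) (NormedSpace.exp (E n)) :=
      ((Commute.one_left _).add_left ((Commute.refl (E n)).exp_right))
    have ha : ‖1 + E n‖ ≤ Real.exp ‖E n‖ := by
      refine (norm_add_le _ _).trans ?_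
      rw [norm_one, add_comm]
      exact Real.add_one_le_exp _
    have h6 := opl_pow_sub (1 + E n) (NormedSpace.exp (E n)) hcom (Real.exp ‖E n‖) ha (opl_norm_exp _)
      (Real.one_le_exp (norm_nonneg _)) (k n)
    have h7 : ‖1 + E n - NormedSpace.exp (E n)‖ = ‖NormedSpace.exp (E n) - 1 - E n‖ := by
      rw [← norm_neg]
      congr 1
      abel
    rw [h7, ← Real.exp_nat_mul] at h6
    have h8 : Real.exp ((k n : ℝ) * ‖E n‖) ≤ Real.exp (‖S‖ + 1) := Real.exp_le_exp.2 h4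
    calc ‖(1 + E n) ^ k n - NormedSpace.exp (E n) ^ k n‖
        ≤ (k n : ℝ) * Real.exp ((k n : ℝ) * ‖E n‖) * ‖NormedSpace.exp (E n) - 1 - E n‖ := h6
      _ ≤ (k n : ℝ) * Real.exp (‖S‖ + 1) * (ε / 2 / (Real.exp (‖S‖ + 1) * (‖S‖ + 1)) * ‖E n‖) := by
          gcongr
      _ = ((k n : ℝ) * ‖E n‖) * (ε / 2 / (‖S‖ + 1)) := by field_simp
      _ ≤ (‖S‖ + 1) * (ε / 2 / (‖S‖ + 1)) := by gcongr
      _ = ε / 2 := by field_simp
      _ < ε := by linarith
  have h9 := hdiff.add h1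
  rw [zero_add] at h9
  refine h9.congr fun n => ?_
  abel

end alg

set_option backward.isDefEq.respectTransparency false in
open scoped Matrix.Norms.Operator in
private lemma opl_mat (hd : 0 < d) (E : ℕ → Matrix (Fin d) (Fin d) ℝ) (k : ℕ → ℕ) (S : Matrix (Fin d) (Fin d) ℝ)
    (hE : Tendsto E atTop (𝓝 0)) (hk : Tendsto (fun n => (k n : ℝ) • E n) atTop (𝓝 S)) :
    Tendsto (fun n => (1 + E n) ^ k n) atTop (𝓝 (NormedSpace.exp S)) := by
  haveI : Nonempty (Fin d) := ⟨⟨0, hd⟩⟩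
  exact opl_alg E k S hE hk

theorem opl {R : ℕ → Matrix (Fin d) (Fin d) ℝ} (hR : Tendsto R atTop (𝓝 1))
    (hne : ∀ n, R n ≠ 1) :
    ∃ (φ : ℕ → ℕ) (X : Matrix (Fin d) (Fin d) ℝ), StrictMono φ ∧ mx X = 1 ∧
      Tendsto (fun n => (mx (R (φ n) - 1))⁻¹ • (R (φ n) - 1)) atTop (𝓝 X) ∧
      ∀ s : ℝ, 0 ≤ s → ∃ k : ℕ → ℕ,
        Tendsto (fun n => R (φ n) ^ k n) atTop (𝓝 (NormedSpace.exp (s • X))) := by
  have hd : 0 < d := by
    rcases Nat.eq_zero_or_pos d with h | h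
    · subst h
      exact absurd (Subsingleton.elim _ _) (hne 0)
    · exact h
  have hE0 : Tendsto (fun n => R n - 1) atTop (𝓝 0) := by
    have h := hR.sub_const (1 : Matrix (Fin d) (Fin d) ℝ)
    rwa [sub_self] at h
  have hr0 : Tendsto (fun n => mx (R n - 1)) atTop (𝓝 0) := by
    have h := (mx_continuous (d := d)).tendsto 0 |>.comp hE0
    rwa [mx_eq_zero.2 rfl] at h
  have hrpos : ∀ n, 0 < mx (R n - 1) := by
    intro n
    rcases (mx_nonneg (R n - 1)).lt_or_eq with h | h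
    · exact h
    · exact absurd (sub_eq_zero.1 (mx_eq_zero.1 h.symm)) (hne n)
  have hmx1 : ∀ n, mx ((mx (R n - 1))⁻¹ • (R n - 1)) = 1 := by
    intro n
    rw [mx_smul, abs_of_pos (inv_pos.2 (hrpos n)), inv_mul_cancel₀ (hrpos n).ne']
  have hcomp : IsCompact (Set.univ.pi (fun _ : Fin d => Set.univ.pi fun _ : Fin d => Set.Icc (-1 : ℝ) 1)) :=
    isCompact_univ_pi fun _ => isCompact_univ_pi fun _ => isCompact_Icc
  have hmem : ∀ n, ((mx (R n - 1))⁻¹ • (R n - 1) : Matrix (Fin d) (Fin d) ℝ) ∈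
      (Set.univ.pi (fun _ : Fin d => Set.univ.pi fun _ : Fin d => Set.Icc (-1 : ℝ) 1)) := by
    intro n i _ j _
    have h1 := hmx1 n
    have h2 : |((mx (R n - 1))⁻¹ • (R n - 1) : Matrix (Fin d) (Fin d) ℝ) i j| ≤ 1 := by
      rw [← h1]
      unfold mx
      refine le_trans ?_ (Finset.single_le_sum (f := fun i => ∑ j, |_|)
        (fun i _ => Finset.sum_nonneg fun j _ => abs_nonneg _) (Finset.mem_univ i))
      exact Finset.single_le_sum (f := fun j => |_|) (fun j _ => abs_nonneg _) (Finset.mem_univ j)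
    exact abs_le.1 h2
  obtain ⟨X, -, φ, hφ, hX⟩ := hcomp.tendsto_subseq hmem
  have hX' : Tendsto (fun n => (mx (R (φ n) - 1))⁻¹ • (R (φ n) - 1)) atTop (𝓝 (X : Matrix (Fin d) (Fin d) ℝ)) := hX
  refine ⟨φ, X, hφ, ?_, hX', ?_⟩
  · have h1 := ((mx_continuous (d := d)).tendsto X).comp hX'
    have h2 : Tendsto (fun _ : ℕ => (1 : ℝ)) atTop (𝓝 (mx (X : Matrix (Fin d) (Fin d) ℝ))) :=
      h1.congr fun n => hmx1 (φ n)
    exact tendsto_nhds_unique h2 tendsto_const_nhds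
  · intro s hs
    refine ⟨fun n => ⌊s / mx (R (φ n) - 1)⌋₊, ?_⟩
    have hrφ : Tendsto (fun n => mx (R (φ n) - 1)) atTop (𝓝 0) := hr0.comp hφ.tendsto_atTop
    have hkr : Tendsto (fun n => (⌊s / mx (R (φ n) - 1)⌋₊ : ℝ) * mx (R (φ n) - 1)) atTop (𝓝 s) := by
      refine tendsto_of_tendsto_of_tendsto_of_le_of_le (g := fun n => s - mx (R (φ n) - 1)) (h := fun _ => s)
        ?_ tendsto_const_nhds ?_ ?_
      · have := tendsto_const_nhds (x := s) |>.sub hrφ
        rwa [sub_zero] at this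
      · intro n
        have h1 := Nat.lt_floor_add_one (s / mx (R (φ n) - 1))
        rw [div_lt_iff₀ (hrpos (φ n))] at h1
        show s - mx (R (φ n) - 1) ≤ _
        linarith
      · intro n
        have h1 := Nat.floor_le (a := s / mx (R (φ n) - 1)) (div_nonneg hs (hrpos (φ n)).le)
        rwa [le_div_iff₀ (hrpos (φ n))] at h1
    have h2 := opl_mat hd (fun n => R (φ n) - 1) (fun n => ⌊s / mx (R (φ n) - 1)⌋₊) (s • X)
      (hE0.comp hφ.tendsto_atTop) (by
        have h3 := hkr.smul hX'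
        refine h3.congr fun n => ?_
        rw [smul_smul, mul_assoc, mul_inv_cancel₀ (hrpos (φ n)).ne', mul_one])
    refine h2.congr fun n => ?_
    rw [add_sub_cancel]

end Pool.Agent.H46.RU
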