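import Pool.Agent.H46.RU.Defs

/-!
# [H46 RU REC] Recurrence in minimal sets (50 min)

Let `S n = {diag (gflow w t) * y * im V | t ≥ n, V}` and `ω = ⋂ n, closure (S n)`.  `S n ⊆ M` (`M` is invariant), `M` closed: `ω ⊆ M`.
`ω` is closed, invariant under `GL_d(ℤ)` on the right (`h ↦ h * γ` is continuous and maps `S n` to itself) and under
`diag (gflow w s)` (it maps `S n` to `S m` as soon as `m ≤ n + s`; for given `m` take `n ≥ m - s`, `n ≥ m`), nonempty: `subseq` for the
sequence `diag (gflow w n) * y` gives a limit of elements of `S (φ n)`, `φ n ≥ n`.  So `IsInv (GFlow w) ω`, `ω = M` by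
minimality.  `z ∈ ω`: for every `n` there is an element of `S n` whose entries differ from those of `z` by less than
`1 / (n + 1)` (the set of these matrices is a neighbourhood of `z`); `tendsto_pi_nhds`.
-/

set_option autoImplicit false

namespace Pool.Agent.H46.RU

open Matrix Filter Topology Pool.Agent.H89.CSD Pool.Agent.H46.RG Pool.Agent.H81.GF

variable {d : ℕ}

private def recS (w : Fin d → ℝ) (y : Matrix (Fin d) (Fin d) ℝ) (n : ℕ) :
    Set (Matrix (Fin d) (Fin d) ℝ) :=
  {h | ∃ t : ℝ, (n : ℝ) ≤ t ∧ ∃ V : (Matrix (Fin d) (Fin d) ℤ)ˣ,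
    h = diagonal (gflow w t) * y * im (V : Matrix (Fin d) (Fin d) ℤ)}

private lemma rec_im_mul (A B : Matrix (Fin d) (Fin d) ℤ) : im (A * B) = im A * im B := by
  unfold im
  ext i j
  simp [Matrix.mul_apply]

private lemma rec_diag (w : Fin d → ℝ) (s t : ℝ) :
    diagonal (gflow w s) * diagonal (gflow w t) = diagonal (gflow w (s + t)) := by
  rw [diagonal_mul_diagonal]
  congr 1
  ext i
  rw [gflow_add]

theorem rec_min {g : Matrix (Fin d) (Fin d) ℝ} (hg : g.det ≠ 0) {c : ℝ} (hc : 0 < c)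
    (hp : Pos c g) {w : Fin d → ℝ} (hw : ∑ i, w i = 0) {M : Set (Matrix (Fin d) (Fin d) ℝ)}
    (hM : M ⊆ Om g) (hmin : IsMin (GFlow w) M) {y z : Matrix (Fin d) (Fin d) ℝ} (hy : y ∈ M)
    (hz : z ∈ M) :
    ∃ (t : ℕ → ℝ) (V : ℕ → (Matrix (Fin d) (Fin d) ℤ)ˣ), Tendsto t atTop atTop ∧
      Tendsto (fun n => diagonal (gflow w (t n)) * y * im (V n : Matrix (Fin d) (Fin d) ℤ)) atTop
        (𝓝 z) := by
  have hSM : ∀ n, recS w y n ⊆ M := by
    rintro n _ ⟨t, -, V, rfl⟩
    exact hmin.1.im (hmin.1.diag _ ⟨t, rfl⟩ y hy) V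
  have hinv : IsInv (GFlow w) (⋂ n, closure (recS w y n)) := by
    refine ⟨?_, isClosed_iInter fun n => isClosed_closure, ?_, ?_⟩
    · obtain ⟨w0, -, φ, U, hφ, hlim⟩ := subseq hg hc hp hM hmin.1
        (fun n : ℕ => diagonal (gflow w n) * y) (fun n => hmin.1.diag _ ⟨n, rfl⟩ y hy)
      refine ⟨w0, Set.mem_iInter.2 fun m => mem_closure_of_tendsto hlim ?_⟩
      filter_upwards [eventually_ge_atTop m] with n hn
      refine ⟨(φ n : ℝ), ?_, U n, rfl⟩
      exact_mod_cast hn.trans hφ.le_apply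
    · intro h hh γ hγ
      obtain ⟨U, rfl⟩ := exists_unit hγ
      rw [Set.mem_iInter] at hh ⊢
      intro n
      refine map_mem_closure (f := fun h => h * (U : Matrix (Fin d) (Fin d) ℤ).map (Int.cast : ℤ → ℝ))
        (by fun_prop) (hh n) ?_
      rintro _ ⟨t, ht, V, rfl⟩
      refine ⟨t, ht, V * U, ?_⟩
      rw [Units.val_mul, rec_im_mul, ← mul_assoc]
      rfl
    · rintro _ ⟨s, rfl⟩ h hh
      rw [Set.mem_iInter] at hh ⊢
      intro m
      refine map_mem_closure (f := fun h => diagonal (gflow w s) * h) (by fun_prop)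
        (hh (m + ⌈|s|⌉₊)) ?_
      rintro _ ⟨t, ht, V, rfl⟩
      refine ⟨s + t, ?_, V, ?_⟩
      · push_cast at ht
        have h1 := Nat.le_ceil |s|
        have h2 := neg_abs_le s
        linarith
      · rw [← rec_diag]
        simp only [mul_assoc]
  have hsub : (⋂ n, closure (recS w y n)) ⊆ M := by
    refine (Set.iInter_subset _ 0).trans ?_
    exact closure_minimal (hSM 0) hmin.1.closed
  have heq := hmin.2 _ hsub hinv
  have hzω : z ∈ ⋂ n, closure (recS w y n) := by rw [heq]; exact hz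
  rw [Set.mem_iInter] at hzω
  haveI : FirstCountableTopology (Matrix (Fin d) (Fin d) ℝ) :=
    inferInstanceAs (FirstCountableTopology (Fin d → Fin d → ℝ))
  obtain ⟨b, hb⟩ := (𝓝 z).exists_antitone_basis
  have hex : ∀ n, ∃ x, x ∈ b n ∧ x ∈ recS w y n := by
    intro n
    have h1 := mem_closure_iff_nhds.1 (hzω n) (b n) (hb.mem n)
    exact h1
  choose x hxb hxS using hex
  choose t ht V hV using hxS
  refine ⟨t, V, tendsto_atTop_mono ht tendsto_natCast_atTop_atTop, ?_⟩
  exact (hb.tendsto hxb).congr fun n => hV n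

end Pool.Agent.H46.RU
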