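import Pool.Agent.H46.RU.Rec
import Pool.Agent.H46.RU.Clo

/-!
# [H46 RU RTN] Neutral returns of a minimal set without shears (60 min)

Choose `y ∈ M`.  `rec_min` (`z = y`): `t n → ∞`, `φ_(t n) y V_n → y` (`φ_t = diag (gflow w t)`).
`E n = φ_(t n) y V_n y⁻¹ - 1 → 0`, `(1 + E n) y = φ_(t n) y V_n ∈ M ⊆ Z`.  `gmag` (H81/GF/Gmag, with `hno`): for large `n`
`E n a b = 0` if `w b < w a`.  Drop finitely many `n` (`tendsto_add_atTop_iff_nat` or shift the sequences by `N`).
`R n = 1 + (the entries (a, b) of E n with w a = w b)`; `R n → 1`; a nonzero entry `(i, j)` of `R n` has `w i = w j` (also the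
diagonal ones).
Let `n` be fixed and `z ∈ M`.  `rec_min`: `s k → ∞`, `z_k := φ_(s k) y W_k → z`.  Then
`φ_(s k) (1 + E n) y W_k = (1 + φ_(s k) (E n) φ_(-s k)) z_k → R n * z`: the entry `(a, b)` of the conjugate is
`exp (s k (w a - w b)) E n a b`, it tends to `0` if `w a < w b`, is `E n a b` if `w a = w b`, and `E n a b = 0` otherwise.  On the
other hand it is `φ_(s k) φ_(t n) y V_n W_k = φ_(t n) z_k (W_k⁻¹ V_n W_k)`.  So
`im (W_k⁻¹ V_n W_k) = (φ_(t n) z_k)⁻¹ * (…) → (φ_(t n) z)⁻¹ R n z` (`continuousAt_inv`), by `units_tendsto` this limit is `im U`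
for a unit `U`, and `φ_(t n) z * im U = R n * z`.
-/

set_option autoImplicit false

namespace Pool.Agent.H46.RU

open Matrix Filter Topology Pool.Agent.H89.CSD Pool.Agent.H46.RG Pool.Agent.H81.GF

variable {d : ℕ}

/-- conjugation by the flow -/
private noncomputable def rtnC (w : Fin d → ℝ) (s : ℝ) (E : Matrix (Fin d) (Fin d) ℝ) :
    Matrix (Fin d) (Fin d) ℝ :=
  Matrix.of fun a b => gflow w s a * (1 + E) a b * (gflow w s b)⁻¹

private theorem rtnC_mul (w : Fin d → ℝ) (s : ℝ) (E : Matrix (Fin d) (Fin d) ℝ) :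
    rtnC w s E * diagonal (gflow w s) = diagonal (gflow w s) * (1 + E) := by
  ext a b
  have hfb : gflow w s b ≠ 0 := (gflow_pos w s b).ne'
  rw [Matrix.mul_diagonal, Matrix.diagonal_mul, rtnC, Matrix.of_apply]
  field_simp

private noncomputable def rtnR (w : Fin d → ℝ) (E : Matrix (Fin d) (Fin d) ℝ) :
    Matrix (Fin d) (Fin d) ℝ :=
  by
    classical
    exact 1 + Matrix.of fun a b => if w a = w b then E a b else 0

private theorem rtnR_apply (w : Fin d → ℝ) (E : Matrix (Fin d) (Fin d) ℝ) (a b : Fin d) :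
    rtnR w E a b = (1 : Matrix (Fin d) (Fin d) ℝ) a b + if w a = w b then E a b else 0 := rfl

private theorem rtnC_lim {w : Fin d → ℝ} {E : Matrix (Fin d) (Fin d) ℝ}
    (hE : ∀ a b, w b < w a → E a b = 0) {s : ℕ → ℝ} (hs : Tendsto s atTop atTop) :
    Tendsto (fun k => rtnC w (s k) E) atTop (𝓝 (rtnR w E)) := by
  refine tendsto_pi_nhds.2 fun a => tendsto_pi_nhds.2 fun b => ?_
  rw [rtnR_apply]
  have h0 : ∀ k, rtnC w (s k) E a b =
      (1 : Matrix (Fin d) (Fin d) ℝ) a b + Real.exp (s k * (w a - w b)) * E a b := by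
    intro k
    rw [rtnC, Matrix.of_apply, Matrix.add_apply, ← gflow_ratio]
    by_cases hab : a = b
    · subst hab
      have hfb : gflow w (s k) a ≠ 0 := (gflow_pos w (s k) a).ne'
      rw [Matrix.one_apply_eq]
      field_simp
    · rw [Matrix.one_apply_ne hab]
      ring
  simp only [h0]
  refine Tendsto.const_add _ ?_
  rcases lt_trichotomy (w a) (w b) with h | h | h
  · rw [if_neg h.ne]
    have h1 : Tendsto (fun k => s k * (w a - w b)) atTop atBot :=
      hs.atTop_mul_const_of_neg (by linarith)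
    have h2 := (Real.tendsto_exp_atBot.comp h1).mul_const (E a b)
    rw [zero_mul] at h2
    exact h2
  · rw [if_pos h, h, sub_self]
    simp only [mul_zero, Real.exp_zero, one_mul]
    exact tendsto_const_nhds
  · rw [if_neg h.ne', hE a b h]
    simp only [mul_zero]
    exact tendsto_const_nhds

theorem rtn {g : Matrix (Fin d) (Fin d) ℝ} (hg : g.det ≠ 0) {c : ℝ} (hc : 0 < c)
    (hp : Pos c g) {w : Fin d → ℝ} (hw : ∑ i, w i = 0) {Z : Set (Matrix (Fin d) (Fin d) ℝ)}
    (hZ : Z ⊆ Om g) (hinv : IsInv (GFlow w) Z)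
    (hno : ∀ z ∈ Z, ∀ v : Matrix (Fin d) (Fin d) ℝ, v ≠ 0 → Up w v → (1 + v) * z ∉ Z)
    {M : Set (Matrix (Fin d) (Fin d) ℝ)} (hMZ : M ⊆ Z) (hM : IsMin (GFlow w) M) :
    ∃ (t : ℕ → ℝ) (R : ℕ → Matrix (Fin d) (Fin d) ℝ), Tendsto t atTop atTop ∧
      Tendsto R atTop (𝓝 1) ∧ (∀ n i j, R n i j ≠ 0 → w i = w j) ∧
      ∀ n, ∀ z ∈ M, ∃ U : (Matrix (Fin d) (Fin d) ℤ)ˣ,
        diagonal (gflow w (t n)) * z * im (U : Matrix (Fin d) (Fin d) ℤ) = R n * z := by
  classical
  have hMO : M ⊆ Om g := hMZ.trans hZ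
  obtain ⟨y, hy⟩ := hM.1.nonempty
  have yd : y.det ≠ 0 := Om_det_ne hg (hMO hy)
  have yu : IsUnit y.det := isUnit_iff_ne_zero.2 yd
  obtain ⟨t, V, ht, hV⟩ := rec_min hg hc hp hw hMO hM hy hy
  have hAM : ∀ n, diagonal (gflow w (t n)) * y * im (V n : Matrix (Fin d) (Fin d) ℤ) ∈ M :=
    fun n => hM.1.im (hM.1.diag _ ⟨_, rfl⟩ _ hy) (V n)
  obtain ⟨E, hE⟩ : ∃ E : ℕ → Matrix (Fin d) (Fin d) ℝ, ∀ n,
      E n = diagonal (gflow w (t n)) * y * im (V n : Matrix (Fin d) (Fin d) ℤ) * y⁻¹ - 1 :=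
    ⟨_, fun n => rfl⟩
  have hEy : ∀ n, (1 + E n) * y =
      diagonal (gflow w (t n)) * y * im (V n : Matrix (Fin d) (Fin d) ℤ) := by
    intro n
    rw [hE, add_sub_cancel, Matrix.mul_assoc, Matrix.nonsing_inv_mul _ yu, Matrix.mul_one]
  have hElim : Tendsto E atTop (𝓝 0) := by
    have h1 : Tendsto (fun n => diagonal (gflow w (t n)) * y *
        im (V n : Matrix (Fin d) (Fin d) ℤ) * y⁻¹ - 1) atTop (𝓝 (y * y⁻¹ - 1)) :=
      (hV.mul_const _).sub_const _
    rw [Matrix.mul_nonsing_inv _ yu, sub_self] at h1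
    refine h1.congr fun n => (hE n).symm
  obtain ⟨δ, hδ, hmag⟩ := gmag hg hc hp w hZ hinv hno
  have hElim' : ∀ i j, Tendsto (fun n => E n i j) atTop (𝓝 0) := fun i j =>
    (tendsto_pi_nhds.1 (tendsto_pi_nhds.1 hElim i) j)
  have hsm : ∀ᶠ n in atTop, ∀ i j, |E n i j| < δ := by
    refine eventually_all.2 fun i => eventually_all.2 fun j => ?_
    have h1 := (hElim' i j).abs
    rw [abs_zero] at h1
    exact h1.eventually_lt_const hδ
  obtain ⟨N, hN⟩ := eventually_atTop.1 hsm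
  have hE0 : ∀ n, N ≤ n → ∀ a b, w b < w a → E n a b = 0 := by
    intro n hn
    refine hmag y (hMZ hy) (E n) ?_ (hN n hn)
    rw [hEy]
    exact hMZ (hAM n)
  refine ⟨fun n => t (n + N), fun n => rtnR w (E (n + N)),
    (tendsto_add_atTop_iff_nat N).2 ht, ?_, ?_, ?_⟩
  · have h1 : Tendsto (fun n => rtnR w (E n)) atTop (𝓝 1) := by
      refine tendsto_pi_nhds.2 fun a => tendsto_pi_nhds.2 fun b => ?_
      simp only [rtnR_apply]
      have h2 : Tendsto (fun n => (if w a = w b then E n a b else 0)) atTop (𝓝 0) := by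
        split_ifs with h
        · exact hElim' a b
        · exact tendsto_const_nhds
      have h3 := h2.const_add ((1 : Matrix (Fin d) (Fin d) ℝ) a b)
      rw [add_zero] at h3
      exact h3
    exact (tendsto_add_atTop_iff_nat N).2 h1
  · intro n i j hij
    by_contra hne
    apply hij
    have h1 : rtnR w (E (n + N)) i j = 0 := by
      rw [rtnR_apply, if_neg hne, add_zero, Matrix.one_apply_ne]
      rintro rfl
      exact hne rfl
    exact h1
  · intro n0 z hz
    show ∃ U : (Matrix (Fin d) (Fin d) ℤ)ˣ,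
        diagonal (gflow w (t (n0 + N))) * z * im (U : Matrix (Fin d) (Fin d) ℤ) =
        rtnR w (E (n0 + N)) * z
    obtain ⟨n, hn⟩ : ∃ n, n = n0 + N := ⟨_, rfl⟩
    rw [← hn]
    have hnN : N ≤ n := by omega
    obtain ⟨s, W, hs, hW⟩ := rec_min hg hc hp hw hMO hM hy hz
    have hBM : ∀ k, diagonal (gflow w (s k)) * y * im (W k : Matrix (Fin d) (Fin d) ℤ) ∈ M :=
      fun k => hM.1.im (hM.1.diag _ ⟨_, rfl⟩ _ hy) (W k)
    have hlim := (rtnC_lim (hE0 n hnN) hs).mul hW
    have hTd : (diagonal (gflow w (t n)) : Matrix (Fin d) (Fin d) ℝ).det ≠ 0 := by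
      rw [Matrix.det_diagonal]
      exact Finset.prod_ne_zero_iff.2 fun i _ => (gflow_pos w (t n) i).ne'
    have hzd : z.det ≠ 0 := Om_det_ne hg (hMO hz)
    have hTz : (diagonal (gflow w (t n)) * z).det ≠ 0 := by
      rw [Matrix.det_mul]
      exact mul_ne_zero hTd hzd
    have hcomm : ∀ k, diagonal (gflow w (s k)) * diagonal (gflow w (t n)) =
        (diagonal (gflow w (t n)) * diagonal (gflow w (s k)) : Matrix (Fin d) (Fin d) ℝ) := by
      intro k
      rw [Matrix.diagonal_mul_diagonal, Matrix.diagonal_mul_diagonal]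
      congr 1
      ext i
      exact mul_comm _ _
    have hkey : ∀ k, rtnC w (s k) (E n) *
        (diagonal (gflow w (s k)) * y * im (W k : Matrix (Fin d) (Fin d) ℤ)) =
        diagonal (gflow w (t n)) *
          (diagonal (gflow w (s k)) * y * im (W k : Matrix (Fin d) (Fin d) ℤ)) *
          im (((W k)⁻¹ * V n * W k : (Matrix (Fin d) (Fin d) ℤ)ˣ) : Matrix (Fin d) (Fin d) ℤ) := by
      intro k
      have e1 : im (W k : Matrix (Fin d) (Fin d) ℤ) *
          im (((W k)⁻¹ * V n * W k : (Matrix (Fin d) (Fin d) ℤ)ˣ) : Matrix (Fin d) (Fin d) ℤ) =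
          im (V n : Matrix (Fin d) (Fin d) ℤ) * im (W k : Matrix (Fin d) (Fin d) ℤ) := by
        rw [← im_mul, ← im_mul, ← Units.val_mul, ← Units.val_mul]
        congr 2
        group
      calc rtnC w (s k) (E n) *
          (diagonal (gflow w (s k)) * y * im (W k : Matrix (Fin d) (Fin d) ℤ)) =
          (rtnC w (s k) (E n) * diagonal (gflow w (s k))) * y *
            im (W k : Matrix (Fin d) (Fin d) ℤ) := by
            simp only [Matrix.mul_assoc]
        _ = diagonal (gflow w (s k)) * ((1 + E n) * y) *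
            im (W k : Matrix (Fin d) (Fin d) ℤ) := by
            rw [rtnC_mul]
            simp only [Matrix.mul_assoc]
        _ = (diagonal (gflow w (s k)) * diagonal (gflow w (t n))) * y *
            (im (V n : Matrix (Fin d) (Fin d) ℤ) * im (W k : Matrix (Fin d) (Fin d) ℤ)) := by
            rw [hEy]
            simp only [Matrix.mul_assoc]
        _ = _ := by
            rw [hcomm, ← e1]
            simp only [Matrix.mul_assoc]
    have hBd : ∀ k, (diagonal (gflow w (t n)) *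
        (diagonal (gflow w (s k)) * y * im (W k : Matrix (Fin d) (Fin d) ℤ))).det ≠ 0 := by
      intro k
      rw [Matrix.det_mul]
      exact mul_ne_zero hTd (Om_det_ne hg (hMO (hBM k)))
    have hlimU : Tendsto (fun k => im (((W k)⁻¹ * V n * W k :
        (Matrix (Fin d) (Fin d) ℤ)ˣ) : Matrix (Fin d) (Fin d) ℤ)) atTop
        (𝓝 ((diagonal (gflow w (t n)) * z)⁻¹ * (rtnR w (E n) * z))) := by
      have h1 : Tendsto (fun k => (diagonal (gflow w (t n)) *
          (diagonal (gflow w (s k)) * y * im (W k : Matrix (Fin d) (Fin d) ℤ)))⁻¹ *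
          (rtnC w (s k) (E n) *
            (diagonal (gflow w (s k)) * y * im (W k : Matrix (Fin d) (Fin d) ℤ)))) atTop
          (𝓝 ((diagonal (gflow w (t n)) * z)⁻¹ * (rtnR w (E n) * z))) := by
        refine Filter.Tendsto.mul ?_ hlim
        exact (continuousAt_inv hTz).tendsto.comp (hW.const_mul _)
      refine h1.congr fun k => ?_
      rw [hkey k, ← Matrix.mul_assoc,
        Matrix.nonsing_inv_mul _ (isUnit_iff_ne_zero.2 (hBd k)), Matrix.one_mul]
    obtain ⟨U, hU, -⟩ := units_tendsto hlimU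
    refine ⟨U, ?_⟩
    rw [hU, ← Matrix.mul_assoc, Matrix.mul_nonsing_inv _ (isUnit_iff_ne_zero.2 hTz),
      Matrix.one_mul]

end Pool.Agent.H46.RU
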